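import Pool.Agent.Lib.MP_29fe3f_al.HigGrp

/-!
Derived length of nilpotent groups with an almost regular coprime automorphism of prime order.
-/

set_option autoImplicit false
set_option linter.all false

namespace Pool.Agent.Lib.MP_29fe3f_al

open scoped commutatorElement

section ds

variable {S : Type} [Group S]

theorem derivedSeries_sub (n : ℕ) : ∀ m : ℕ,
    (derivedSeries (derivedSeries S n) m).map (derivedSeries S n).subtype =
      derivedSeries S (n + m) := by
  intro m
  induction m with
  | zero =>
    rw [derivedSeries_zero, ← MonoidHom.range_eq_map, Subgroup.range_subtype]; rfl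
  | succ m ih =>
    rw [derivedSeries_succ, Subgroup.map_commutator, ih]
    rfl

theorem derivedSeries_eq_bot_of_le (hS : Group.IsSolvable S) (n : ℕ)
    (h : derivedSeries S n ≤ derivedSeries S (n + 1)) : derivedSeries S n = ⊥ := by
  have hall : ∀ k, derivedSeries S n ≤ derivedSeries S (n + k) := by
    intro k
    induction k with
    | zero => exact le_refl _
    | succ k ih =>
      calc derivedSeries S n ≤ derivedSeries S (n + 1) := h
        _ = ⁅derivedSeries S n, derivedSeries S n⁆ := rfl
        _ ≤ ⁅derivedSeries S (n + k), derivedSeries S (n + k)⁆ := Subgroup.commutator_mono ih ih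
        _ = derivedSeries S (n + (k + 1)) := rfl
  obtain ⟨k, hk⟩ := hS.solvable
  rw [eq_bot_iff, ← hk]
  exact le_trans (hall k) (derivedSeries_antitone S (Nat.le_add_left k n))

/-- restriction of an automorphism to a characteristic subgroup -/
def autRes (φ : MulAut S) (D : Subgroup S) [hD : D.Characteristic] : MulAut D where
  toFun x := ⟨φ x, (Subgroup.characteristic_iff_le_comap.mp hD φ) x.2⟩
  invFun x := ⟨φ.symm x, (Subgroup.characteristic_iff_le_comap.mp hD φ.symm) x.2⟩
  left_inv := by intro x; apply Subtype.ext; simp
  right_inv := by intro x; apply Subtype.ext; simp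
  map_mul' := by intro x y; apply Subtype.ext; simp

theorem autRes_apply (φ : MulAut S) (D : Subgroup S) [hD : D.Characteristic] (x : D) :
    ((autRes φ D x : D) : S) = φ x := rfl

theorem autRes_pow (φ : MulAut S) (D : Subgroup S) [hD : D.Characteristic] (n : ℕ) (x : D) :
    (((autRes φ D) ^ n) x : S) = (φ ^ n) x := by
  induction n with
  | zero => rfl
  | succ n ih =>
    rw [pow_succ', pow_succ']
    show ((autRes φ D) (((autRes φ D) ^ n) x) : S) = φ ((φ ^ n) x)
    rw [autRes_apply, ih]

/-- automorphism induced on the quotient by a characteristic subgroup -/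
def autQuo (φ : MulAut S) (D : Subgroup S) [hD : D.Characteristic] : MulAut (S ⧸ D) :=
  QuotientGroup.congr D D φ (Subgroup.characteristic_iff_map_eq.mp hD φ)

theorem autQuo_mk (φ : MulAut S) (D : Subgroup S) [hD : D.Characteristic] (x : S) :
    autQuo φ D (x : S ⧸ D) = ((φ x : S) : S ⧸ D) := rfl

theorem autQuo_pow (φ : MulAut S) (D : Subgroup S) [hD : D.Characteristic] (n : ℕ) (x : S) :
    ((autQuo φ D) ^ n) (x : S ⧸ D) = (((φ ^ n) x : S) : S ⧸ D) := by
  induction n with
  | zero => rfl
  | succ n ih =>
    rw [pow_succ', pow_succ']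
    show (autQuo φ D) (((autQuo φ D) ^ n) (x : S ⧸ D)) = _
    rw [ih, autQuo_mk]
    rfl

end ds

/-- **Almost regular coprime automorphisms of prime order.** -/
theorem almost_regular (r : ℕ) [hr : Fact r.Prime] : ∀ (k : ℕ) (S : Type) [Group S] [Finite S],
    Group.IsNilpotent S → ∀ φ : MulAut S, φ ^ r = 1 → Nat.Coprime r (Nat.card S) →
    Nat.card {x : S // φ x = x} ≤ 2 ^ k →
    derivedSeries S ((cc r (2 ^ (r - 1) - 1) + 1) * (k + 1)) = ⊥ := by
  intro k
  set c := cc r (2 ^ (r - 1) - 1) with hc
  induction k with
  | zero =>
    intro S _ _ hS φ hφ hcop hfix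
    have hfix' : ∀ x, φ x = x → x = 1 := by
      intro x hx
      by_contra hne
      have h1 : Nat.card (Fin 2) ≤ Nat.card {x : S // φ x = x} := by
        apply Nat.card_le_card_of_injective
          (fun i : Fin 2 => if i = 0 then (⟨1, map_one φ⟩ : {x : S // φ x = x}) else ⟨x, hx⟩)
        intro i j hij
        fin_cases i <;> fin_cases j
        · rfl
        · exfalso; apply hne; simpa using (congrArg Subtype.val hij).symm
        · exfalso; apply hne; simpa using (congrArg Subtype.val hij)
        · rfl
      rw [Nat.card_eq_fintype_card, Fintype.card_fin] at h1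
      have h2 := le_trans h1 hfix
      norm_num at h2
    have h1 := higman_group hS r φ hφ hcop hfix'
    rw [← hc] at h1
    rw [eq_bot_iff, ← h1]
    exact le_trans (derivedSeries_antitone S (by omega)) (Subgroup.derived_le_lower_central _)
  | succ k ih =>
    intro S _ _ hS φ hφ hcop hfix
    haveI := hS
    have hsol : Group.IsSolvable S := inferInstance
    set D := derivedSeries S (c + 1) with hD
    by_cases hA : ∀ x : S, x⁻¹ * φ x ∈ D → x ∈ D
    · -- regular on the quotient
      have h1 := higman_group (S := S ⧸ D) inferInstance r (autQuo φ D) (by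
        apply MulEquiv.ext
        intro q
        obtain ⟨x, rfl⟩ := QuotientGroup.mk_surjective q
        rw [autQuo_pow, hφ]; rfl) (Nat.Coprime.coprime_dvd_right
          (Subgroup.card_quotient_dvd_card D) hcop) (by
        intro q hq
        obtain ⟨x, rfl⟩ := QuotientGroup.mk_surjective q
        rw [autQuo_mk] at hq
        rw [QuotientGroup.eq_one_iff]
        apply hA
        exact QuotientGroup.eq.mp hq.symm)
      rw [← hc] at h1
      have h2 : derivedSeries (S ⧸ D) c = ⊥ := by
        rw [eq_bot_iff, ← h1]
        exact Subgroup.derived_le_lower_central _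
      have h3 : (derivedSeries S c).map (QuotientGroup.mk' D) = ⊥ := by
        rw [map_derivedSeries_eq (QuotientGroup.mk'_surjective D), h2]
      rw [Subgroup.map_eq_bot_iff, QuotientGroup.ker_mk'] at h3
      have h4 := derivedSeries_eq_bot_of_le hsol c h3
      rw [eq_bot_iff, ← h4]
      apply derivedSeries_antitone S
      nlinarith
    · -- a fixed point outside D
      push Not at hA
      obtain ⟨x, hx1, hx2⟩ := hA
      have hDφ : ∀ z ∈ D, φ z ∈ D := by
        intro z hz
        have hDc : D.Characteristic := inferInstance
        exact (Subgroup.characteristic_iff_le_comap.mp hDc φ) hz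
      have hcD : Nat.Coprime r (Nat.card D) :=
        Nat.Coprime.coprime_dvd_right (Subgroup.card_subgroup_dvd_card _) hcop
      obtain ⟨y, hy1, hy2⟩ := coprime_fix r φ hφ D hDφ hcD x hx1
      have hyD : y ∉ D := by
        intro hy
        apply hx2
        have := D.mul_mem hy (D.inv_mem hy1)
        simpa using this
      -- fixed point subgroup
      let Fx : Subgroup S :=
        { carrier := {z | φ z = z}
          mul_mem' := by
            intro a b ha hb
            show φ (a * b) = a * b
            rw [map_mul, ha, hb]
          one_mem' := map_one φ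
          inv_mem' := by
            intro a ha
            show φ a⁻¹ = a⁻¹
            rw [map_inv, ha] }
      have hFx : Nat.card Fx ≤ 2 ^ (k + 1) := hfix
      have hFD : Nat.card (Fx ⊓ D : Subgroup S) ≤ 2 ^ k := by
        have h1 := Subgroup.card_mul_index ((Fx ⊓ D).subgroupOf Fx)
        have h2 : Nat.card ((Fx ⊓ D).subgroupOf Fx) = Nat.card (Fx ⊓ D : Subgroup S) :=
          Nat.card_congr (Subgroup.subgroupOfEquivOfLe inf_le_left).toEquiv
        have h3 : ((Fx ⊓ D).subgroupOf Fx).index ≠ 1 := by
          intro h
          rw [Subgroup.index_eq_one, Subgroup.subgroupOf_eq_top] at h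
          exact hyD (h (show y ∈ Fx from hy2)).2
        have h4 : 0 < Nat.card Fx := Nat.card_pos
        have h5 : ((Fx ⊓ D).subgroupOf Fx).index ≠ 0 := by
          intro h
          rw [h, mul_zero] at h1
          omega
        have h6 : 2 ≤ ((Fx ⊓ D).subgroupOf Fx).index := by omega
        rw [h2] at h1
        have h7 : Nat.card (Fx ⊓ D : Subgroup S) * 2 ≤ 2 ^ (k + 1) := by
          calc Nat.card (Fx ⊓ D : Subgroup S) * 2 ≤
              Nat.card (Fx ⊓ D : Subgroup S) * ((Fx ⊓ D).subgroupOf Fx).index :=
                Nat.mul_le_mul_left _ h6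
            _ = Nat.card Fx := h1
            _ ≤ 2 ^ (k + 1) := hFx
        rw [pow_succ] at h7
        omega
      have h8 := ih D inferInstance (autRes φ D) (by
        apply MulEquiv.ext
        intro z
        apply Subtype.ext
        rw [autRes_pow, hφ]; rfl) hcD (by
        refine le_trans (Nat.card_le_card_of_injective
          (fun z : {z : D // autRes φ D z = z} =>
            (⟨(z.1 : S), ⟨congrArg Subtype.val z.2, z.1.2⟩⟩ : (Fx ⊓ D : Subgroup S))) ?_) hFD
        intro z w hzw
        have h := congrArg (fun q : (Fx ⊓ D : Subgroup S) => (q : S)) hzw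
        exact Subtype.ext (Subtype.ext h))
      have h9 := derivedSeries_sub (S := S) (c + 1) ((c + 1) * (k + 1))
      have h10 : (derivedSeries (derivedSeries S (c + 1)) ((c + 1) * (k + 1))) = ⊥ := h8
      rw [h10, Subgroup.map_bot] at h9
      have e : (c + 1) * (k + 1 + 1) = c + 1 + (c + 1) * (k + 1) := by ring
      rw [e]
      exact h9.symm

end Pool.Agent.Lib.MP_29fe3f_al
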