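import Pool.Agent.Lib.MP_29fe3f_al.Regular

/-!
The Lie ring associated with a central filtration of a group.
-/

set_option autoImplicit false
set_option linter.all false

namespace Pool.Agent.Lib.MP_29fe3f_al

open scoped commutatorElement

/-- a central filtration -/
structure Filt (S : Type) [Group S] where
  N : ℕ → Subgroup S
  normal : ∀ k, (N k).Normal
  le : ∀ k, N (k + 1) ≤ N k
  cent : ∀ k, ∀ x ∈ N k, ∀ g : S, ⁅x, g⁆ ∈ N (k + 1)
  comm : ∀ i j, ∀ x ∈ N i, ∀ y ∈ N j, ⁅x, y⁆ ∈ N (i + j)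

section gr

variable {S : Type} [Group S] (F : Filt S)

instance Filt.instNormal (k : ℕ) : (F.N k).Normal := F.normal k

/-- graded component, multiplicative version -/
abbrev GrM (k : ℕ) : Type := (F.N k) ⧸ (F.N (k + 1)).subgroupOf (F.N k)

theorem Filt.swap (k : ℕ) (x : S) (hx : x ∈ F.N k) (g : S) : ⁅g, x⁆ ∈ F.N (k + 1) := by
  have := (F.N (k + 1)).inv_mem (F.cent k x hx g)
  rwa [commutatorElement_inv] at this

instance instCommGrM (k : ℕ) : CommGroup (GrM F k) :=
  { (inferInstance : Group (GrM F k)) with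
    mul_comm := by
      intro a b
      induction a using QuotientGroup.induction_on with
      | H a =>
      induction b using QuotientGroup.induction_on with
      | H b =>
      rw [← QuotientGroup.mk_mul, ← QuotientGroup.mk_mul, QuotientGroup.eq,
        Subgroup.mem_subgroupOf]
      have h1 := F.cent k (b : S)⁻¹ ((F.N k).inv_mem b.2) (a : S)⁻¹
      rw [commutatorElement_def] at h1
      simpa [mul_assoc] using h1 }

/-- graded component -/
abbrev Gr (k : ℕ) : Type := Additive (GrM F k)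

/-- class of an element -/
def gcl (k : ℕ) (x : S) (hx : x ∈ F.N k) : Gr F k :=
  Additive.ofMul (QuotientGroup.mk (⟨x, hx⟩ : F.N k))

theorem gcl_ind {k : ℕ} {P : Gr F k → Prop} (h : ∀ x hx, P (gcl F k x hx)) (a : Gr F k) : P a := by
  obtain ⟨⟨x, hx⟩, hq⟩ := QuotientGroup.mk_surjective (Additive.toMul a)
  have := h x hx
  rw [gcl, hq] at this
  exact this

theorem gcl_mul {k : ℕ} {x y : S} (hx : x ∈ F.N k) (hy : y ∈ F.N k) :
    gcl F k (x * y) ((F.N k).mul_mem hx hy) = gcl F k x hx + gcl F k y hy := rfl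

theorem gcl_inv {k : ℕ} {x : S} (hx : x ∈ F.N k) :
    gcl F k x⁻¹ ((F.N k).inv_mem hx) = - gcl F k x hx := rfl

theorem gcl_one {k : ℕ} : gcl F k 1 (F.N k).one_mem = 0 := rfl

theorem gcl_pow {k : ℕ} {x : S} (hx : x ∈ F.N k) (n : ℕ) :
    gcl F k (x ^ n) ((F.N k).pow_mem hx n) = n • gcl F k x hx := rfl

theorem gcl_eq_iff {k : ℕ} {x y : S} (hx : x ∈ F.N k) (hy : y ∈ F.N k) :
    gcl F k x hx = gcl F k y hy ↔ x⁻¹ * y ∈ F.N (k + 1) := by
  rw [gcl, gcl, Additive.ofMul.injective.eq_iff, QuotientGroup.eq, Subgroup.mem_subgroupOf]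
  rfl

theorem gcl_eq_zero_iff {k : ℕ} {x : S} (hx : x ∈ F.N k) :
    gcl F k x hx = 0 ↔ x ∈ F.N (k + 1) := by
  rw [← gcl_one F, eq_comm, gcl_eq_iff, inv_one, one_mul]

theorem gcl_conj {k : ℕ} {x : S} (hx : x ∈ F.N k) (g : S) :
    gcl F k (g * x * g⁻¹) ((F.normal k).conj_mem x hx g) = gcl F k x hx := by
  rw [eq_comm, gcl_eq_iff]
  have := F.cent k x⁻¹ ((F.N k).inv_mem hx) g
  rw [commutatorElement_def] at this
  simpa [mul_assoc] using this

theorem gcl_congr {k : ℕ} {x y : S} (hx : x ∈ F.N k) (h : x = y) :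
    gcl F k x hx = gcl F k y (h ▸ hx) := by subst h; rfl

theorem gcl_comm_mul_right {i j : ℕ} {x y y' : S} (hx : x ∈ F.N i) (hy : y ∈ F.N j)
    (hy' : y' ∈ F.N j) :
    gcl F (i + j) ⁅x, y * y'⁆ (F.comm i j x hx _ ((F.N j).mul_mem hy hy')) =
      gcl F (i + j) ⁅x, y⁆ (F.comm i j x hx y hy) +
      gcl F (i + j) ⁅x, y'⁆ (F.comm i j x hx y' hy') := by
  rw [← gcl_conj F (F.comm i j x hx y' hy') y, ← gcl_mul]
  apply gcl_congr
  rw [commutatorElement_def, commutatorElement_def, commutatorElement_def]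
  group

theorem gcl_comm_mul_left {i j : ℕ} {x x' y : S} (hx : x ∈ F.N i) (hx' : x' ∈ F.N i)
    (hy : y ∈ F.N j) :
    gcl F (i + j) ⁅x * x', y⁆ (F.comm i j _ ((F.N i).mul_mem hx hx') y hy) =
      gcl F (i + j) ⁅x, y⁆ (F.comm i j x hx y hy) +
      gcl F (i + j) ⁅x', y⁆ (F.comm i j x' hx' y hy) := by
  rw [add_comm (gcl F (i + j) ⁅x, y⁆ (F.comm i j x hx y hy)),
    ← gcl_conj F (F.comm i j x' hx' y hy) x, ← gcl_mul]
  apply gcl_congr
  rw [commutatorElement_def, commutatorElement_def, commutatorElement_def]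
  group

theorem gcl_comm_zero_left {i j : ℕ} {x y : S} (hx : x ∈ F.N i) (hx1 : x ∈ F.N (i + 1))
    (hy : y ∈ F.N j) : gcl F (i + j) ⁅x, y⁆ (F.comm i j x hx y hy) = 0 := by
  rw [gcl_eq_zero_iff]
  have := F.comm (i + 1) j x hx1 y hy
  have e : i + 1 + j = i + j + 1 := by omega
  rwa [e] at this

theorem gcl_comm_zero_right {i j : ℕ} {x y : S} (hx : x ∈ F.N i) (hy : y ∈ F.N j)
    (hy1 : y ∈ F.N (j + 1)) : gcl F (i + j) ⁅x, y⁆ (F.comm i j x hx y hy) = 0 := by
  rw [gcl_eq_zero_iff]
  exact F.comm i (j + 1) x hx y hy1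

theorem gcl_comm_wd {i j : ℕ} {x x' y y' : S} (hx : x ∈ F.N i) (hx' : x' ∈ F.N i)
    (hy : y ∈ F.N j) (hy' : y' ∈ F.N j) (h1 : x⁻¹ * x' ∈ F.N (i + 1))
    (h2 : y⁻¹ * y' ∈ F.N (j + 1)) :
    gcl F (i + j) ⁅x, y⁆ (F.comm i j x hx y hy) =
      gcl F (i + j) ⁅x', y'⁆ (F.comm i j x' hx' y' hy') := by
  have e1 : x' = x * (x⁻¹ * x') := by group
  have e2 : y' = y * (y⁻¹ * y') := by group
  have m1 : x⁻¹ * x' ∈ F.N i := F.le i h1
  have m2 : y⁻¹ * y' ∈ F.N j := F.le j h2
  have s1 : gcl F (i + j) ⁅x', y'⁆ (F.comm i j x' hx' y' hy') =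
      gcl F (i + j) ⁅x * (x⁻¹ * x'), y'⁆ (F.comm i j _ ((F.N i).mul_mem hx m1) y' hy') := by
    apply gcl_congr; rw [← e1]
  have s2 : gcl F (i + j) ⁅x, y'⁆ (F.comm i j x hx y' hy') =
      gcl F (i + j) ⁅x, y * (y⁻¹ * y')⁆ (F.comm i j x hx _ ((F.N j).mul_mem hy m2)) := by
    apply gcl_congr; rw [← e2]
  rw [s1, gcl_comm_mul_left F hx m1 hy', gcl_comm_zero_left F m1 h1 hy', add_zero, s2,
    gcl_comm_mul_right F hx hy m2, gcl_comm_zero_right F hx m2 h2, add_zero]

/-- bracket on homogeneous components -/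
def brFun (i j : ℕ) (a : Gr F i) (b : Gr F j) : Gr F (i + j) :=
  Additive.ofMul (Quotient.map₂ (fun (x : F.N i) (y : F.N j) =>
    (⟨⁅(x : S), (y : S)⁆, F.comm i j x x.2 y y.2⟩ : F.N (i + j))) (by
    intro x x' hx y y' hy
    have hx1 : (x : S)⁻¹ * x' ∈ F.N (i + 1) :=
      Subgroup.mem_subgroupOf.mp (QuotientGroup.leftRel_apply.mp hx)
    have hy1 : (y : S)⁻¹ * y' ∈ F.N (j + 1) :=
      Subgroup.mem_subgroupOf.mp (QuotientGroup.leftRel_apply.mp hy)
    apply QuotientGroup.leftRel_apply.mpr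
    rw [Subgroup.mem_subgroupOf]
    exact (gcl_eq_iff F _ _).mp (gcl_comm_wd F x.2 x'.2 y.2 y'.2 hx1 hy1))
    (Additive.toMul a) (Additive.toMul b))

theorem brFun_gcl (i j : ℕ) {x y : S} (hx : x ∈ F.N i) (hy : y ∈ F.N j) :
    brFun F i j (gcl F i x hx) (gcl F j y hy) = gcl F (i + j) ⁅x, y⁆ (F.comm i j x hx y hy) :=
  rfl

/-- bracket on homogeneous components, biadditive version -/
def brc (i j : ℕ) : Gr F i →+ Gr F j →+ Gr F (i + j) :=
  AddMonoidHom.mk' (fun a => AddMonoidHom.mk' (fun b => brFun F i j a b) (by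
    intro b b'
    induction a using gcl_ind with
    | h x hx =>
    induction b using gcl_ind with
    | h y hy =>
    induction b' using gcl_ind with
    | h y' hy' =>
    rw [← gcl_mul, brFun_gcl, brFun_gcl, brFun_gcl, gcl_comm_mul_right F hx hy hy'])) (by
    intro a a'
    apply AddMonoidHom.ext
    intro b
    show brFun F i j (a + a') b = brFun F i j a b + brFun F i j a' b
    induction a using gcl_ind with
    | h x hx =>
    induction a' using gcl_ind with
    | h x' hx' =>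
    induction b using gcl_ind with
    | h y hy =>
    rw [← gcl_mul, brFun_gcl, brFun_gcl, brFun_gcl, gcl_comm_mul_left F hx hx' hy])

theorem brc_gcl (i j : ℕ) {x y : S} (hx : x ∈ F.N i) (hy : y ∈ F.N j) :
    brc F i j (gcl F i x hx) (gcl F j y hy) = gcl F (i + j) ⁅x, y⁆ (F.comm i j x hx y hy) :=
  rfl

/-- the associated graded group -/
abbrev VV : Type := DirectSum ℕ (fun k => Gr F k)

/-- homogeneous element -/
def iot (k : ℕ) (x : S) (hx : x ∈ F.N k) : VV F :=
  DirectSum.of (fun k => Gr F k) k (gcl F k x hx)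

theorem iot_congr {k k' : ℕ} {x x' : S} (hx : x ∈ F.N k) (hk : k = k') (h : x = x') :
    iot F k x hx = iot F k' x' (by subst hk; subst h; exact hx) := by
  subst hk; subst h; rfl

theorem VV_ind {P : VV F → Prop} (h0 : P 0) (h1 : ∀ k x hx, P (iot F k x hx))
    (h2 : ∀ v w, P v → P w → P (v + w)) (v : VV F) : P v := by
  induction v using DirectSum.induction_on with
  | zero => exact h0
  | of k a =>
    induction a using gcl_ind with
    | h x hx => exact h1 k x hx
  | add v w hv hw => exact h2 v w hv hw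

/-- bracket with a homogeneous element on the left -/
def brV1 (i : ℕ) : Gr F i →+ (VV F →+ VV F) :=
  AddMonoidHom.mk' (fun a => DirectSum.toAddMonoid (fun j =>
    (DirectSum.of (fun k => Gr F k) (i + j)).comp (brc F i j a))) (by
    intro a b
    apply DirectSum.addHom_ext
    intro j y
    rw [AddMonoidHom.add_apply, DirectSum.toAddMonoid_of, DirectSum.toAddMonoid_of,
      DirectSum.toAddMonoid_of, AddMonoidHom.comp_apply, AddMonoidHom.comp_apply,
      AddMonoidHom.comp_apply, map_add, AddMonoidHom.add_apply, map_add])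

/-- bracket on the associated graded group -/
def brV : VV F →+ VV F →+ VV F := DirectSum.toAddMonoid (brV1 F)

theorem brV_iot (i j : ℕ) {x y : S} (hx : x ∈ F.N i) (hy : y ∈ F.N j) :
    brV F (iot F i x hx) (iot F j y hy) = iot F (i + j) ⁅x, y⁆ (F.comm i j x hx y hy) := by
  rw [brV, iot, DirectSum.toAddMonoid_of]
  show DirectSum.toAddMonoid _ (DirectSum.of (fun k => Gr F k) j (gcl F j y hy)) = _
  rw [DirectSum.toAddMonoid_of]
  rfl

theorem iot_mul {k : ℕ} {x y : S} (hx : x ∈ F.N k) (hy : y ∈ F.N k) :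
    iot F k (x * y) ((F.N k).mul_mem hx hy) = iot F k x hx + iot F k y hy := by
  rw [iot, gcl_mul, map_add]; rfl

theorem iot_inv {k : ℕ} {x : S} (hx : x ∈ F.N k) :
    iot F k x⁻¹ ((F.N k).inv_mem hx) = - iot F k x hx := by
  rw [iot, gcl_inv, map_neg]; rfl

theorem iot_one {k : ℕ} : iot F k 1 (F.N k).one_mem = 0 := by
  rw [iot, gcl_one, map_zero]

theorem brV_anti (v w : VV F) : brV F v w = - brV F w v := by
  induction v using VV_ind with
  | h0 => rw [map_zero, map_zero]; simp
  | h2 v v' h h' => rw [map_add, map_add, AddMonoidHom.add_apply, h, h', neg_add]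
  | h1 i x hx =>
    induction w using VV_ind with
    | h0 => rw [map_zero, map_zero]; simp
    | h2 w w' h h' => rw [map_add, map_add, AddMonoidHom.add_apply, h, h', neg_add]
    | h1 j y hy =>
      rw [brV_iot, brV_iot, ← iot_inv]
      apply iot_congr F _ (add_comm i j)
      rw [commutatorElement_inv]

theorem brV_conj_right (i j : ℕ) {x y : S} (hx : x ∈ F.N i) (hy : y ∈ F.N j) (g : S) :
    iot F j (g * y * g⁻¹) ((F.normal j).conj_mem y hy g) = iot F j y hy := by
  rw [iot, gcl_conj]; rfl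

theorem brV_cyc (u v w : VV F) :
    brV F (brV F u v) w + brV F (brV F v w) u + brV F (brV F w u) v = 0 := by
  induction u using VV_ind with
  | h0 => simp
  | h2 a b h h' =>
    simp only [map_add, AddMonoidHom.add_apply]
    have : ∀ a1 a2 a3 b1 b2 b3 : VV F, a1 + a2 + a3 = 0 → b1 + b2 + b3 = 0 →
        a1 + b1 + (a2 + b2) + (a3 + b3) = 0 := by
      intro a1 a2 a3 b1 b2 b3 ha hb
      calc a1 + b1 + (a2 + b2) + (a3 + b3) = (a1 + a2 + a3) + (b1 + b2 + b3) := by abel
        _ = 0 := by rw [ha, hb, add_zero]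
    exact this _ _ _ _ _ _ h h'
  | h1 i x hx =>
    induction v using VV_ind with
    | h0 => simp
    | h2 a b h h' =>
      simp only [map_add, AddMonoidHom.add_apply]
      have : ∀ a1 a2 a3 b1 b2 b3 : VV F, a1 + a2 + a3 = 0 → b1 + b2 + b3 = 0 →
          a1 + b1 + (a2 + b2) + (a3 + b3) = 0 := by
        intro a1 a2 a3 b1 b2 b3 ha hb
        calc a1 + b1 + (a2 + b2) + (a3 + b3) = (a1 + a2 + a3) + (b1 + b2 + b3) := by abel
          _ = 0 := by rw [ha, hb, add_zero]
      exact this _ _ _ _ _ _ h h'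
    | h1 j y hy =>
      induction w using VV_ind with
      | h0 => simp
      | h2 a b h h' =>
        simp only [map_add, AddMonoidHom.add_apply]
        have : ∀ a1 a2 a3 b1 b2 b3 : VV F, a1 + a2 + a3 = 0 → b1 + b2 + b3 = 0 →
            a1 + b1 + (a2 + b2) + (a3 + b3) = 0 := by
          intro a1 a2 a3 b1 b2 b3 ha hb
          calc a1 + b1 + (a2 + b2) + (a3 + b3) = (a1 + a2 + a3) + (b1 + b2 + b3) := by abel
            _ = 0 := by rw [ha, hb, add_zero]
        exact this _ _ _ _ _ _ h h'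
      | h1 k z hz =>
        have t1 : brV F (brV F (iot F i x hx) (iot F j y hy)) (iot F k z hz) =
            iot F (i + j + k) ⁅⁅x, y⁆, y * z * y⁻¹⁆ (F.comm (i + j) k _ (F.comm i j x hx y hy) _
              ((F.normal k).conj_mem z hz y)) := by
          rw [brV_iot, ← brV_conj_right F i k hx hz y, brV_iot]
        have t2 : brV F (brV F (iot F j y hy) (iot F k z hz)) (iot F i x hx) =
            iot F (j + k + i) ⁅⁅y, z⁆, z * x * z⁻¹⁆ (F.comm (j + k) i _ (F.comm j k y hy z hz) _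
              ((F.normal i).conj_mem x hx z)) := by
          rw [brV_iot, ← brV_conj_right F i i hx hx z, brV_iot]
        have t3 : brV F (brV F (iot F k z hz) (iot F i x hx)) (iot F j y hy) =
            iot F (k + i + j) ⁅⁅z, x⁆, x * y * x⁻¹⁆ (F.comm (k + i) j _ (F.comm k i z hz x hx) _
              ((F.normal j).conj_mem y hy x)) := by
          rw [brV_iot, ← brV_conj_right F i j hx hy x, brV_iot]
        rw [t1, t2, t3]
        rw [iot_congr F (F.comm (j + k) i _ (F.comm j k y hy z hz) _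
            ((F.normal i).conj_mem x hx z)) (show j + k + i = i + j + k by ring) rfl,
          iot_congr F (F.comm (k + i) j _ (F.comm k i z hz x hx) _
            ((F.normal j).conj_mem y hy x)) (show k + i + j = i + j + k by ring) rfl,
          ← iot_mul, ← iot_mul, ← iot_one F (k := i + j + k)]
        apply iot_congr F _ rfl
        simp only [commutatorElement_def]
        group

/-- the associated Lie ring -/
def lieV : LieBr (VV F) where
  br := brV F
  anti := brV_anti F
  jac := by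
    intro u v w
    have h := brV_cyc F u v w
    have h1 : brV F (brV F v w) u = - brV F u (brV F v w) := brV_anti F _ _
    have h2 : brV F (brV F w u) v = - brV F (brV F u w) v := by
      rw [brV_anti F w u, map_neg, AddMonoidHom.neg_apply]
    rw [h1, h2] at h
    rw [← sub_eq_zero, ← h]
    abel

end gr

end Pool.Agent.Lib.MP_29fe3f_al
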