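import Pool.Agent.Lib.MP_29fe3f_al.StepDown

/-!
The dead-step lemma, the chain of normal subgroups and the final bound.
-/

set_option autoImplicit false
set_option linter.all false

namespace Pool.Agent.Lib.MP_29fe3f_al

open Subgroup Representation

section dead

variable {G : Type} [Group G]

/-- the class of `z` times `K` -/
def tset (K : Subgroup G) (z : G) : Set G := {x | ∃ g : G, ∃ k ∈ K, x = g * z * g⁻¹ * k}

/-- centraliser order in the quotient -/
noncomputable def qc (K : Subgroup G) [K.Normal] (z : G) : ℕ :=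
  Nat.card (Subgroup.centralizer ({QuotientGroup.mk' K z} : Set (G ⧸ K)))

theorem tset_eq (K : Subgroup G) [hK : K.Normal] (z : G) :
    tset K z = (QuotientGroup.mk : G → G ⧸ K) ⁻¹' (cls (QuotientGroup.mk' K z)) := by
  ext x
  constructor
  · rintro ⟨g, k, hk, rfl⟩
    refine ⟨QuotientGroup.mk' K g, ?_⟩
    rw [← map_mul, ← map_inv, ← map_mul]
    apply QuotientGroup.eq.mpr
    simpa [mul_assoc] using hk
  · rintro ⟨q, hq⟩
    obtain ⟨g, rfl⟩ := QuotientGroup.mk'_surjective K q
    rw [← map_mul, ← map_inv, ← map_mul] at hq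
    have h1 := QuotientGroup.eq.mp hq
    exact ⟨g, _, h1, by group⟩

theorem cls_subset_tset (K : Subgroup G) (z : G) : cls z ⊆ tset K z := by
  rintro x ⟨g, rfl⟩
  exact ⟨g, 1, K.one_mem, by simp⟩

theorem tset_mono {K R : Subgroup G} (h : K ≤ R) (z : G) : tset K z ⊆ tset R z := by
  rintro x ⟨g, k, hk, rfl⟩
  exact ⟨g, k, h hk, rfl⟩

variable [Finite G]

theorem qc_mul (K : Subgroup G) [hK : K.Normal] (z : G) :
    qc K z * (tset K z).ncard = Nat.card G := by
  have h1 : (tset K z).ncard = Nat.card K * (cls (QuotientGroup.mk' K z)).ncard := by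
    rw [tset_eq, ← Nat.card_coe_set_eq, QuotientGroup.card_preimage_mk]
    rfl
  have h2 := ncard_cls_mul (QuotientGroup.mk' K z)
  have h3 := Subgroup.card_eq_card_quotient_mul_card_subgroup K
  rw [h1, h3, ← h2, qc]
  ring

theorem tset_ncard_pos (K : Subgroup G) (z : G) : 0 < (tset K z).ncard := by
  rw [Set.ncard_pos (Set.toFinite _)]
  exact ⟨z, 1, 1, K.one_mem, by simp⟩

theorem qc_le (K : Subgroup G) [hK : K.Normal] (z : G) :
    qc K z ≤ Nat.card (Subgroup.centralizer ({z} : Set G)) := by
  have h1 := qc_mul K z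
  have h2 := ncard_cls_mul z
  have h3 : (cls z).ncard ≤ (tset K z).ncard :=
    Set.ncard_le_ncard (cls_subset_tset K z) (Set.toFinite _)
  have h4 := tset_ncard_pos K z
  by_contra hcon
  push Not at hcon
  have h5 : Nat.card (Subgroup.centralizer ({z} : Set G)) * (tset K z).ncard <
      qc K z * (tset K z).ncard := Nat.mul_lt_mul_of_pos_right hcon h4
  have h6 : (cls z).ncard * Nat.card (Subgroup.centralizer ({z} : Set G)) ≤
      Nat.card (Subgroup.centralizer ({z} : Set G)) * (tset K z).ncard := by
    rw [mul_comm]; exact Nat.mul_le_mul_left _ h3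
  omega

theorem qc_anti {K R : Subgroup G} [hK : K.Normal] [hR : R.Normal] (h : K ≤ R) (z : G) :
    qc R z ≤ qc K z := by
  have h1 := qc_mul K z
  have h2 := qc_mul R z
  have h3 : (tset K z).ncard ≤ (tset R z).ncard :=
    Set.ncard_le_ncard (tset_mono h z) (Set.toFinite _)
  have h4 := tset_ncard_pos K z
  by_contra hcon
  push Not at hcon
  have h5 : qc K z * (tset K z).ncard < qc R z * (tset K z).ncard :=
    Nat.mul_lt_mul_of_pos_right hcon h4
  have h6 : qc R z * (tset K z).ncard ≤ qc R z * (tset R z).ncard := Nat.mul_le_mul_left _ h3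
  omega

theorem tset_eq_of_qc {K R : Subgroup G} [hK : K.Normal] [hR : R.Normal] (h : K ≤ R) (z : G)
    (he : qc R z = qc K z) : tset K z = tset R z := by
  have h1 := qc_mul K z
  have h2 := qc_mul R z
  apply Set.eq_of_subset_of_ncard_le (tset_mono h z) _ (Set.toFinite _)
  rw [he, ← h1] at h2
  have hpos : 0 < qc K z := Nat.card_pos
  exact (Nat.eq_of_mul_eq_mul_left hpos h2).le

theorem dead_step (m B h : ℕ) (hG : ZeroBound G m) (K : ℕ → Subgroup G)
    (hKn : ∀ i, (K i).Normal) (hlt : ∀ i < h, K i < K (i + 1)) (z : Fin (m + 1) → G)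
    (hz : ∀ i j, i ≠ j → ¬ IsConj (z i) (z j))
    (hB : ∀ i, Nat.card (Subgroup.centralizer ({z i} : Set G)) ≤ B) : h ≤ (m + 1) * B := by
  classical
  haveI := hKn
  by_contra hcon
  push Not at hcon
  let F : ℕ → ℕ := fun j => ∑ i : Fin (m + 1), qc (K j) (z i)
  have hF0 : F 0 ≤ (m + 1) * B := by
    calc F 0 ≤ ∑ i : Fin (m + 1), B :=
          Finset.sum_le_sum (fun i _ => le_trans (qc_le (K 0) (z i)) (hB i))
      _ = (m + 1) * B := by simp
  obtain ⟨j, hj, hjeq⟩ : ∃ j < h, ∀ i, qc (K (j + 1)) (z i) = qc (K j) (z i) := by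
    by_contra hno
    push Not at hno
    have hdec : ∀ j < h, F (j + 1) < F j := by
      intro j hj
      obtain ⟨i, hi⟩ := hno j hj
      apply Finset.sum_lt_sum
      · intro i _
        exact qc_anti (hlt j hj).le (z i)
      · exact ⟨i, Finset.mem_univ _, lt_of_le_of_ne (qc_anti (hlt j hj).le (z i)) hi⟩
    have hall : ∀ j ≤ h, F j + j ≤ F 0 := by
      intro j
      induction j with
      | zero => intro _; exact le_rfl
      | succ j ih =>
        intro hj
        have h1 := ih (by omega)
        have h2 := hdec j (by omega)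
        omega
    have := hall h le_rfl
    omega
  have hne : ∃ r ∈ K (j + 1), r ∉ K j := SetLike.exists_of_lt (hlt j hj)
  obtain ⟨W, _, _, _, ρ, hρ, hzero⟩ := exists_dead (K j) (K (j + 1)) (hlt j hj).le hne
  have h1 : ∀ i, ρ.character (z i) = 0 := by
    intro i
    apply hzero
    intro r hr
    have h2 : z i * r ∈ tset (K (j + 1)) (z i) := ⟨1, r, hr, by simp⟩
    rw [← tset_eq_of_qc (hlt j hj).le (z i) (hjeq i)] at h2
    exact h2
  have h2 := kcl_le_of_zero hG ρ hρ (Set.range z) (by rintro _ ⟨i, rfl⟩; exact h1 i)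
  have h3 := le_kcl_of_pairwise z hz (Set.range z) (fun i => ⟨i, rfl⟩)
  rw [Fintype.card_fin] at h3
  omega

end dead

section van

/-- some irreducible character vanishes on `X` -/
def Van (G : Type) [Group G] (X : Set G) : Prop :=
  ∃ (W : Type) (_ : AddCommGroup W) (_ : Module ℂ W) (_ : FiniteDimensional ℂ W)
    (ρ : Representation ℂ G W), IsIrreducible ρ ∧ ∀ x ∈ X, ρ.character x = 0

variable {G : Type} [Group G] [Finite G]

theorem Van.kcl_le {m : ℕ} (hG : ZeroBound G m) {X : Set G} (h : Van G X) : kcl X ≤ m := by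
  obtain ⟨W, _, _, _, ρ, hρ, hX⟩ := h
  exact kcl_le_of_zero hG ρ hρ X hX

omit [Finite G] in
theorem Van.inflate {H : Type} [Group H] (f : G →* H) (hf : Function.Surjective f) {X : Set H}
    (h : Van H X) : Van G (f ⁻¹' X) := by
  obtain ⟨W, i1, i2, i3, ρ, hρ, hX⟩ := h
  refine ⟨W, i1, i2, i3, ρ.comp f, ?_, fun x hx => hX (f x) hx⟩
  have hnt : Nontrivial (Subrepresentation ρ) := hρ.toNontrivial
  haveI : Nontrivial (Subrepresentation (ρ.comp f)) := by
    refine ⟨⊥, ⊤, ?_⟩
    intro he
    have h2 : (⊥ : Submodule ℂ W) = ⊤ := congrArg Subrepresentation.toSubmodule he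
    have h3 : (⊥ : Subrepresentation ρ) = ⊤ := Subrepresentation.toSubmodule_injective h2
    exact bot_ne_top h3
  refine IsSimpleOrder.mk (fun T => ?_)
  let T' : Subrepresentation ρ :=
    { toSubmodule := T.toSubmodule
      apply_mem_toSubmodule := by
        intro g v hv
        obtain ⟨g', rfl⟩ := hf g
        exact T.apply_mem_toSubmodule g' hv }
  rcases hρ.eq_bot_or_eq_top T' with h | h
  · left
    apply Subrepresentation.toSubmodule_injective
    have h5 : T.toSubmodule = (⊥ : Submodule ℂ W) :=
      congrArg (fun R : Subrepresentation ρ => R.toSubmodule) h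
    exact h5
  · right
    apply Subrepresentation.toSubmodule_injective
    have h5 : T.toSubmodule = (⊤ : Submodule ℂ W) :=
      congrArg (fun R : Subrepresentation ρ => R.toSubmodule) h
    exact h5

theorem van_of_max (N A : Subgroup G) [hNn : N.Normal] [hAn : A.Normal] (hNA : N ≤ A)
    (hab : ∀ a ∈ A, ∀ b ∈ A, a * b * a⁻¹ * b⁻¹ ∈ N) (hN : Group.IsNilpotent N)
    (hmax : ∀ M : Subgroup G, M.Normal → N ≤ M → Group.IsNilpotent M → M ≤ N) :
    ∃ S : Subgroup G, (∀ a ∈ A, a ∈ S → a ∈ N) ∧ N ≤ S ∧
      Van G {y | ∀ g : G, g * y * g⁻¹ ∉ S} := by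
  obtain ⟨lam, hlam⟩ := exists_generic N A hNA hab hN hmax
  obtain ⟨W, i1, i2, i3, ρ, hρ, w, hw0, hw⟩ := exists_over N lam
  exact ⟨charStab lam, hlam, le_charStab lam, W, i1, i2, i3, ρ, hρ, fun y hy =>
    char_eq_zero_of_not_fixed ρ hρ N lam w hw0 hw y hy⟩

theorem pinch_of_max {m : ℕ} (hG : ZeroBound G m) (N : Subgroup G) [hNn : N.Normal]
    (hN : Group.IsNilpotent N)
    (hmax : ∀ M : Subgroup G, M.Normal → N ≤ M → Group.IsNilpotent M → M ≤ N) :
    Pinch (G ⧸ N) m := by
  intro A hA hab
  have hsur := QuotientGroup.mk'_surjective N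
  have hNA : N ≤ A.comap (QuotientGroup.mk' N) := by
    intro x hx
    rw [Subgroup.mem_comap]
    have : QuotientGroup.mk' N x = 1 := (QuotientGroup.eq_one_iff x).mpr hx
    rw [this]; exact A.one_mem
  obtain ⟨S, hS1, hS2, hS3⟩ := van_of_max N (A.comap (QuotientGroup.mk' N)) hNA (by
    intro a ha b hb
    rw [← QuotientGroup.eq_one_iff]
    show QuotientGroup.mk' N (a * b * a⁻¹ * b⁻¹) = 1
    rw [map_mul, map_mul, map_mul, map_inv, map_inv, hab _ ha _ hb]
    group) hN hmax
  refine ⟨S.map (QuotientGroup.mk' N), ?_, ?_⟩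
  · rintro a ha ⟨s, hs, rfl⟩
    exact (QuotientGroup.eq_one_iff s).mpr (hS1 s ha hs)
  · refine le_trans (kcl_mono ?_) (le_trans (kcl_image_le (QuotientGroup.mk' N)
      {y | ∀ g : G, g * y * g⁻¹ ∉ S}) (hS3.kcl_le hG))
    intro y hy
    obtain ⟨x, rfl⟩ := hsur y
    refine ⟨x, fun g hg => ?_, rfl⟩
    apply hy (QuotientGroup.mk' N g)
    exact ⟨_, hg, by rw [map_mul, map_mul, map_inv]⟩

end van

section chain

/-- the index bounds -/
def gg (m : ℕ) : ℕ → ℕ
  | 0 => 1
  | h + 1 => Psi (gg m h) m * gg m h

theorem Psi_pos (b m : ℕ) (hb : 1 ≤ b) : 1 ≤ Psi b m := by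
  have h1 : 1 ≤ gam b m := by
    rw [gam]
    have : 1 ≤ ((1 + b) ^ m) ^ (2 * b + 1) := Nat.one_le_pow _ _ (Nat.pow_pos (by omega))
    have h2 : 1 ≤ 2 * b * (m + 1) := Nat.mul_pos (by omega) (by omega)
    exact Nat.mul_pos h2 this
  rw [Psi]
  exact Nat.mul_pos (Nat.pow_pos (by omega)) (Nat.pow_pos h1)

theorem gg_pos (m : ℕ) : ∀ h, 1 ≤ gg m h
  | 0 => le_rfl
  | h + 1 => by
    rw [gg]
    exact Nat.mul_pos (Psi_pos _ _ (gg_pos m h)) (gg_pos m h)

theorem gg_succ_le (m h : ℕ) : gg m h ≤ gg m (h + 1) := by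
  rw [gg]
  exact Nat.le_mul_of_pos_left _ (Psi_pos _ _ (gg_pos m h))

theorem gg_mono (m : ℕ) {i j : ℕ} (h : i ≤ j) : gg m i ≤ gg m j :=
  monotone_nat_of_le_succ (gg_succ_le m) h

structure ChainData (G : Type) [Group G] (m h : ℕ) (K : ℕ → Subgroup G) : Prop where
  normal : ∀ i, (K i).Normal
  bot : K 0 = ⊥
  top : K h = ⊤
  lt : ∀ i < h, K i < K (i + 1)
  nilp : Group.IsNilpotent (K 1)
  idx : ∀ i, 1 ≤ i → i ≤ h → (K i).index ≤ gg m (h - i)
  van : ∀ i, 1 ≤ i → i < h → ∃ A : Subgroup G, A.Normal ∧ K i < A ∧ A ≤ K (i + 1) ∧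
    Van G ((A : Set G) \ K i)

theorem exists_abelian_normal (G : Type) [Group G] [Nontrivial G] (hs : Group.IsSolvable G) :
    ∃ D : Subgroup G, D.Normal ∧ Group.IsNilpotent D ∧ D ≠ ⊥ := by
  classical
  obtain ⟨n, hn⟩ := hs.solvable
  have hex : ∃ n, derivedSeries G n = ⊥ := ⟨n, hn⟩
  have hmin := Nat.find_spec hex
  have hlt := fun m => Nat.find_min hex (m := m)
  generalize Nat.find hex = k at hmin hlt
  cases k with
  | zero =>
    exfalso
    rw [derivedSeries_zero] at hmin
    exact top_ne_bot hmin
  | succ k =>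
    refine ⟨derivedSeries G k, inferInstance, ?_, hlt k (Nat.lt_succ_self k)⟩
    rw [derivedSeries_succ] at hmin
    have hcomm : ∀ a ∈ derivedSeries G k, ∀ b ∈ derivedSeries G k, a * b = b * a := by
      intro a ha b hb
      have := Subgroup.commutator_mem_commutator ha hb
      rw [hmin, Subgroup.mem_bot] at this
      exact commutatorElement_eq_one_iff_mul_comm.mp this
    letI : CommGroup (derivedSeries G k) :=
      { (inferInstance : Group (derivedSeries G k)) with
        mul_comm := fun a b => Subtype.ext (hcomm a a.2 b b.2) }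
    exact CommGroup.isNilpotent

theorem exists_chain (m : ℕ) : ∀ (n : ℕ) (G : Type) [Group G] [Finite G], Nat.card G = n →
    Group.IsSolvable G → ZeroBound G m → ∃ (h : ℕ) (K : ℕ → Subgroup G), ChainData G m h K := by
  intro n
  induction n using Nat.strong_induction_on with
  | _ n ih =>
  intro G _ _ hn hs hG
  rcases subsingleton_or_nontrivial G with hsub | hnt
  · refine ⟨0, fun _ => ⊥, ?_⟩
    exact
      { normal := fun i => inferInstance
        bot := rfl
        top := Subsingleton.elim _ _
        lt := fun i hi => absurd hi (Nat.not_lt_zero _)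
        nilp := inferInstance
        idx := fun i h1 h2 => by omega
        van := fun i h1 h2 => by omega }
  · obtain ⟨D, hDn, hDnil, hDb⟩ := exists_abelian_normal G hs
    obtain ⟨N, ⟨hNn, hN, hDN⟩, hmax'⟩ : ∃ N : Subgroup G,
        (N.Normal ∧ Group.IsNilpotent N ∧ D ≤ N) ∧
        ∀ M : Subgroup G, (M.Normal ∧ Group.IsNilpotent M ∧ D ≤ M) → N ≤ M → M ≤ N := by
      obtain ⟨N, hN⟩ := (Set.toFinite {N : Subgroup G | N.Normal ∧ Group.IsNilpotent N ∧
        D ≤ N}).exists_maximal ⟨D, hDn, hDnil, le_rfl⟩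
      exact ⟨N, hN.1, fun M h1 h2 => hN.2 h1 h2⟩
    have hmax : ∀ M : Subgroup G, M.Normal → N ≤ M → Group.IsNilpotent M → M ≤ N :=
      fun M h1 h2 h3 => hmax' M ⟨h1, h3, le_trans hDN h2⟩ h2
    have hNb : N ≠ ⊥ := by
      intro h
      rw [h, le_bot_iff] at hDN
      exact hDb hDN
    have hcardlt : Nat.card (G ⧸ N) < n := by
      rw [← hn, Subgroup.card_eq_card_quotient_mul_card_subgroup N]
      exact lt_mul_of_one_lt_right Nat.card_pos ((Subgroup.one_lt_card_iff_ne_bot _).mpr hNb)
    haveI := hs
    obtain ⟨h, K', hK'⟩ := ih _ hcardlt (G ⧸ N) rfl inferInstance (zeroBound_quotient hG N)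
    have hsur := QuotientGroup.mk'_surjective N
    have hpinch := pinch_of_max hG N hN hmax
    -- order of the quotient
    have hQ : Nat.card (G ⧸ N) ≤ gg m h := by
      cases h with
      | zero =>
        have h1 : (⊥ : Subgroup (G ⧸ N)) = ⊤ := by rw [← hK'.bot, hK'.top]
        have h2 : Nat.card (G ⧸ N) = 1 := by
          rw [← Subgroup.card_top, ← h1, Subgroup.card_bot]
        rw [h2]; exact gg_pos m 0
      | succ h =>
        haveI := hK'.normal 1
        have h1 := hK'.idx 1 le_rfl (by omega)
        have h2 : h + 1 - 1 = h := by omega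
        rw [h2] at h1
        have h3 := stepdown (gg m h) m (gg_pos m h) hpinch (K' 1) hK'.nilp h1
        rw [← Subgroup.card_mul_index (K' 1), gg]
        exact Nat.mul_le_mul h3 h1
    let K : ℕ → Subgroup G := fun i =>
      match i with
      | 0 => ⊥
      | i + 1 => (K' i).comap (QuotientGroup.mk' N)
    have hK1 : K 1 = N := by
      show (K' 0).comap (QuotientGroup.mk' N) = N
      rw [hK'.bot, MonoidHom.comap_bot, QuotientGroup.ker_mk']
    refine ⟨h + 1, K, ?_⟩
    refine
      { normal := ?_
        bot := rfl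
        top := ?_
        lt := ?_
        nilp := ?_
        idx := ?_
        van := ?_ }
    · intro i
      cases i with
      | zero => show (⊥ : Subgroup G).Normal; infer_instance
      | succ i =>
        haveI := hK'.normal i
        show ((K' i).comap (QuotientGroup.mk' N)).Normal
        infer_instance
    · show (K' h).comap (QuotientGroup.mk' N) = ⊤
      rw [hK'.top, Subgroup.comap_top]
    · intro i hi
      cases i with
      | zero =>
        show ⊥ < K 1
        rw [hK1]; exact bot_lt_iff_ne_bot.mpr hNb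
      | succ i =>
        show (K' i).comap (QuotientGroup.mk' N) < (K' (i + 1)).comap (QuotientGroup.mk' N)
        exact (Subgroup.comap_lt_comap_of_surjective hsur).mpr (hK'.lt i (by omega))
    · rw [hK1]; exact hN
    · intro i h1 h2
      cases i with
      | zero => omega
      | succ i =>
        have h3 : h + 1 - (i + 1) = h - i := by omega
        rw [h3]
        show ((K' i).comap (QuotientGroup.mk' N)).index ≤ _
        rw [Subgroup.index_comap_of_surjective _ hsur]
        rcases Nat.eq_zero_or_pos i with h0 | h0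
        · subst h0
          rw [hK'.bot, Subgroup.index_bot]
          exact hQ
        · exact hK'.idx i h0 (by omega)
    · intro i h1 h2
      cases i with
      | zero => omega
      | succ i =>
        rcases Nat.eq_zero_or_pos i with h0 | h0
        · subst h0
          haveI := hK'.normal 1
          have hb : (⊥ : Subgroup (G ⧸ N)) ≠ K' 1 := by
            have := hK'.lt 0 (by omega)
            rw [hK'.bot] at this
            exact this.ne
          obtain ⟨a, ha, hab, hac⟩ := exists_central_rel (K' 1) ⊥ (K' 1) hK'.nilp bot_le le_rfl hb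
          set A' := relCenter (K' 1) ⊥ (K' 1) with hA'
          have haA' : a ∈ A' := ⟨ha, hac⟩
          have hle : K 1 ≤ A'.comap (QuotientGroup.mk' N) := by
            show (K' 0).comap (QuotientGroup.mk' N) ≤ A'.comap (QuotientGroup.mk' N)
            apply Subgroup.comap_mono
            rw [hK'.bot]; exact bot_le
          refine ⟨A'.comap (QuotientGroup.mk' N), inferInstance, ?_, ?_, ?_⟩
          · show (K' 0).comap (QuotientGroup.mk' N) < A'.comap (QuotientGroup.mk' N)
            rw [Subgroup.comap_lt_comap_of_surjective hsur, hK'.bot, bot_lt_iff_ne_bot]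
            intro h
            rw [h] at haA'
            exact hab haA'
          · show A'.comap (QuotientGroup.mk' N) ≤ (K' 1).comap (QuotientGroup.mk' N)
            exact Subgroup.comap_mono (fun x hx => hx.1)
          · show Van G ((A'.comap (QuotientGroup.mk' N) : Set G) \ (K 1 : Set G))
            rw [hK1]
            rw [hK1] at hle
            obtain ⟨S, hS1, hS2, W, i1, i2, i3, ρ, hρ, hS3⟩ :=
              van_of_max N (A'.comap (QuotientGroup.mk' N)) hle (by
                intro x hx y hy
                rw [← QuotientGroup.eq_one_iff]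
                exact Subgroup.mem_bot.mp (hx.2 _ hy.1)) hN hmax
            refine ⟨W, i1, i2, i3, ρ, hρ, ?_⟩
            rintro x ⟨hx, hxN⟩
            apply hS3
            intro g hg
            have hAn : (A'.comap (QuotientGroup.mk' N)).Normal := inferInstance
            have h5 := hS1 _ (hAn.conj_mem x hx g) hg
            apply hxN
            have h6 := hNn.conj_mem _ h5 g⁻¹
            simpa [mul_assoc] using h6
        · obtain ⟨A', hA'n, hA'1, hA'2, hA'3⟩ := hK'.van i h0 (by omega)
          refine ⟨A'.comap (QuotientGroup.mk' N), inferInstance, ?_, ?_, ?_⟩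
          · exact (Subgroup.comap_lt_comap_of_surjective hsur).mpr hA'1
          · exact Subgroup.comap_mono hA'2
          · exact hA'3.inflate (QuotientGroup.mk' N) hsur

/-- the final bound -/
noncomputable def finalBound (m : ℕ) : ℕ :=
  gg m (max (m + 1) ((m + 1) * lan m (gg m (m + 1))))

theorem main_bound (m : ℕ) (G : Type) [Group G] [Finite G] (hs : Group.IsSolvable G)
    (hG : ZeroBound G m) :
    ∃ N : Subgroup G, N.Normal ∧ Group.IsNilpotent N ∧ N.index ≤ finalBound m := by
  classical
  obtain ⟨h, K, hK⟩ := exists_chain m _ G rfl hs hG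
  haveI := hK.normal
  refine ⟨K 1, hK.normal 1, hK.nilp, ?_⟩
  have hmono : ∀ i j, i ≤ j → j ≤ h → K i ≤ K j := by
    intro i j hij
    induction j with
    | zero =>
      intro _
      have : i = 0 := by omega
      rw [this]
    | succ j ih =>
      intro hj
      rcases Nat.lt_or_ge i (j + 1) with h1 | h1
      · exact le_trans (ih (by omega) (by omega)) (hK.lt j (by omega)).le
      · have : i = j + 1 := by omega
        rw [this]
  rcases Nat.eq_zero_or_pos h with h0 | h0
  · -- trivial group
    subst h0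
    have h1 : (⊥ : Subgroup G) = ⊤ := by rw [← hK.bot, hK.top]
    have h2 : Nat.card G = 1 := by rw [← Subgroup.card_top, ← h1, Subgroup.card_bot]
    have h3 : (K 1).index ∣ Nat.card G := Subgroup.index_dvd_card _
    rw [h2] at h3
    have h4 : (K 1).index = 1 := Nat.dvd_one.mp h3
    rw [h4]
    exact gg_pos _ _
  · have hidx := hK.idx 1 le_rfl h0
    refine le_trans hidx (gg_mono m ?_)
    by_cases hh : h ≤ m + 1
    · exact le_trans (by omega) (le_max_left _ _)
    · refine le_trans ?_ (le_max_right _ _)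
      push Not at hh
      refine le_trans (Nat.sub_le h 1) ?_
      -- choose the elements
      have hex : ∀ j : Fin (m + 1), ∃ z : G, z ∈ K (h - 1 - j + 1) ∧ z ∉ K (h - 1 - j) ∧
          Nat.card (Subgroup.centralizer ({z} : Set G)) ≤ lan m (gg m (m + 1)) := by
        intro j
        have hj := j.2
        obtain ⟨A, hA1, hA2, hA3, hA4⟩ := hK.van (h - 1 - j) (by omega) (by omega)
        obtain ⟨z, hzA, hzK⟩ := SetLike.exists_of_lt hA2
        refine ⟨z, hA3 hzA, hzK, ?_⟩
        refine card_centralizer_le (K (h - 1 - j)) A hA2.le (hA4.kcl_le hG) ?_ z hzA hzK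
        refine le_trans (hK.idx (h - 1 - j) (by omega) (by omega)) (gg_mono m ?_)
        omega
      choose z hz1 hz2 hz3 using hex
      refine dead_step m _ h hG K hK.normal hK.lt z ?_ hz3
      -- non-conjugate
      have key : ∀ i j : Fin (m + 1), i < j → ¬ IsConj (z i) (z j) := by
        intro i j hij hc
        rw [isConj_comm, isConj_iff] at hc
        obtain ⟨c, hc⟩ := hc
        have hj := j.2
        have hij' : (i : ℕ) < j := hij
        have h1 : z j ∈ K (h - 1 - i) :=
          hmono _ _ (by omega) (by omega) (hz1 j)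
        apply hz2 i
        rw [← hc]
        exact (hK.normal _).conj_mem _ h1 c
      intro i j hij
      rcases lt_or_gt_of_ne hij with h1 | h1
      · exact key i j h1
      · intro hc
        exact key j i h1 (isConj_comm.mpr hc)

end chain

end Pool.Agent.Lib.MP_29fe3f_al
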