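import Pool.Agent.Lib.MP_29fe3f_al.Nilp

/-!
Existence of linear characters with small stabiliser.
-/

set_option autoImplicit false
set_option linter.all false

namespace Pool.Agent.Lib.MP_29fe3f_al

open Subgroup

section abstr

variable {G : Type} [Group G] {X : Type} [CommGroup X]

/-- a right action by endomorphisms, trivial on `N` -/
structure RAct (N : Subgroup G) (c : G → X →* X) : Prop where
  mul : ∀ g h χ, c (g * h) χ = c h (c g χ)
  one : ∀ χ, c 1 χ = χ
  triv : ∀ n ∈ N, ∀ χ, c n χ = χ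

variable {N A : Subgroup G} {c : G → X →* X}

theorem cj_comm (hc : RAct N c) (hab : ∀ a ∈ A, ∀ b ∈ A, a * b * a⁻¹ * b⁻¹ ∈ N)
    {g h : G} (hg : g ∈ A) (hh : h ∈ A) (χ : X) : c g (c h χ) = c h (c g χ) := by
  rw [← hc.mul, ← hc.mul]
  have : g * h = (g * h * g⁻¹ * h⁻¹) * (h * g) := by group
  rw [this, hc.mul (g * h * g⁻¹ * h⁻¹), hc.triv _ (hab g hg h hh)]

/-- the norm from `⟨a⟩` -/
def nrm (c : G → X →* X) (p : ℕ) (a : G) (χ : X) : X :=
  ∏ i ∈ Finset.range p, c (a ^ i) χ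

theorem nrm_mul (p : ℕ) (a : G) (χ ψ : X) :
    nrm c p a (χ * ψ) = nrm c p a χ * nrm c p a ψ := by
  simp [nrm, Finset.prod_mul_distrib]

theorem nrm_pow (p : ℕ) (a : G) (χ : X) (k : ℕ) :
    nrm c p a (χ ^ k) = nrm c p a χ ^ k := by
  simp [nrm, Finset.prod_pow]

theorem nrm_inv (p : ℕ) (a : G) (χ : X) :
    nrm c p a (χ⁻¹) = (nrm c p a χ)⁻¹ := by
  simp [nrm]

theorem cj_nrm_self (hc : RAct N c) (p : ℕ) (a : G) (ha : a ^ p ∈ N)
    (χ : X) : c a (nrm c p a χ) = nrm c p a χ := by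
  have h1 : c a (nrm c p a χ) = ∏ i ∈ Finset.range p, c (a ^ (i + 1)) χ := by
    rw [nrm, map_prod]
    refine Finset.prod_congr rfl (fun i _ => ?_)
    rw [← hc.mul, pow_succ]
  have h2 := Finset.prod_range_succ (fun i => c (a ^ i) χ) p
  have h3 := Finset.prod_range_succ' (fun i => c (a ^ i) χ) p
  rw [h2, hc.triv _ ha, pow_zero, hc.one, ← h1] at h3
  exact (mul_right_cancel h3).symm

theorem cj_pow_fixed (hc : RAct N c) (a : G) (χ : X) (h : c a χ = χ)
    (i : ℕ) : c (a ^ i) χ = χ := by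
  induction i with
  | zero => rw [pow_zero, hc.one]
  | succ i ih => rw [pow_succ, hc.mul, ih, h]

theorem nrm_fixed (hc : RAct N c) (p : ℕ) (a : G) (χ : X) (h : c a χ = χ) :
    nrm c p a χ = χ ^ p := by
  rw [nrm, Finset.prod_congr rfl (fun i _ => cj_pow_fixed hc a χ h i), Finset.prod_const,
    Finset.card_range]

theorem cj_nrm (hc : RAct N c) (hab : ∀ a ∈ A, ∀ b ∈ A, a * b * a⁻¹ * b⁻¹ ∈ N)
    (p : ℕ) {a g : G} (ha : a ∈ A) (hg : g ∈ A) (χ : X) :
    c g (nrm c p a χ) = nrm c p a (c g χ) := by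
  rw [nrm, map_prod, nrm]
  exact Finset.prod_congr rfl (fun i _ => cj_comm hc hab hg (A.pow_mem ha i) χ)

theorem eq_of_pow_coprime {x y : X} {p m : ℕ} (h : Nat.Coprime m p)
    (hp : x ^ p = y ^ p) (hm : x ^ m = y ^ m) : x = y := by
  have h1 : (x * y⁻¹) ^ m = 1 := by rw [mul_pow, inv_pow, hm, mul_inv_cancel]
  have h2 : (x * y⁻¹) ^ p = 1 := by rw [mul_pow, inv_pow, hp, mul_inv_cancel]
  have h3 := pow_gcd_eq_one.mpr ⟨h1, h2⟩
  rw [Nat.Coprime] at h
  rw [h, pow_one, mul_inv_eq_one] at h3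
  exact h3

theorem step_generic (hc : RAct N c)
    (hab : ∀ a ∈ A, ∀ b ∈ A, a * b * a⁻¹ * b⁻¹ ∈ N) (p m : ℕ) (hpm : Nat.Coprime m p)
    {a : G} (ha : a ∈ A) (hap : a ^ p ∈ N) (lam μ : X) (hlam : c a lam = lam)
    (hμ : μ ^ m = 1) (hμa : c a μ ≠ μ) :
    ∃ ν : X, (∀ g ∈ A, c g ν = ν → c g lam = lam) ∧ c a ν ≠ ν := by
  refine ⟨lam * (μ ^ p * (nrm c p a μ)⁻¹), ?_⟩
  set ν := μ ^ p * (nrm c p a μ)⁻¹ with hν
  have h1 : nrm c p a ν = 1 := by
    rw [hν, nrm_mul, nrm_pow, nrm_inv, nrm_fixed hc p a (nrm c p a μ) (cj_nrm_self hc p a hap μ),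
      mul_inv_cancel]
  have h2 : ν ^ m = 1 := by
    rw [hν, mul_pow, inv_pow, ← nrm_pow, hμ, ← pow_mul, mul_comm p m, pow_mul, hμ, one_pow,
      one_mul]
    have : nrm c p a (1 : X) = 1 := by simp [nrm]
    rw [this, inv_one]
  constructor
  · intro g hg hfix
    apply eq_of_pow_coprime hpm
    · have h3 : nrm c p a (lam * ν) = lam ^ p := by
        rw [nrm_mul, h1, mul_one, nrm_fixed hc p a lam hlam]
      have h4 := cj_nrm hc hab p ha hg (lam * ν)
      rw [hfix, h3, map_pow] at h4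
      exact h4
    · have h5 : (lam * ν) ^ m = lam ^ m := by rw [mul_pow, h2, mul_one]
      rw [← map_pow, ← h5, map_pow, hfix]
  · intro hcon
    apply hμa
    rw [map_mul, hlam] at hcon
    have h6 := mul_left_cancel hcon
    rw [hν, map_mul, map_inv, cj_nrm_self hc p a hap μ] at h6
    have h7 := mul_right_cancel h6
    rw [map_pow] at h7
    apply eq_of_pow_coprime hpm h7
    rw [← map_pow, hμ, map_one]

end abstr

section gen

variable {G : Type} [Group G]

/-- the group of linear characters -/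
def Chr (N : Subgroup G) : Type := N →* ℂˣ

instance (N : Subgroup G) : CommGroup (Chr N) := MonoidHom.instCommGroup

/-- conjugation of linear characters as an endomorphism of the character group -/
def cj {N : Subgroup G} [N.Normal] (g : G) : Chr N →* Chr N where
  toFun χ := conjChar χ g
  map_one' := MonoidHom.ext fun n => rfl
  map_mul' := fun χ ψ => MonoidHom.ext fun n => rfl

theorem cj_apply {N : Subgroup G} [N.Normal] (g : G) (χ : N →* ℂˣ) :
    cj g (χ : Chr N) = conjChar χ g := rfl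

theorem conjChar_one {N : Subgroup G} [N.Normal] (χ : N →* ℂˣ) : conjChar χ (1 : G) = χ := by
  ext n
  simp [conjChar_apply]

theorem ract_cj {N : Subgroup G} [N.Normal] : RAct N (cj (N := N)) where
  mul g h χ := conjChar_mul χ g h
  one χ := conjChar_one χ
  triv g hg χ := (mem_charStab' χ g).mp (le_charStab χ hg)

theorem pow_eq_one_of_pt {N : Subgroup G} (χ : N →* ℂˣ) (m : ℕ) (h : ∀ x, χ x ^ m = 1) :
    (χ : Chr N) ^ m = (1 : Chr N) := by
  apply MonoidHom.ext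
  intro x
  exact h x

theorem pt_of_pow_eq_one {N : Subgroup G} (χ : N →* ℂˣ) (m : ℕ) (h : (χ : Chr N) ^ m = (1 : Chr N)) :
    ∀ x, χ x ^ m = 1 := by
  intro x
  exact DFunLike.congr_fun (F := N →* ℂˣ) h x

variable [Finite G]

theorem exists_moved {N A : Subgroup G} [hNn : N.Normal] [hAn : A.Normal] (hNA : N ≤ A)
    (hab : ∀ a ∈ A, ∀ b ∈ A, a * b * a⁻¹ * b⁻¹ ∈ N) (hN : Group.IsNilpotent N)
    (hmax : ∀ M : Subgroup G, M.Normal → N ≤ M → Group.IsNilpotent M → M ≤ N)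
    (p : ℕ) [hpp : Fact p.Prime] {a : G} (ha : a ∈ A) (haN : a ∉ N) (hap : a ^ p ∈ N) :
    ∃ (μ : Chr N) (m : ℕ), Nat.Coprime m p ∧ μ ^ m = 1 ∧ cj a μ ≠ μ := by
  classical
  by_contra hcon
  push Not at hcon
  have hcomm : ∀ x ∈ A, ∀ y ∈ A, Commute (QuotientGroup.mk' N x) (QuotientGroup.mk' N y) := by
    intro x hx y hy
    show _ * _ = _ * _
    rw [← map_mul, ← map_mul]
    apply Eq.symm
    apply QuotientGroup.eq.mpr
    have := hNn.conj_mem _ (hab x hx y hy) (y * x)⁻¹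
    simpa [mul_assoc] using this
  have hc := ract_cj (N := N)
  let E : Subgroup G :=
    { carrier := {x | x ∈ A ∧ x ^ p ∈ N ∧
        ∀ (μ : Chr N) (m : ℕ), Nat.Coprime m p → μ ^ m = 1 → cj x μ = μ}
      mul_mem' := by
        rintro x y ⟨hx, hx', hx''⟩ ⟨hy, hy', hy''⟩
        refine ⟨A.mul_mem hx hy, ?_, ?_⟩
        · have e1 : QuotientGroup.mk' N (x ^ p) = 1 := (QuotientGroup.eq_one_iff _).mpr hx'
          have e2 : QuotientGroup.mk' N (y ^ p) = 1 := (QuotientGroup.eq_one_iff _).mpr hy'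
          have h1 : (QuotientGroup.mk' N (x * y)) ^ p = 1 := by
            rw [map_mul, (hcomm x hx y hy).mul_pow, ← map_pow, ← map_pow, e1, e2, one_mul]
          rw [← map_pow] at h1
          exact (QuotientGroup.eq_one_iff _).mp h1
        · intro μ m hm hμ
          rw [hc.mul, hx'' μ m hm hμ, hy'' μ m hm hμ]
      one_mem' := ⟨A.one_mem, by simp [N.one_mem], fun μ m _ _ => hc.one μ⟩
      inv_mem' := by
        rintro x ⟨hx, hx', hx''⟩
        refine ⟨A.inv_mem hx, by rw [inv_pow]; exact N.inv_mem hx', ?_⟩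
        intro μ m hm hμ
        have h1 := hx'' μ m hm hμ
        conv_lhs => rw [← h1]
        rw [← hc.mul, mul_inv_cancel, hc.one] }
  haveI hEn : E.Normal := by
    refine ⟨?_⟩
    rintro x ⟨hx, hx', hx''⟩ g
    refine ⟨hAn.conj_mem x hx g, by rw [conj_pow]; exact hNn.conj_mem _ hx' g, ?_⟩
    intro μ m hm hμ
    rw [hc.mul, hc.mul, hx'' (cj g μ) m hm (by rw [← map_pow, hμ, map_one]), ← hc.mul,
      mul_inv_cancel, hc.one]
  have hNE : N ≤ E := fun x hx => ⟨hNA hx, N.pow_mem hx p, fun μ m _ _ => hc.triv x hx μ⟩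
  have haE : a ∈ E := ⟨ha, hap, hcon⟩
  apply haN
  refine hmax E hEn hNE ?_ haE
  let e : N.subgroupOf E ≃* N := Subgroup.subgroupOfEquivOfLe hNE
  haveI : Group.IsNilpotent N := hN
  haveI : Group.IsNilpotent (N.subgroupOf E) := Group.nilpotent_of_mulEquiv e.symm
  refine nilp_crit (N.subgroupOf E) this p ?_ ?_
  · intro g
    exact Subgroup.mem_subgroupOf.mpr (by simpa using g.2.2.1)
  · intro χ m hm hχ g
    let χ' : N →* ℂˣ := χ.comp e.symm.toMonoidHom
    have hχ' : ∀ x, χ' x ^ m = 1 := fun x => hχ (e.symm x)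
    have h1 := g.2.2.2 χ' m hm (pow_eq_one_of_pt χ' m hχ')
    apply MonoidHom.ext
    intro x
    have h2 := DFunLike.congr_fun (F := N →* ℂˣ) h1 (e x)
    rw [cj_apply, conjChar_apply] at h2
    have h3 : MulAut.conjNormal (g : G) (e x) = e (MulAut.conjNormal g x) := by
      apply Subtype.ext
      simp [e, Subgroup.subgroupOfEquivOfLe]
    rw [h3] at h2
    have h4 : ∀ y, χ' (e y) = χ y := by
      intro y
      show χ (e.symm (e y)) = χ y
      rw [MulEquiv.symm_apply_apply]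
    rw [h4, h4] at h2
    rw [conjChar_apply, h2]

/-- **Generic linear characters.** -/
theorem exists_generic (N A : Subgroup G) [hNn : N.Normal] [hAn : A.Normal] (hNA : N ≤ A)
    (hab : ∀ a ∈ A, ∀ b ∈ A, a * b * a⁻¹ * b⁻¹ ∈ N) (hN : Group.IsNilpotent N)
    (hmax : ∀ M : Subgroup G, M.Normal → N ≤ M → Group.IsNilpotent M → M ≤ N) :
    ∃ lam : N →* ℂˣ, ∀ a ∈ A, a ∈ charStab lam → a ∈ N := by
  classical
  let f : (N →* ℂˣ) → ℕ := fun lam => ((charStab lam ⊓ A : Subgroup G) : Set G).ncard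
  obtain ⟨lam, hlam⟩ : ∃ lam, ∀ μ, f lam ≤ f μ := by
    have hne : (Set.range f).Nonempty := ⟨f 1, 1, rfl⟩
    obtain ⟨lam, hlam⟩ := Nat.sInf_mem hne
    exact ⟨lam, fun μ => by rw [hlam]; exact Nat.sInf_le ⟨μ, rfl⟩⟩
  refine ⟨lam, ?_⟩
  intro b hbA hbS
  by_contra hbN
  -- find an element of prime order modulo N
  obtain ⟨p, hp, k, hk1, hk2⟩ : ∃ p : ℕ, p.Prime ∧ ∃ k : ℕ, b ^ k ∉ N ∧ (b ^ k) ^ p ∈ N := by
    set n := orderOf (QuotientGroup.mk' N b) with hn
    have hb1 : QuotientGroup.mk' N b ≠ 1 := by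
      rw [Ne, QuotientGroup.mk'_apply, QuotientGroup.eq_one_iff]; exact hbN
    have hn1 : n ≠ 1 := by rw [hn, Ne, orderOf_eq_one_iff]; exact hb1
    have hn0 : 0 < n := orderOf_pos _
    have hpr := Nat.minFac_prime hn1
    obtain ⟨k, hk⟩ := Nat.minFac_dvd n
    refine ⟨n.minFac, hpr, k, ?_, ?_⟩
    · intro h
      rw [← QuotientGroup.eq_one_iff, QuotientGroup.mk_pow] at h
      have h1 : n ∣ k := orderOf_dvd_of_pow_eq_one h
      have h2 : 0 < k := by
        rcases Nat.eq_zero_or_pos k with h0 | h0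
        · rw [h0, mul_zero] at hk; omega
        · exact h0
      have h3 := Nat.le_of_dvd h2 h1
      have h4 := hpr.two_le
      nlinarith
    · rw [← pow_mul, mul_comm, ← hk, ← QuotientGroup.eq_one_iff, QuotientGroup.mk_pow]
      exact pow_orderOf_eq_one _
  haveI : Fact p.Prime := ⟨hp⟩
  set a := b ^ k with ha
  have haA : a ∈ A := A.pow_mem hbA k
  have haS : a ∈ charStab lam := (charStab lam).pow_mem hbS k
  obtain ⟨μ, m, hm, hμ, hμa⟩ := exists_moved hNA hab hN hmax p haA hk1 hk2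
  obtain ⟨ν, h1, h2⟩ := step_generic (ract_cj (N := N)) hab p m hm haA hk2 (lam : Chr N) μ
    ((mem_charStab' lam a).mp haS) hμ hμa
  have h3 := hlam ν
  refine absurd h3 (not_le_of_gt ?_)
  apply Set.ncard_lt_ncard _ (Set.toFinite _)
  refine ⟨?_, ?_⟩
  · rintro g ⟨hg1, hg2⟩
    exact ⟨(mem_charStab' _ _).mpr (h1 g hg2 ((mem_charStab' _ _).mp hg1)), hg2⟩
  · intro hsub
    have := hsub ⟨haS, haA⟩
    exact h2 ((mem_charStab' _ _).mp this.1)

end gen

end Pool.Agent.Lib.MP_29fe3f_al
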