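import Pool.Agent.Lib.MP_29fe3f_al.Count
import Pool.Agent.Lib.MP_29fe3f_al.Generic

/-!
Class sizes, counting unions of classes, Landau's bound for centralisers.
-/

set_option autoImplicit false
set_option linter.all false

namespace Pool.Agent.Lib.MP_29fe3f_al

open Subgroup

section cls

variable {G : Type} [Group G]

/-- the conjugacy class of `x` -/
def cls (x : G) : Set G := {y | ∃ g : G, g * x * g⁻¹ = y}

theorem cls_eq_carrier (x : G) : cls x = {y | ConjClasses.mk y = ConjClasses.mk x} := by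
  ext y
  simp only [cls, Set.mem_setOf_eq, ConjClasses.mk_eq_mk_iff_isConj]
  rw [isConj_comm, isConj_iff]

theorem ncard_cls (x : G) : (cls x).ncard = (Subgroup.centralizer ({x} : Set G)).index := by
  rw [Subgroup.index, ← Nat.card_coe_set_eq]
  symm
  let f : G ⧸ Subgroup.centralizer ({x} : Set G) → cls x := fun q =>
    Quotient.liftOn' q (fun g => (⟨g * x * g⁻¹, g, rfl⟩ : cls x)) (by
      intro a b hab
      rw [QuotientGroup.leftRel_apply, Subgroup.mem_centralizer_singleton_iff] at hab
      apply Subtype.ext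
      show a * x * a⁻¹ = b * x * b⁻¹
      have h1 : b * x = a * x * a⁻¹ * b := by
        calc b * x = a * ((a⁻¹ * b) * x) := by group
          _ = a * (x * (a⁻¹ * b)) := by rw [hab]
          _ = a * x * a⁻¹ * b := by group
      rw [h1]; group)
  apply Nat.card_eq_of_bijective f
  constructor
  · intro q r hqr
    induction q using QuotientGroup.induction_on with
    | H a =>
    induction r using QuotientGroup.induction_on with
    | H b =>
    have h1 : a * x * a⁻¹ = b * x * b⁻¹ := congrArg Subtype.val hqr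
    rw [QuotientGroup.eq, Subgroup.mem_centralizer_singleton_iff]
    calc a⁻¹ * b * x = a⁻¹ * (b * x * b⁻¹) * b := by group
      _ = a⁻¹ * (a * x * a⁻¹) * b := by rw [h1]
      _ = x * (a⁻¹ * b) := by group
  · rintro ⟨y, g, rfl⟩
    exact ⟨(g : G ⧸ _), rfl⟩

variable [Finite G]

theorem ncard_cls_mul (x : G) :
    (cls x).ncard * Nat.card (Subgroup.centralizer ({x} : Set G)) = Nat.card G := by
  rw [ncard_cls, mul_comm, Subgroup.card_mul_index]

theorem ncard_cls_pos (x : G) : 0 < (cls x).ncard := by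
  rw [Set.ncard_pos (Set.toFinite _)]
  exact ⟨x, 1, by simp⟩

/-- union of the conjugates of a set normalised by `L` -/
theorem ncard_conj_le (L : Subgroup G) (X : Set G) (hX : ∀ l ∈ L, ∀ x ∈ X, l * x * l⁻¹ ∈ X) :
    ({z | ∃ h : G, ∃ x ∈ X, h * x * h⁻¹ = z} : Set G).ncard ≤ L.index * X.ncard := by
  classical
  rw [Subgroup.index, ← Nat.card_coe_set_eq, ← Nat.card_coe_set_eq, ← Nat.card_prod]
  let f : (G ⧸ L) × X → ({z | ∃ h : G, ∃ x ∈ X, h * x * h⁻¹ = z} : Set G) := fun p =>
    ⟨p.1.out * p.2.1 * p.1.out⁻¹, p.1.out, p.2.1, p.2.2, rfl⟩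
  apply Nat.card_le_card_of_surjective f
  rintro ⟨z, h, x, hx, rfl⟩
  obtain ⟨l, hl⟩ := QuotientGroup.mk_out_eq_mul L h
  -- out = h * l
  refine ⟨((h : G ⧸ L), ⟨l⁻¹ * x * l, ?_⟩), ?_⟩
  · have := hX (l : G)⁻¹ (L.inv_mem l.2) x hx
    simpa using this
  · apply Subtype.ext
    show (h : G ⧸ L).out * ((l : G)⁻¹ * x * l) * ((h : G ⧸ L).out)⁻¹ = h * x * h⁻¹
    rw [hl]
    group

/-- class size bound -/
theorem ncard_cls_le (L K : Subgroup G) [hK : K.Normal] (x : G)
    (hx : ∀ l ∈ L, x⁻¹ * (l * x * l⁻¹) ∈ K) : (cls x).ncard ≤ L.index * Nat.card K := by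
  have h1 := ncard_conj_le L ((fun k => x * k) '' (K : Set G)) (by
    rintro l hl _ ⟨k, hk, rfl⟩
    refine ⟨x⁻¹ * (l * x * l⁻¹) * (l * k * l⁻¹), K.mul_mem (hx l hl) (hK.conj_mem k hk l), ?_⟩
    simp only
    group)
  rw [Set.ncard_image_of_injective _ (mul_right_injective x)] at h1
  refine le_trans (Set.ncard_le_ncard ?_ (Set.toFinite _)) (le_trans h1 (le_of_eq rfl))
  rintro y ⟨g, rfl⟩
  exact ⟨g, x, ⟨1, K.one_mem, by simp⟩, rfl⟩

/-- a union of `k` classes of size at most `s` -/
theorem ncard_le_kcl_mul (Y : Set G) (s : ℕ) (hs : ∀ y ∈ Y, (cls y).ncard ≤ s) :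
    Y.ncard ≤ s * kcl Y := by
  classical
  cases nonempty_fintype G
  rw [kcl, Set.ncard_eq_toFinset_card' Y, Set.ncard_eq_toFinset_card']
  have h : (ConjClasses.mk '' Y).toFinset = Y.toFinset.image ConjClasses.mk := by
    ext c; simp
  rw [h]
  apply Finset.card_le_mul_card_image
  intro c hc
  rw [Finset.mem_image] at hc
  obtain ⟨y, hy, rfl⟩ := hc
  rw [Set.mem_toFinset] at hy
  refine le_trans ?_ (hs y hy)
  rw [cls_eq_carrier, Set.ncard_eq_toFinset_card']
  apply Finset.card_le_card
  intro z hz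
  rw [Finset.mem_filter] at hz
  rw [Set.mem_toFinset]
  exact hz.2

/-- Landau for a normal section -/
theorem card_centralizer_le (N A : Subgroup G) [hN : N.Normal] [hA : A.Normal] (hNA : N ≤ A)
    {m n : ℕ} (hk : kcl ((A : Set G) \ N) ≤ m) (hn : N.index ≤ n) (x : G) (hxA : x ∈ A)
    (hxN : x ∉ N) : Nat.card (Subgroup.centralizer ({x} : Set G)) ≤ lan m n := by
  classical
  cases nonempty_fintype G
  haveI : Fintype (ConjClasses G) := Fintype.ofFinite _
  set X : Set G := (A : Set G) \ N with hX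
  have hXconj : ∀ y ∈ X, ∀ g : G, g * y * g⁻¹ ∈ X := by
    rintro y ⟨hyA, hyN⟩ g
    refine ⟨hA.conj_mem y hyA g, fun h => hyN ?_⟩
    have := hN.conj_mem _ h g⁻¹
    simpa [mul_assoc] using this
  let s : Finset (ConjClasses G) := (ConjClasses.mk '' X).toFinset
  have hscard : s.card = kcl X := by
    rw [kcl, Set.ncard_eq_toFinset_card']
  -- centraliser order as a function of the class
  let c : ConjClasses G → ℕ := fun q =>
    Nat.card (Subgroup.centralizer ({Quotient.out q} : Set G))
  have hcval : ∀ y : G, c (ConjClasses.mk y) * (cls y).ncard = Nat.card G := by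
    intro y
    have h1 : cls y = cls (Quotient.out (ConjClasses.mk y)) := by
      rw [cls_eq_carrier, cls_eq_carrier]
      have : ConjClasses.mk (Quotient.out (ConjClasses.mk y)) = ConjClasses.mk y :=
        Quotient.out_eq _
      rw [this]
    rw [h1, mul_comm]
    exact ncard_cls_mul _
  have hGpos : 0 < Nat.card G := Nat.card_pos
  have hcpos : ∀ q, 0 < c q := fun q => Nat.card_pos
  have hmem : ConjClasses.mk x ∈ s := by
    rw [Set.mem_toFinset]; exact ⟨x, ⟨hxA, hxN⟩, rfl⟩
  -- sum formula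
  have hsum1 : (X.ncard : ℚ) = ∑ q ∈ s, ((Nat.card G : ℚ) * (1 / (c q : ℚ))) := by
    rw [Set.ncard_eq_toFinset_card' X,
      Finset.card_eq_sum_card_fiberwise (f := ConjClasses.mk) (t := s)]
    · push_cast
      refine Finset.sum_congr rfl (fun q hq => ?_)
      rw [Set.mem_toFinset] at hq
      obtain ⟨y, hy, rfl⟩ := hq
      have h1 : (X.toFinset.filter (fun z => ConjClasses.mk z = ConjClasses.mk y)).card =
          (cls y).ncard := by
        rw [Set.ncard_eq_toFinset_card']
        congr 1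
        ext z
        rw [Finset.mem_filter, Set.mem_toFinset, Set.mem_toFinset, cls_eq_carrier]
        constructor
        · exact fun h => h.2
        · intro h
          refine ⟨?_, h⟩
          rw [← cls_eq_carrier] at h
          obtain ⟨g, rfl⟩ := h
          exact hXconj y hy g
      rw [h1, ← hcval y]
      have : (c (ConjClasses.mk y) : ℚ) ≠ 0 := by exact_mod_cast (hcpos _).ne'
      push_cast
      field_simp
    · intro z hz
      rw [Set.coe_toFinset]
      rw [Finset.mem_coe, Set.mem_toFinset] at hz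
      exact ⟨z, hz, rfl⟩
  have hXcard : X.ncard = Nat.card A - Nat.card N := by
    rw [hX, Set.ncard_diff hNA (Set.toFinite _)]
    rfl
  have hAc : Nat.card A = Nat.card N * (N.subgroupOf A).index := by
    rw [← Subgroup.card_mul_index (N.subgroupOf A)]
    congr 1
    exact Nat.card_congr (Subgroup.subgroupOfEquivOfLe hNA).toEquiv
  have hGc : Nat.card G = Nat.card N * N.index := (Subgroup.card_mul_index N).symm
  have hNpos : 0 < Nat.card N := Nat.card_pos
  have hidx : 0 < N.index := by
    rcases Nat.eq_zero_or_pos N.index with h | h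
    · rw [h, mul_zero] at hGc; omega
    · exact h
  have hrel : 0 < (N.subgroupOf A).index := by
    rcases Nat.eq_zero_or_pos (N.subgroupOf A).index with h | h
    · rw [h, mul_zero] at hAc
      have : 0 < Nat.card A := Nat.card_pos
      omega
    · exact h
  have hsum : ∑ q ∈ s, (1 / (c q : ℚ)) = (((N.subgroupOf A).index - 1 : ℕ) : ℚ) / N.index := by
    rw [← Finset.mul_sum] at hsum1
    have hG0 : (Nat.card G : ℚ) ≠ 0 := by exact_mod_cast hGpos.ne'
    have hN0 : (Nat.card N : ℚ) ≠ 0 := by exact_mod_cast hNpos.ne'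
    have hi0 : (N.index : ℚ) ≠ 0 := by exact_mod_cast hidx.ne'
    have h2 : (X.ncard : ℚ) = Nat.card N * (((N.subgroupOf A).index - 1 : ℕ) : ℚ) := by
      rw [hXcard, hAc, ← Nat.cast_mul, Nat.mul_sub, mul_one]
    rw [h2, hGc] at hsum1
    push_cast at hsum1
    rw [mul_assoc] at hsum1
    have h3 := mul_left_cancel₀ hN0 hsum1
    rw [eq_div_iff hi0, h3]
    ring
  have hl := landau s.card n s c (fun i _ => hcpos i) rfl
    ⟨(N.subgroupOf A).index - 1, N.index, hidx, hn, hsum⟩ _ hmem
  have hn1 : 1 ≤ n := le_trans hidx hn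
  have hfin : c (ConjClasses.mk x) ≤ lan m n :=
    le_trans hl (lan_mono_left hn1 (by rw [hscard]; exact hk))
  have h5 : c (ConjClasses.mk x) = Nat.card (Subgroup.centralizer ({x} : Set G)) := by
    have h6 := hcval x
    have h7 := ncard_cls_mul x
    rw [mul_comm] at h7
    exact Nat.eq_of_mul_eq_mul_right (ncard_cls_pos x) (h6.trans h7.symm)
  rw [← h5]
  exact hfin

end cls

end Pool.Agent.Lib.MP_29fe3f_al
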