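import Pool.Agent.Lib.MP_29fe3f_al.Rep

/-!
Counting conjugacy classes; Landau's lemma; centralisers.
-/

set_option autoImplicit false
set_option linter.all false

namespace Pool.Agent.Lib.MP_29fe3f_al

open Representation CategoryTheory

/-- number of conjugacy classes meeting `X` -/
noncomputable def kcl {G : Type} [Group G] (X : Set G) : ℕ := (ConjClasses.mk '' X).ncard

section basic

variable {G : Type} [Group G] [Finite G]

theorem kcl_mono {X Y : Set G} (h : X ⊆ Y) : kcl X ≤ kcl Y :=
  Set.ncard_le_ncard (Set.image_mono h) (Set.toFinite _)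

theorem kcl_le_of_zero {W : Type} [AddCommGroup W] [Module ℂ W]
    [FiniteDimensional ℂ W] {m : ℕ} (hG : ZeroBound G m) (ρ : Representation ℂ G W)
    (h : IsIrreducible ρ) (X : Set G) (hX : ∀ x ∈ X, ρ.character x = 0) : kcl X ≤ m := by
  refine le_trans ?_ (zeroBound_irreducible hG ρ h)
  rw [kcl]
  have : Nat.card {c : ConjClasses G // ∃ g : G, ConjClasses.mk g = c ∧ ρ.character g = 0} =
      ({c : ConjClasses G | ∃ g : G, ConjClasses.mk g = c ∧ ρ.character g = 0}).ncard := rfl
  rw [this]
  apply Set.ncard_le_ncard _ (Set.toFinite _)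
  rintro c ⟨x, hx, rfl⟩
  exact ⟨x, rfl, hX x hx⟩

theorem kcl_image_le {H : Type} [Group H] [Finite H] (f : G →* H) (X : Set G) :
    kcl (f '' X) ≤ kcl X := by
  rw [kcl, kcl]
  have : ConjClasses.mk '' (f '' X) = ConjClasses.map f '' (ConjClasses.mk '' X) := by
    rw [Set.image_image, Set.image_image]
    rfl
  rw [this]
  exact Set.ncard_image_le (Set.toFinite _)

/-- number of classes is at least the number of pairwise non-conjugate elements -/
theorem le_kcl_of_pairwise {ι : Type} [Fintype ι] (z : ι → G)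
    (hz : ∀ i j, i ≠ j → ¬ IsConj (z i) (z j)) (X : Set G) (hX : ∀ i, z i ∈ X) :
    Fintype.card ι ≤ kcl X := by
  classical
  have hinj : Function.Injective (fun i => ConjClasses.mk (z i)) := by
    intro i j hij
    by_contra hne
    exact hz i j hne (ConjClasses.mk_eq_mk_iff_isConj.mp hij)
  have h1 : (Set.range (fun i => ConjClasses.mk (z i))).ncard = Fintype.card ι := by
    rw [← Set.image_univ, Set.ncard_image_of_injective _ hinj, Set.ncard_univ,
      Nat.card_eq_fintype_card]
  rw [← h1, kcl]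
  apply Set.ncard_le_ncard _ (Set.toFinite _)
  rintro _ ⟨i, rfl⟩
  exact ⟨z i, hX i, rfl⟩

theorem zeroBound_quotient {n : ℕ} (h : ZeroBound G n) (K : Subgroup G) [K.Normal] :
    ZeroBound (G ⧸ K) n := by
  classical
  cases nonempty_fintype G
  haveI : Fintype (G ⧸ K) := Fintype.ofFinite _
  intro V hV
  haveI : NeZero (Nat.card G : ℂ) := ⟨by simp⟩
  haveI : NeZero (Nat.card (G ⧸ K) : ℂ) := ⟨by simp⟩
  let ρ : Representation ℂ G V := V.ρ.comp (QuotientGroup.mk' K)
  have hchar : ∀ g : G, (FDRep.of ρ).character g = V.character (QuotientGroup.mk' K g) :=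
    fun g => rfl
  have hsimple : CategoryTheory.Simple (FDRep.of ρ) := by
    rw [FDRep.simple_iff_char_is_norm_one]
    have h1 := (FDRep.simple_iff_char_is_norm_one V).mp hV
    have h2 : ∑ g : G, (FDRep.of ρ).character g * (FDRep.of ρ).character g⁻¹ =
        ∑ g : G, (fun q : G ⧸ K => V.character q * V.character q⁻¹) (QuotientGroup.mk' K g) := by
      refine Finset.sum_congr rfl (fun g _ => ?_)
      rw [hchar, hchar, map_inv]
    rw [h2, ← Finset.sum_fiberwise_of_maps_to (s := Finset.univ) (t := Finset.univ)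
      (g := fun g : G => (QuotientGroup.mk' K g)) (fun g _ => Finset.mem_univ _)]
    have h3 : ∀ q : G ⧸ K, ∑ g ∈ Finset.univ.filter (fun g : G => QuotientGroup.mk' K g = q),
        (fun q : G ⧸ K => V.character q * V.character q⁻¹) (QuotientGroup.mk' K g) =
        (Nat.card K : ℂ) * (V.character q * V.character q⁻¹) := by
      intro q
      rw [Finset.sum_congr rfl (g := fun _ => V.character q * V.character q⁻¹)]
      · rw [Finset.sum_const, nsmul_eq_mul]
        congr 2
        have h4 : Nat.card (QuotientGroup.mk ⁻¹' ({q} : Set (G ⧸ K)) : Set G) = Nat.card K := by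
          rw [QuotientGroup.card_preimage_mk]
          simp
        rw [← h4, Nat.card_eq_fintype_card, ← Set.toFinset_card]
        congr 1
        ext g
        rw [Finset.mem_filter, Set.mem_toFinset]
        simp
      · intro g hg
        rw [Finset.mem_filter] at hg
        simp only [hg.2]
    rw [Finset.sum_congr rfl (fun q _ => h3 q), ← Finset.mul_sum, h1, ← Nat.cast_mul]
    congr 1
    rw [mul_comm]
    exact (Subgroup.card_eq_card_quotient_mul_card_subgroup K).symm
  refine le_trans ?_ (h (FDRep.of ρ) hsimple)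
  -- surjection on zero classes
  let F : {c : ConjClasses G // ∃ g : G, ConjClasses.mk g = c ∧ (FDRep.of ρ).character g = 0} →
      {c : ConjClasses (G ⧸ K) // ∃ g : G ⧸ K, ConjClasses.mk g = c ∧ V.character g = 0} :=
    fun c => ⟨ConjClasses.map (QuotientGroup.mk' K) c.1, by
      obtain ⟨g, hg, hg0⟩ := c.2
      exact ⟨QuotientGroup.mk' K g, by rw [← hg]; rfl, hg0⟩⟩
  apply Nat.card_le_card_of_surjective F
  rintro ⟨c, q, rfl, hq⟩
  obtain ⟨g, rfl⟩ := QuotientGroup.mk'_surjective K q
  exact ⟨⟨ConjClasses.mk g, g, rfl, hq⟩, rfl⟩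

end basic

/-- Landau's bound. -/
def lan : ℕ → ℕ → ℕ
  | 0, _ => 0
  | m + 1, N => max (N * (m + 1)) (lan m (N * (N * (m + 1))))

theorem lan_mono_right (m : ℕ) : ∀ {N N' : ℕ}, N ≤ N' → lan m N ≤ lan m N' := by
  induction m with
  | zero => intro N N' _; exact le_refl _
  | succ m ih =>
    intro N N' h
    simp only [lan]
    apply max_le_max
    · exact Nat.mul_le_mul_right _ h
    · exact ih (Nat.mul_le_mul h (Nat.mul_le_mul_right _ h))

theorem lan_mono_left {N : ℕ} (hN : 1 ≤ N) {m m' : ℕ} (h : m ≤ m') : lan m N ≤ lan m' N := by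
  induction m generalizing N m' with
  | zero => exact Nat.zero_le _
  | succ m ih =>
    obtain ⟨k, rfl⟩ : ∃ k, m' = k + 1 := ⟨m' - 1, by omega⟩
    simp only [lan]
    have hmk : m ≤ k := by omega
    apply max_le_max
    · exact Nat.mul_le_mul_left _ (by omega)
    · refine le_trans (ih (Nat.mul_pos hN (Nat.mul_pos hN (Nat.succ_pos m))) hmk) ?_
      apply lan_mono_right
      exact Nat.mul_le_mul_left _ (Nat.mul_le_mul_left _ (by omega))

theorem landau {ι : Type} (m : ℕ) : ∀ (N : ℕ) (s : Finset ι) (c : ι → ℕ), (∀ i ∈ s, 0 < c i) →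
    s.card = m → (∃ a n : ℕ, 0 < n ∧ n ≤ N ∧ ∑ i ∈ s, (1 / (c i : ℚ)) = a / n) →
    ∀ i ∈ s, c i ≤ lan m N := by
  classical
  induction m with
  | zero =>
    intro N s c hc hs _ i hi
    rw [Finset.card_eq_zero] at hs
    subst hs
    simp at hi
  | succ m ih =>
    intro N s c hc hs ⟨a, n, hn, hnN, hsum⟩ i hi
    have hne : s.Nonempty := ⟨i, hi⟩
    obtain ⟨j, hj, hjmin⟩ := Finset.exists_min_image s c hne
    have hcj : 0 < c j := hc j hj
    -- the smallest one
    have hpos : (0 : ℚ) < ∑ i ∈ s, (1 / (c i : ℚ)) := by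
      apply Finset.sum_pos _ hne
      intro k hk
      have : (0 : ℚ) < c k := by exact_mod_cast hc k hk
      positivity
    have ha : 0 < a := by
      rcases Nat.eq_zero_or_pos a with h | h
      · rw [hsum, h] at hpos; simp at hpos
      · exact h
    have hle : ∑ i ∈ s, (1 / (c i : ℚ)) ≤ (m + 1) * (1 / (c j : ℚ)) := by
      have : ∑ i ∈ s, (1 / (c i : ℚ)) ≤ ∑ i ∈ s, (1 / (c j : ℚ)) := by
        apply Finset.sum_le_sum
        intro k hk
        apply one_div_le_one_div_of_le
        · exact_mod_cast hcj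
        · exact_mod_cast hjmin k hk
      rw [Finset.sum_const, hs, nsmul_eq_mul] at this
      push_cast at this
      exact this
    have hcjn : c j ≤ n * (m + 1) := by
      rw [hsum] at hle
      have h1 : (0 : ℚ) < n := by exact_mod_cast hn
      have h2 : (0 : ℚ) < c j := by exact_mod_cast hcj
      have h3 : (1 : ℚ) ≤ a := by exact_mod_cast ha
      have h4 : (1 : ℚ) / n ≤ a / n := by gcongr
      have h5 : (1 : ℚ) / n ≤ (m + 1) * (1 / (c j : ℚ)) := le_trans h4 hle
      rw [mul_one_div, div_le_div_iff₀ h1 h2] at h5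
      have h6 : (c j : ℚ) ≤ n * (m + 1) := by linarith
      exact_mod_cast h6
    have hcjN : c j ≤ N * (m + 1) := le_trans hcjn (Nat.mul_le_mul_right _ hnN)
    by_cases hij : i = j
    · subst hij
      exact le_trans hcjN (le_max_left _ _)
    · -- remove j
      refine le_trans ?_ (le_max_right _ _)
      have hi' : i ∈ s.erase j := Finset.mem_erase.mpr ⟨hij, hi⟩
      refine ih (N * (N * (m + 1))) (s.erase j) c (fun k hk => hc k (Finset.mem_of_mem_erase hk))
        (by rw [Finset.card_erase_of_mem hj, hs]; rfl) ?_ i hi'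
      have hsum' : ∑ i ∈ s.erase j, (1 / (c i : ℚ)) = a / n - 1 / (c j : ℚ) := by
        rw [← hsum, ← Finset.add_sum_erase s _ hj]; ring
      have hnn : (0 : ℚ) ≤ ∑ i ∈ s.erase j, (1 / (c i : ℚ)) := by
        apply Finset.sum_nonneg
        intro k hk
        positivity
      have h1 : (n : ℚ) ≠ 0 := by exact_mod_cast hn.ne'
      have h2 : (c j : ℚ) ≠ 0 := by exact_mod_cast hcj.ne'
      have hge : n ≤ a * c j := by
        rw [hsum'] at hnn
        have h3 : (1 : ℚ) / c j ≤ a / n := by linarith
        rw [div_le_div_iff₀ (by exact_mod_cast hcj) (by exact_mod_cast hn)] at h3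
        have h4 : (n : ℚ) ≤ a * c j := by linarith
        exact_mod_cast h4
      refine ⟨a * c j - n, n * c j, Nat.mul_pos hn hcj, Nat.mul_le_mul hnN hcjN, ?_⟩
      rw [hsum', Nat.cast_sub hge]
      push_cast
      field_simp

end Pool.Agent.Lib.MP_29fe3f_al
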