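import Pool.Agent.Lib.MP_29fe3f_al.NilpCase
import Pool.Agent.Lib.MP_29fe3f_al.AlmostReg

/-!
Final assembly: the derived length is bounded.
-/

set_option autoImplicit false
set_option linter.all false

namespace Pool.Agent.Lib.MP_29fe3f_al

open Subgroup
open scoped commutatorElement

section small

/-- a solvable group of order at most `b` has derived length at most `b` -/
theorem derived_of_card (b : ℕ) (H : Type) [Group H] [Finite H] (hs : Group.IsSolvable H)
    (hb : Nat.card H ≤ b) : derivedSeries H b = ⊥ := by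
  by_contra hcon
  have hne : ∀ i ≤ b, derivedSeries H i ≠ ⊥ := by
    intro i hi h0
    apply hcon
    rw [eq_bot_iff, ← h0]
    exact derivedSeries_antitone H hi
  have hcard : ∀ i ≤ b, Nat.card (derivedSeries H i) + i ≤ Nat.card H := by
    intro i
    induction i with
    | zero => intro _; rw [derivedSeries_zero, Subgroup.card_top]; omega
    | succ i ih =>
      intro hi
      have h1 := ih (by omega)
      have h2 : derivedSeries H (i + 1) < derivedSeries H i := by
        refine lt_of_le_of_ne (derivedSeries_antitone H (Nat.le_succ i)) ?_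
        intro h
        exact hne i (by omega) (derivedSeries_eq_bot_of_le hs i h.ge)
      have h3 : Nat.card (derivedSeries H (i + 1)) < Nat.card (derivedSeries H i) :=
        Set.ncard_lt_ncard h2 (Set.toFinite _)
      omega
  have h1 := hcard b (le_refl b)
  have h2 : 0 < Nat.card (derivedSeries H b) := Nat.card_pos
  omega

variable {G : Type} [Group G]

theorem derived_le_map (Q : Subgroup G) (b : ℕ) (h : derivedSeries G b ≤ Q) (j : ℕ) :
    derivedSeries G (b + j) ≤ (derivedSeries Q j).map Q.subtype := by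
  induction j with
  | zero =>
    rw [derivedSeries_zero, ← MonoidHom.range_eq_map, Subgroup.range_subtype]
    exact h
  | succ j ih =>
    calc derivedSeries G (b + (j + 1)) = ⁅derivedSeries G (b + j), derivedSeries G (b + j)⁆ := rfl
      _ ≤ ⁅(derivedSeries Q j).map Q.subtype, (derivedSeries Q j).map Q.subtype⁆ :=
        Subgroup.commutator_mono ih ih
      _ = (derivedSeries Q (j + 1)).map Q.subtype := by
        rw [← Subgroup.map_commutator]; rfl

theorem exists_comm_normal (G : Type) [Group G] [Nontrivial G] (hs : Group.IsSolvable G) :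
    ∃ D : Subgroup G, D.Normal ∧ (∀ a ∈ D, ∀ b ∈ D, a * b = b * a) ∧ D ≠ ⊥ := by
  classical
  obtain ⟨n, hn⟩ := hs.solvable
  have hex : ∃ n, derivedSeries G n = ⊥ := ⟨n, hn⟩
  have hmin := Nat.find_spec hex
  have hlt := fun m => Nat.find_min hex (m := m)
  generalize Nat.find hex = k at hmin hlt
  cases k with
  | zero =>
    exfalso
    rw [derivedSeries_zero] at hmin
    exact top_ne_bot hmin
  | succ k =>
    refine ⟨derivedSeries G k, inferInstance, ?_, hlt k (Nat.lt_succ_self k)⟩
    rw [derivedSeries_succ] at hmin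
    intro a ha b hb
    have := Subgroup.commutator_mem_commutator ha hb
    rw [hmin, Subgroup.mem_bot] at this
    exact commutatorElement_eq_one_iff_mul_comm.mp this

end small

section qcase

variable {G : Type} [Group G] [Finite G]

/-- if all normal `q'`-subgroups are trivial, a normal nilpotent subgroup is a `q`-group -/
theorem isPGroup_of_nilpotent (q : ℕ) (hq : ∀ M : Subgroup G, M.Normal →
    Nat.Coprime (Nat.card M) q → M = ⊥) (hqp : q.Prime) (M : Subgroup G) [hM : M.Normal]
    (hMn : Group.IsNilpotent M) : IsPGroup q M := by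
  have hc : Nat.card M ≠ 0 := Nat.card_pos.ne'
  have key : ∀ {d : ℕ}, Nat.Prime d → d ∣ Nat.card M → d = q := by
    intro d hd hdvd
    by_contra hne
    haveI : Fact d.Prime := ⟨hd⟩
    haveI := hMn
    let P : Sylow d M := default
    have hPn : (P : Subgroup M).Normal := inferInstance
    haveI hPc : (P : Subgroup M).Characteristic := P.characteristic_of_normal hPn
    have hPG : ((P : Subgroup M).map M.subtype).Normal := inferInstance
    have hPb : (P : Subgroup M) ≠ ⊥ := P.ne_bot_of_dvd_card hdvd
    apply hPb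
    have h1 : (P : Subgroup M).map M.subtype = ⊥ := by
      apply hq _ hPG
      obtain ⟨k, hk⟩ := IsPGroup.iff_card.mp P.isPGroup'
      have h2 : Nat.card ((P : Subgroup M).map M.subtype) = Nat.card P :=
        Nat.card_congr ((P : Subgroup M).equivMapOfInjective M.subtype
          M.subtype_injective).toEquiv.symm
      rw [h2, hk]
      exact Nat.Coprime.pow_left _ ((Nat.coprime_primes hd hqp).mpr hne)
    rwa [Subgroup.map_eq_bot_iff_of_injective _ M.subtype_injective] at h1
  have h1 := Nat.eq_prime_pow_of_unique_prime_dvd hc key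
  haveI : Fact q.Prime := ⟨hqp⟩
  exact IsPGroup.of_card h1

/-- the bound in the almost regular case -/
noncomputable def arB (m : ℕ) : ℕ :=
  ∑ r ∈ Finset.range (finalBound m + 1),
    (cc r (2 ^ (r - 1) - 1) + 1) * (lan m (finalBound m) + 1)

/-- the bound for the derived length -/
noncomputable def JJ (m : ℕ) : ℕ := nilpBound m + (finalBound m + arB m)

theorem q_case {m : ℕ} (q : ℕ) (hqp : q.Prime) (hs : Group.IsSolvable G) (hG : ZeroBound G m)
    (hq : ∀ M : Subgroup G, M.Normal → Nat.Coprime (Nat.card M) q → M = ⊥) :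
    derivedSeries G (JJ m) = ⊥ := by
  classical
  haveI : Fact q.Prime := ⟨hqp⟩
  haveI := hs
  obtain ⟨N', hN'n, hN', hidx'⟩ := main_bound m G hs hG
  obtain ⟨Q, ⟨hQn, hQnil, hN'Q⟩, hmax'⟩ : ∃ Q : Subgroup G,
      (Q.Normal ∧ Group.IsNilpotent Q ∧ N' ≤ Q) ∧
      ∀ M : Subgroup G, (M.Normal ∧ Group.IsNilpotent M ∧ N' ≤ M) → Q ≤ M → M ≤ Q := by
    obtain ⟨Q, hQ⟩ := (Set.toFinite {N : Subgroup G | N.Normal ∧ Group.IsNilpotent N ∧
      N' ≤ N}).exists_maximal ⟨N', hN'n, hN', le_refl _⟩
    exact ⟨Q, hQ.1, fun M h1 h2 => hQ.2 h1 h2⟩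
  have hmax : ∀ M : Subgroup G, M.Normal → Q ≤ M → Group.IsNilpotent M → M ≤ Q :=
    fun M h1 h2 h3 => hmax' M ⟨h1, h3, le_trans hN'Q h2⟩ h2
  set b := finalBound m with hb
  have hidx : Q.index ≤ b :=
    le_trans (Nat.le_of_dvd (Nat.pos_of_ne_zero Subgroup.index_ne_zero_of_finite)
      (Subgroup.index_dvd_of_le hN'Q)) hidx'
  have hQp : IsPGroup q Q := isPGroup_of_nilpotent q hq hqp Q hQnil
  by_cases hQtop : Q = ⊤
  · -- nilpotent case
    have hnil : Group.IsNilpotent G := by
      rw [hQtop] at hQnil
      exact Group.isNilpotent_top.mp hQnil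
    have h1 := nilp_class_le hnil hG
    rw [eq_bot_iff, ← h1]
    refine le_trans (derivedSeries_antitone G ?_) (Subgroup.derived_le_lower_central _)
    rw [JJ]; omega
  · haveI hnt : Nontrivial (G ⧸ Q) := by
      rw [← not_subsingleton_iff_nontrivial]
      intro h
      exact hQtop (Subgroup.index_eq_one.mp (Nat.card_eq_one_iff_unique.mpr ⟨h, ⟨1⟩⟩))
    obtain ⟨D, hDn, hDab, hDb⟩ := exists_comm_normal (G ⧸ Q) inferInstance
    have hsur := QuotientGroup.mk'_surjective Q
    set A := D.comap (QuotientGroup.mk' Q) with hA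
    have hQA : Q ≤ A := by
      intro x hx
      rw [hA, Subgroup.mem_comap]
      have : QuotientGroup.mk' Q x = 1 := (QuotientGroup.eq_one_iff x).mpr hx
      rw [this]; exact D.one_mem
    -- D is a q'-group
    have hDq : ¬ q ∣ Nat.card D := by
      intro hdvd
      letI : CommGroup D :=
        { (inferInstance : Group D) with
          mul_comm := fun a b => Subtype.ext (hDab a a.2 b b.2) }
      let P : Sylow q D := default
      have hPn : (P : Subgroup D).Normal := inferInstance
      haveI hPc : (P : Subgroup D).Characteristic := P.characteristic_of_normal hPn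
      have hPG : ((P : Subgroup D).map D.subtype).Normal := inferInstance
      have hPb : (P : Subgroup D) ≠ ⊥ := P.ne_bot_of_dvd_card hdvd
      apply hPb
      have hPp : IsPGroup q ((P : Subgroup D).map D.subtype) := P.isPGroup'.map _
      have hcp : IsPGroup q (((P : Subgroup D).map D.subtype).comap (QuotientGroup.mk' Q)) := by
        apply hPp.comap_of_ker_isPGroup
        rw [QuotientGroup.ker_mk']
        exact hQp
      have hle := hmax (((P : Subgroup D).map D.subtype).comap (QuotientGroup.mk' Q))
        inferInstance (by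
          intro x hx
          rw [Subgroup.mem_comap]
          have : QuotientGroup.mk' Q x = 1 := (QuotientGroup.eq_one_iff x).mpr hx
          rw [this]; exact Subgroup.one_mem _) hcp.isNilpotent
      have h1 : (P : Subgroup D).map D.subtype = ⊥ := by
        rw [eq_bot_iff]
        intro z hz
        obtain ⟨x, rfl⟩ := hsur z
        have := hle (show x ∈ _ from hz)
        exact Subgroup.mem_bot.mpr ((QuotientGroup.eq_one_iff x).mpr this)
      rwa [Subgroup.map_eq_bot_iff_of_injective _ D.subtype_injective] at h1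
    -- zeros outside Q
    obtain ⟨S, hS1, hS2, hS3⟩ := van_of_max Q A hQA (by
      intro a ha b' hb'
      rw [← QuotientGroup.eq_one_iff]
      show QuotientGroup.mk' Q (a * b' * a⁻¹ * b'⁻¹) = 1
      rw [map_mul, map_mul, map_mul, map_inv, map_inv, hDab _ ha _ hb']
      group) hQnil hmax
    have hAn : A.Normal := inferInstance
    have hk : kcl ((A : Set G) \ Q) ≤ m := by
      refine le_trans (kcl_mono ?_) (hS3.kcl_le hG)
      rintro x ⟨hx, hxQ⟩ g hg
      apply hxQ
      have h5 := hS1 _ (hAn.conj_mem x hx g) hg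
      have h6 := hQn.conj_mem _ h5 g⁻¹
      simpa [mul_assoc] using h6
    -- the element c
    obtain ⟨d, hdD, hd1⟩ : ∃ d ∈ D, d ≠ 1 := by
      by_contra hcon
      push Not at hcon
      exact hDb (eq_bot_iff.mpr (fun z hz => Subgroup.mem_bot.mpr (hcon z hz)))
    obtain ⟨x, rfl⟩ := hsur d
    set n := orderOf (QuotientGroup.mk' Q x) with hn
    have hn1 : n ≠ 1 := by rw [hn, Ne, orderOf_eq_one_iff]; exact hd1
    have hn0 : 0 < n := orderOf_pos _
    set r := n.minFac with hr
    have hrp : r.Prime := Nat.minFac_prime hn1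
    haveI : Fact r.Prime := ⟨hrp⟩
    obtain ⟨k, hk'⟩ := Nat.minFac_dvd n
    have hrn : r ∣ n := Nat.minFac_dvd n
    have hnD : n ∣ Nat.card D := by
      have := orderOf_dvd_natCard (⟨QuotientGroup.mk' Q x, hdD⟩ : D)
      rwa [Subgroup.orderOf_mk] at this
    have hrq : r ≠ q := by
      intro h
      apply hDq
      rw [← h]
      exact dvd_trans hrn hnD
    have hrb : r ≤ b := by
      have h1 : r ∣ Nat.card (G ⧸ Q) :=
        dvd_trans hrn (dvd_trans hnD (Subgroup.card_subgroup_dvd_card D))
      exact le_trans (Nat.le_of_dvd Nat.card_pos h1) hidx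
    -- u = x ^ k
    have hu1 : QuotientGroup.mk' Q (x ^ k) ≠ 1 := by
      intro h
      rw [map_pow] at h
      have h1 : n ∣ k := orderOf_dvd_of_pow_eq_one h
      have h2 : 0 < k := by
        rcases Nat.eq_zero_or_pos k with h0 | h0
        · rw [h0, mul_zero] at hk'; omega
        · exact h0
      have h3 := Nat.le_of_dvd h2 h1
      have h4 := hrp.two_le
      have h5 : n = r * k := hk'
      nlinarith
    have hu2 : (x ^ k) ^ r ∈ Q := by
      rw [← QuotientGroup.eq_one_iff]
      show QuotientGroup.mk' Q ((x ^ k) ^ r) = 1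
      rw [← pow_mul, map_pow, mul_comm, ← hk']
      exact pow_orderOf_eq_one _
    obtain ⟨e, he⟩ := hQp ⟨(x ^ k) ^ r, hu2⟩
    have he' : ((x ^ k) ^ r) ^ q ^ e = 1 := congrArg Subtype.val he
    set c := (x ^ k) ^ q ^ e with hc
    have hcr : c ^ r = 1 := by
      rw [hc, ← pow_mul, mul_comm, pow_mul]
      exact he'
    have hcQ : c ∉ Q := by
      intro h
      apply hu1
      have h1 : (QuotientGroup.mk' Q (x ^ k)) ^ (q ^ e) = 1 := by
        rw [← map_pow]; exact (QuotientGroup.eq_one_iff _).mpr h
      have h2 : (QuotientGroup.mk' Q (x ^ k)) ^ r = 1 := by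
        rw [← map_pow]; exact (QuotientGroup.eq_one_iff _).mpr hu2
      have h3 := pow_gcd_eq_one.mpr ⟨h1, h2⟩
      have h4 : Nat.gcd (q ^ e) r = 1 :=
        Nat.Coprime.pow_left _ ((Nat.coprime_primes hqp hrp).mpr (Ne.symm hrq))
      rwa [h4, pow_one] at h3
    have hcA : c ∈ A := by
      have hxA : x ∈ A := hdD
      exact A.pow_mem (A.pow_mem hxA k) _
    have hcent : Nat.card (Subgroup.centralizer ({c} : Set G)) ≤ lan m b :=
      card_centralizer_le Q A hQA hk hidx c hcA hcQ
    -- the automorphism
    let φ : MulAut Q := MulAut.conjNormal c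
    have hφ : φ ^ r = 1 := by
      show (MulAut.conjNormal c) ^ r = 1
      rw [← map_pow, hcr, map_one]
    obtain ⟨n', hn'⟩ := IsPGroup.iff_card.mp hQp
    have hcop : Nat.Coprime r (Nat.card Q) := by
      rw [hn']
      exact Nat.Coprime.pow_right _ ((Nat.coprime_primes hrp hqp).mpr hrq)
    have hfix : Nat.card {z : Q // φ z = z} ≤ 2 ^ (lan m b) := by
      refine le_trans ?_ (le_trans hcent (Nat.lt_two_pow_self).le)
      apply Nat.card_le_card_of_injective (fun z : {z : Q // φ z = z} =>
        (⟨(z.1 : G), ?_⟩ : Subgroup.centralizer ({c} : Set G)))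
      · intro z w h
        have := congrArg (fun y : Subgroup.centralizer ({c} : Set G) => (y : G)) h
        exact Subtype.ext (Subtype.ext this)
      · rw [Subgroup.mem_centralizer_singleton_iff]
        have h1 : c * (z.1 : G) * c⁻¹ = z.1 := by
          have := congrArg (fun y : Q => (y : G)) z.2
          simpa [φ] using this
        calc (z.1 : G) * c = (c * (z.1 : G) * c⁻¹) * c := by rw [h1]
          _ = c * z.1 := by group
    have hder := almost_regular r (lan m b) Q hQnil φ hφ hcop hfix
    -- derived length of the quotient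
    have hq1 : derivedSeries (G ⧸ Q) b = ⊥ := derived_of_card b (G ⧸ Q) inferInstance hidx
    have hq2 : derivedSeries G b ≤ Q := by
      have h1 := map_derivedSeries_eq hsur b
      rw [hq1, Subgroup.map_eq_bot_iff, QuotientGroup.ker_mk'] at h1
      exact h1
    have hle := derived_le_map Q b hq2 ((cc r (2 ^ (r - 1) - 1) + 1) * (lan m b + 1))
    rw [hder, Subgroup.map_bot] at hle
    rw [eq_bot_iff]
    refine le_trans (derivedSeries_antitone G ?_) hle
    have harB : (cc r (2 ^ (r - 1) - 1) + 1) * (lan m b + 1) ≤ arB m := by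
      rw [arB, ← hb]
      exact Finset.single_le_sum (f := fun r =>
        (cc r (2 ^ (r - 1) - 1) + 1) * (lan m b + 1)) (fun _ _ => Nat.zero_le _)
        (Finset.mem_range.mpr (Nat.lt_succ_of_le hrb))
    rw [JJ, ← hb]
    omega

/-- **The derived length is bounded.** -/
theorem derived_bound (m : ℕ) (hs : Group.IsSolvable G) (hG : ZeroBound G m) :
    derivedSeries G (JJ m) = ⊥ := by
  classical
  haveI := hs
  rw [eq_bot_iff]
  intro x hx
  rw [Subgroup.mem_bot]
  by_contra hx1
  have ho : orderOf x ≠ 1 := by rw [Ne, orderOf_eq_one_iff]; exact hx1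
  set q := (orderOf x).minFac with hq
  have hqp : q.Prime := Nat.minFac_prime ho
  have hqd : q ∣ orderOf x := Nat.minFac_dvd _
  obtain ⟨O, hO⟩ := (Set.toFinite {M : Subgroup G | M.Normal ∧
    Nat.Coprime (Nat.card M) q}).exists_maximal ⟨⊥, inferInstance, by
      rw [Subgroup.card_bot]; exact Nat.coprime_one_left q⟩
  obtain ⟨⟨hOn, hOc⟩, hmax⟩ := hO
  have hcase := q_case (G := G ⧸ O) (m := m) q hqp inferInstance (zeroBound_quotient hG O) (by
    intro M hM hMc
    have hsur := QuotientGroup.mk'_surjective O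
    have h1 : Nat.card (M.comap (QuotientGroup.mk' O)) = Nat.card O * Nat.card M :=
      QuotientGroup.card_preimage_mk O (M : Set (G ⧸ O))
    have h2 : O ≤ M.comap (QuotientGroup.mk' O) := by
      intro z hz
      rw [Subgroup.mem_comap]
      have : QuotientGroup.mk' O z = 1 := (QuotientGroup.eq_one_iff z).mpr hz
      rw [this]; exact M.one_mem
    have h3 := hmax ⟨(inferInstance : (M.comap (QuotientGroup.mk' O)).Normal), by
      rw [h1]; exact Nat.Coprime.mul_left hOc hMc⟩ h2
    rw [eq_bot_iff]
    intro z hz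
    obtain ⟨y, rfl⟩ := hsur z
    exact Subgroup.mem_bot.mpr ((QuotientGroup.eq_one_iff y).mpr (h3 hz)))
  have h1 := map_derivedSeries_eq (QuotientGroup.mk'_surjective O) (JJ m)
  rw [hcase, Subgroup.map_eq_bot_iff, QuotientGroup.ker_mk'] at h1
  have h2 : x ∈ O := h1 hx
  have h3 : orderOf x ∣ Nat.card O := by
    have := orderOf_dvd_natCard (⟨x, h2⟩ : O)
    rwa [Subgroup.orderOf_mk] at this
  have h4 : q ∣ Nat.card O := dvd_trans hqd h3
  have h5 : q ∣ 1 := by
    rw [← hOc]
    exact Nat.dvd_gcd h4 (dvd_refl q)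
  exact hqp.one_lt.ne' (Nat.dvd_one.mp h5)

end qcase

/-- **The full statement.** -/
theorem full_answer :
    ∃ f : ℕ → ℕ, ∀ (G : Type) [Group G] [Fintype G], Group.IsSolvable G → ∀ n : ℕ,
      (∀ V : FDRep ℂ G, CategoryTheory.Simple V →
        Nat.card {c : ConjClasses G // ∃ g : G, ConjClasses.mk g = c ∧ V.character g = 0} ≤ n) →
      derivedSeries G (f n) = ⊥ ∧
      ∃ N : Subgroup G, N.Normal ∧ Group.IsNilpotent N ∧ N.index ≤ f n := by
  refine ⟨fun m => max (finalBound m) (JJ m), ?_⟩
  intro G _ _ hs n h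
  refine ⟨?_, ?_⟩
  · have h1 := derived_bound (G := G) n hs h
    rw [eq_bot_iff, ← h1]
    exact derivedSeries_antitone G (le_max_right _ _)
  · obtain ⟨N, h1, h2, h3⟩ := main_bound n G hs h
    exact ⟨N, h1, h2, le_trans h3 (le_max_left _ _)⟩

end Pool.Agent.Lib.MP_29fe3f_al
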