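import Pool.Agent.Lib.MP_29fe3f_al.Assoc

/-!
Higman's theorem for finite nilpotent groups with a fixed-point-free automorphism of prime order.
-/

set_option autoImplicit false
set_option linter.all false

namespace Pool.Agent.Lib.MP_29fe3f_al

open scoped commutatorElement

section filt

variable {S : Type} [Group S]

theorem three_le (H1 H2 H3 N : Subgroup S) [N.Normal] (h1 : ⁅⁅H2, H3⁆, H1⁆ ≤ N)
    (h2 : ⁅⁅H3, H1⁆, H2⁆ ≤ N) : ⁅⁅H1, H2⁆, H3⁆ ≤ N := by
  have key : ∀ K : Subgroup S, K ≤ N ↔ K.map (QuotientGroup.mk' N) = ⊥ := by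
    intro K
    rw [Subgroup.map_eq_bot_iff, QuotientGroup.ker_mk']
  rw [key] at h1 h2 ⊢
  simp only [Subgroup.map_commutator] at *
  exact Subgroup.commutator_commutator_eq_bot_of_rotate h1 h2

theorem lcs_comm (j : ℕ) : ∀ i : ℕ, ⁅(⊤ : Subgroup S).lowerCentralSeries i,
    (⊤ : Subgroup S).lowerCentralSeries j⁆ ≤ (⊤ : Subgroup S).lowerCentralSeries (i + j + 1) := by
  induction j with
  | zero => intro i; exact le_refl _
  | succ j ih =>
    intro i
    rw [Subgroup.commutator_comm, Subgroup.lowerCentralSeries_succ]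
    apply three_le
    · rw [Subgroup.commutator_comm ⊤, ← Subgroup.lowerCentralSeries_succ]
      have := ih (i + 1)
      have e : i + 1 + j + 1 = i + (j + 1) + 1 := by omega
      rwa [e] at this
    · have := Subgroup.commutator_mono (ih i) (le_refl (⊤ : Subgroup S))
      rw [← Subgroup.lowerCentralSeries_succ] at this
      exact this

/-- the lower central filtration -/
def lcsN (S : Type) [Group S] : ℕ → Subgroup S
  | 0 => ⊤
  | k + 1 => (⊤ : Subgroup S).lowerCentralSeries k

/-- the lower central filtration as a central filtration -/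
def lcsF (S : Type) [Group S] : Filt S where
  N := lcsN S
  normal := by
    intro k
    cases k with
    | zero => show (⊤ : Subgroup S).Normal; infer_instance
    | succ k => show ((⊤ : Subgroup S).lowerCentralSeries k).Normal; infer_instance
  le := by
    intro k
    cases k with
    | zero => exact le_top
    | succ k => exact Subgroup.lowerCentralSeries_antitone _ (Nat.le_succ k)
  cent := by
    intro k x hx g
    cases k with
    | zero => exact Subgroup.mem_top _
    | succ k =>
      show ⁅x, g⁆ ∈ (⊤ : Subgroup S).lowerCentralSeries (k + 1)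
      rw [Subgroup.lowerCentralSeries_succ]
      exact Subgroup.commutator_mem_commutator hx (Subgroup.mem_top g)
  comm := by
    intro i j x hx y hy
    cases i with
    | zero =>
      rw [Nat.zero_add]
      have h : ((⊤ : Subgroup S)).Normal := inferInstance
      cases j with
      | zero => exact Subgroup.mem_top _
      | succ j =>
        have h1 : ((⊤ : Subgroup S).lowerCentralSeries j).Normal := inferInstance
        show ⁅x, y⁆ ∈ (⊤ : Subgroup S).lowerCentralSeries j
        rw [commutatorElement_def]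
        exact Subgroup.mul_mem _ (h1.conj_mem y hy x) (Subgroup.inv_mem _ hy)
    | succ i =>
      cases j with
      | zero =>
        have h1 : ((⊤ : Subgroup S).lowerCentralSeries i).Normal := inferInstance
        show ⁅x, y⁆ ∈ (⊤ : Subgroup S).lowerCentralSeries i
        rw [commutatorElement_def, mul_assoc, mul_assoc, ← mul_assoc y]
        exact Subgroup.mul_mem _ hx (h1.conj_mem _ (Subgroup.inv_mem _ hx) y)
      | succ j =>
        have h1 := lcs_comm (S := S) j i (Subgroup.commutator_mem_commutator hx hy)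
        have e : i + 1 + (j + 1) = (i + j + 1) + 1 := by omega
        rw [e]
        exact h1

end filt

section fixedpts

variable {S : Type} [Group S] [Finite S]

/-- lifting fixed points in a coprime situation -/
theorem coprime_fix (r : ℕ) [hr : Fact r.Prime] (φ : MulAut S) (hφ : φ ^ r = 1) (K : Subgroup S)
    (hK : ∀ x ∈ K, φ x ∈ K) (hcop : Nat.Coprime r (Nat.card K)) (x : S)
    (hx : x⁻¹ * φ x ∈ K) : ∃ y, x⁻¹ * y ∈ K ∧ φ y = y := by
  classical
  let α := {y : S // x⁻¹ * y ∈ K}
  haveI : Fintype α := Fintype.ofFinite _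
  have hstep : ∀ y : S, x⁻¹ * y ∈ K → x⁻¹ * φ y ∈ K := by
    intro y hy
    have h1 := K.mul_mem hx (hK _ hy)
    rw [map_mul, map_inv] at h1
    simpa [mul_assoc] using h1
  let f : Function.End α := fun y => ⟨φ y.1, hstep y.1 y.2⟩
  have hf : ∀ n : ℕ, ∀ y : α, ((f ^ n) y).1 = (φ ^ n) y.1 := by
    intro n
    induction n with
    | zero => intro y; rfl
    | succ n ih =>
      intro y
      rw [pow_succ', pow_succ']
      show (f ((f ^ n) y)).1 = φ ((φ ^ n) y.1)
      rw [← ih]
  have hf1 : f ^ r ^ 1 = 1 := by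
    rw [pow_one]
    funext y
    apply Subtype.ext
    rw [hf, hφ]
    rfl
  have hcard : Fintype.card α = Nat.card K := by
    rw [← Nat.card_eq_fintype_card]
    refine Nat.card_congr ⟨fun y => ⟨x⁻¹ * y.1, y.2⟩, fun k => ⟨x * k.1, by simp⟩, ?_, ?_⟩
    · intro y; apply Subtype.ext; simp
    · intro k; apply Subtype.ext; simp
  have hmod := Equiv.Perm.card_fixedPoints_modEq (α := α) (f := f) (p := r) (n := 1) hf1
  by_contra hcon
  push Not at hcon
  have hempty : IsEmpty f.fixedPoints := by
    refine ⟨?_⟩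
    rintro ⟨y, hy⟩
    exact hcon y.1 y.2 (congrArg Subtype.val hy)
  have h0 : Fintype.card f.fixedPoints = 0 := Fintype.card_eq_zero
  rw [hcard] at hmod
  have h1 : r ∣ Nat.card K := by
    apply (Nat.modEq_zero_iff_dvd).mp
    exact hmod.trans (by rw [h0])
  rw [Nat.Prime.coprime_iff_not_dvd hr.out] at hcop
  exact hcop h1

end fixedpts

section aut

variable {S : Type} [Group S] (F : Filt S) (φ : MulAut S) (hφN : ∀ k, ∀ x ∈ F.N k, φ x ∈ F.N k)

/-- induced map on a graded component -/
def grMap (k : ℕ) : Gr F k →+ Gr F k :=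
  MonoidHom.toAdditive (QuotientGroup.map ((F.N (k + 1)).subgroupOf (F.N k))
    ((F.N (k + 1)).subgroupOf (F.N k))
    ((φ.toMonoidHom.comp (F.N k).subtype).codRestrict (F.N k) (fun x => hφN k x x.2)) (by
      intro x hx
      rw [Subgroup.mem_comap, Subgroup.mem_subgroupOf]
      exact hφN (k + 1) x (Subgroup.mem_subgroupOf.mp hx)))

theorem grMap_gcl (k : ℕ) {x : S} (hx : x ∈ F.N k) :
    grMap F φ hφN k (gcl F k x hx) = gcl F k (φ x) (hφN k x hx) := rfl

/-- induced map on the graded group -/
def phiV : VV F →+ VV F := DirectSum.map (grMap F φ hφN)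

theorem phiV_iot (k : ℕ) {x : S} (hx : x ∈ F.N k) :
    phiV F φ hφN (iot F k x hx) = iot F k (φ x) (hφN k x hx) := by
  rw [phiV, iot, DirectSum.map_of, grMap_gcl]; rfl

theorem phiV_br (v w : VV F) :
    phiV F φ hφN (brV F v w) = brV F (phiV F φ hφN v) (phiV F φ hφN w) := by
  induction v using VV_ind with
  | h0 => simp
  | h2 a b h h' => simp only [map_add, AddMonoidHom.add_apply, h, h']
  | h1 i x hx =>
    induction w using VV_ind with
    | h0 => simp
    | h2 a b h h' => simp only [map_add, AddMonoidHom.add_apply, h, h']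
    | h1 j y hy =>
      rw [brV_iot, phiV_iot, phiV_iot, phiV_iot, brV_iot]
      apply iot_congr F _ rfl
      rw [map_commutatorElement]

theorem phiV_iter (n : ℕ) : ∀ (k : ℕ) (x : S) (hx : x ∈ F.N k) (hx' : (φ ^ n) x ∈ F.N k),
    (phiV F φ hφN)^[n] (iot F k x hx) = iot F k ((φ ^ n) x) hx' := by
  induction n with
  | zero => intro k x hx hx'; rfl
  | succ n ih =>
    intro k x hx hx'
    have hx'' : (φ ^ n) (φ x) ∈ F.N k := by
      have : (φ ^ (n + 1)) x = (φ ^ n) (φ x) := by rw [pow_succ]; rfl
      rwa [this] at hx'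
    rw [Function.iterate_succ_apply, phiV_iot, ih k (φ x) (hφN k x hx) hx'']
    apply iot_congr F _ rfl
    rw [pow_succ]; rfl

theorem phiV_order (r : ℕ) (hr : φ ^ r = 1) (v : VV F) : (phiV F φ hφN)^[r] v = v := by
  induction v using VV_ind with
  | h0 => exact iterate_map_zero _ _
  | h2 a b h h' => rw [iterate_map_add, h, h']
  | h1 k x hx =>
    have hx' : (φ ^ r) x ∈ F.N k := by rw [hr]; exact hx
    rw [phiV_iter F φ hφN r k x hx hx']
    apply iot_congr F _ rfl
    rw [hr]; rfl

theorem phiV_fix [Finite S] (r : ℕ) [hr : Fact r.Prime] (hφ : φ ^ r = 1)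
    (hcop : Nat.Coprime r (Nat.card S)) (hfix : ∀ x, φ x = x → x = 1) (v : VV F)
    (hv : phiV F φ hφN v = v) : v = 0 := by
  apply DirectSum.ext (β := fun k => Gr F k)
  intro k
  have h1 : grMap F φ hφN k (v k) = v k := by
    have := congrArg (fun w : VV F => w k) hv
    simp only [phiV, DirectSum.map_apply] at this
    exact this
  show v k = 0
  generalize v k = a at h1
  induction a using gcl_ind with
  | h x hx =>
    rw [grMap_gcl, eq_comm, gcl_eq_iff] at h1
    have hc : Nat.Coprime r (Nat.card (F.N (k + 1))) :=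
      Nat.Coprime.coprime_dvd_right (Subgroup.card_subgroup_dvd_card _) hcop
    obtain ⟨y, hy1, hy2⟩ := coprime_fix r φ hφ (F.N (k + 1)) (hφN (k + 1)) hc x h1
    have hy3 := hfix y hy2
    rw [hy3, mul_one] at hy1
    rw [gcl_eq_zero_iff]
    have := (F.N (k + 1)).inv_mem hy1
    rwa [inv_inv] at this

theorem smul_inj [Finite S] (r : ℕ) (hcop : Nat.Coprime r (Nat.card S)) (v : VV F)
    (hv : r • v = 0) : v = 0 := by
  apply DirectSum.ext (β := fun k => Gr F k)
  intro k
  have h1 : r • (v k) = 0 := by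
    have h2 := map_nsmul (DFinsupp.evalAddMonoidHom (β := fun k => Gr F k) k) r v
    rw [hv, map_zero] at h2
    exact h2.symm
  show v k = 0
  generalize v k = a at h1
  induction a using gcl_ind with
  | h x hx =>
    rw [← gcl_pow, gcl_eq_zero_iff] at h1
    rw [gcl_eq_zero_iff]
    -- x is a power of x ^ r
    have hc : Nat.Coprime r (orderOf x) :=
      Nat.Coprime.coprime_dvd_right (orderOf_dvd_natCard x) hcop
    obtain ⟨m, hm⟩ := exists_pow_eq_self_of_coprime hc
    rw [← hm]
    exact (F.N (k + 1)).pow_mem h1 m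

end aut

section main

variable {S : Type} [Group S] [Finite S]

theorem lcsN_le_ln (n : ℕ) : ∀ (y : S) (hy : y ∈ (⊤ : Subgroup S).lowerCentralSeries n),
    iot (lcsF S) (n + 1) y hy ∈ ln (lieV (lcsF S)) n := by
  induction n with
  | zero => intro y hy; exact AddSubgroup.mem_top _
  | succ n ih =>
    intro y hy
    have hy' : y ∈ Subgroup.closure {x | ∃ p ∈ (⊤ : Subgroup S).lowerCentralSeries n,
        ∃ q ∈ (⊤ : Subgroup S), ⁅p, q⁆ = x} := hy
    have key : ∃ hy : y ∈ (⊤ : Subgroup S).lowerCentralSeries (n + 1),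
        iot (lcsF S) (n + 1 + 1) y hy ∈ ln (lieV (lcsF S)) (n + 1) := by
      refine Subgroup.closure_induction (p := fun y _ =>
        ∃ hy : y ∈ (⊤ : Subgroup S).lowerCentralSeries (n + 1),
        iot (lcsF S) (n + 1 + 1) y hy ∈ ln (lieV (lcsF S)) (n + 1)) ?_ ?_ ?_ ?_ hy'
      · rintro _ ⟨p, hp, q, hq, rfl⟩
        refine ⟨Subgroup.commutator_mem_commutator hp hq, ?_⟩
        have h1 : (lieV (lcsF S)).br (iot (lcsF S) (n + 1) p hp) (iot (lcsF S) 1 q hq) =
            iot (lcsF S) (n + 1 + 1) ⁅p, q⁆ (Subgroup.commutator_mem_commutator hp hq) :=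
          brV_iot (lcsF S) (n + 1) 1 hp hq
        rw [← h1]
        exact mem_bk _ (ih p hp) (AddSubgroup.mem_top _)
      · refine ⟨Subgroup.one_mem _, ?_⟩
        have h1 : iot (lcsF S) (n + 1 + 1) 1 (Subgroup.one_mem _) = 0 := iot_one (lcsF S)
        rw [h1]
        exact AddSubgroup.zero_mem _
      · rintro x y _ _ ⟨hx, h1⟩ ⟨hy, h2⟩
        refine ⟨Subgroup.mul_mem _ hx hy, ?_⟩
        have h3 := iot_mul (lcsF S) (k := n + 1 + 1) (x := x) (y := y) hx hy
        rw [h3]
        exact AddSubgroup.add_mem _ h1 h2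
      · rintro x _ ⟨hx, h1⟩
        refine ⟨Subgroup.inv_mem _ hx, ?_⟩
        have h3 := iot_inv (lcsF S) (k := n + 1 + 1) (x := x) hx
        rw [h3]
        exact AddSubgroup.neg_mem _ h1
    obtain ⟨_, h⟩ := key
    exact h

/-- **Higman's theorem.** -/
theorem higman_group (hS : Group.IsNilpotent S) (r : ℕ) [hr : Fact r.Prime] (φ : MulAut S)
    (hφ : φ ^ r = 1) (hcop : Nat.Coprime r (Nat.card S)) (hfix : ∀ x, φ x = x → x = 1) :
    (⊤ : Subgroup S).lowerCentralSeries (cc r (2 ^ (r - 1) - 1)) = ⊥ := by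
  set c := cc r (2 ^ (r - 1) - 1) with hc
  have hφN : ∀ k, ∀ x ∈ (lcsF S).N k, φ x ∈ (lcsF S).N k := by
    intro k x hx
    cases k with
    | zero => exact Subgroup.mem_top _
    | succ k =>
      have h1 : ((⊤ : Subgroup S).lowerCentralSeries k).Characteristic := inferInstance
      have h2 := (Subgroup.characteristic_iff_le_comap.mp h1) φ
      exact h2 hx
  have hln := higman_lie (lieV (lcsF S)) (r := r) (phiV (lcsF S) φ hφN)
    (phiV_br (lcsF S) φ hφN) (phiV_order (lcsF S) φ hφN r hφ)
    (phiV_fix (lcsF S) φ hφN r hφ hcop hfix) (smul_inj (lcsF S) r hcop)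
  have hstep : (⊤ : Subgroup S).lowerCentralSeries c ≤
      (⊤ : Subgroup S).lowerCentralSeries (c + 1) := by
    intro y hy
    have h1 := lcsN_le_ln c y hy
    rw [hln, AddSubgroup.mem_bot] at h1
    have h2 : gcl (lcsF S) (c + 1) y hy = 0 := by
      have := DirectSum.of_injective (β := fun k => Gr (lcsF S) k) (c + 1)
      apply this
      rw [map_zero]
      exact h1
    exact (gcl_eq_zero_iff (lcsF S) (k := c + 1) hy).mp h2
  have hall : ∀ n, (⊤ : Subgroup S).lowerCentralSeries c ≤
      (⊤ : Subgroup S).lowerCentralSeries (c + n) := by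
    intro n
    induction n with
    | zero => exact le_refl _
    | succ n ih =>
      calc (⊤ : Subgroup S).lowerCentralSeries c ≤ (⊤ : Subgroup S).lowerCentralSeries (c + 1) :=
            hstep
        _ = ⁅(⊤ : Subgroup S).lowerCentralSeries c, ⊤⁆ := rfl
        _ ≤ ⁅(⊤ : Subgroup S).lowerCentralSeries (c + n), ⊤⁆ :=
            Subgroup.commutator_mono ih (le_refl _)
        _ = (⊤ : Subgroup S).lowerCentralSeries (c + (n + 1)) := rfl
  obtain ⟨n, hn⟩ := Subgroup.nilpotent_iff_lowerCentralSeries.mp hS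
  rw [eq_bot_iff, ← hn]
  exact le_trans (hall n) (Subgroup.lowerCentralSeries_antitone _ (Nat.le_add_left n c))

end main

end Pool.Agent.Lib.MP_29fe3f_al
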