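import Mathlib

/-!
Graded Lie rings: Kreknin's theorem and Higman's theorem for gradings by `ZMod r`, `r` prime,
with trivial zero component.
-/

set_option autoImplicit false
set_option linter.all false

namespace Pool.Agent.Lib.MP_29fe3f_al

/-- A biadditive antisymmetric product satisfying the Jacobi identity. -/
structure LieBr (L : Type) [AddCommGroup L] where
  br : L →+ L →+ L
  anti : ∀ x y, br x y = - br y x
  jac : ∀ x y z, br (br x y) z = br (br x z) y + br x (br y z)

section fam

variable {L : Type} [AddCommGroup L] (B : LieBr L) {r : ℕ}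

/-- additive subgroup generated by products -/
def bk (X Y : AddSubgroup L) : AddSubgroup L :=
  AddSubgroup.closure {z | ∃ x ∈ X, ∃ y ∈ Y, z = B.br x y}

/-- product of families -/
def bf (X Y : ZMod r → AddSubgroup L) : ZMod r → AddSubgroup L :=
  fun k => ⨆ i, bk B (X i) (Y (k - i))

/-- `[U, I] ⊆ W` for families -/
def Act (I U W : ZMod r → AddSubgroup L) : Prop :=
  ∀ i j, ∀ x ∈ U i, ∀ y ∈ I j, B.br x y ∈ W (i + j)

theorem bk_le {X Y Z : AddSubgroup L} (h : ∀ x ∈ X, ∀ y ∈ Y, B.br x y ∈ Z) : bk B X Y ≤ Z := by
  rw [bk, AddSubgroup.closure_le]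
  rintro _ ⟨x, hx, y, hy, rfl⟩
  exact h x hx y hy

theorem mem_bk {X Y : AddSubgroup L} {x y : L} (hx : x ∈ X) (hy : y ∈ Y) :
    B.br x y ∈ bk B X Y := AddSubgroup.subset_closure ⟨x, hx, y, hy, rfl⟩

theorem bf_le {X Y W : ZMod r → AddSubgroup L} (h : Act B Y X W) (k : ZMod r) :
    bf B X Y k ≤ W k := by
  rw [bf]
  apply iSup_le
  intro i
  apply bk_le
  intro x hx y hy
  have := h i (k - i) x hx y hy
  rwa [add_sub_cancel] at this

theorem act_bf (X Y : ZMod r → AddSubgroup L) : Act B Y X (bf B X Y) := by
  intro i j x hx y hy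
  have h1 : bk B (X i) (Y (i + j - i)) ≤ bf B X Y (i + j) := le_iSup
    (fun i' => bk B (X i') (Y (i + j - i'))) i
  apply h1
  apply mem_bk B hx
  rwa [add_sub_cancel_left]

theorem Act.mono {I I' U U' W W' : ZMod r → AddSubgroup L} (h : Act B I U W)
    (hI : ∀ i, I' i ≤ I i) (hU : ∀ i, U' i ≤ U i) (hW : ∀ i, W i ≤ W' i) : Act B I' U' W' :=
  fun i j x hx y hy => hW _ (h i j x (hU i hx) y (hI j hy))

/-- If `U` and `I` are stable under `H` in the sense of ideals, then so is `bf U I`. -/
theorem act_bf_ideal {H U I : ZMod r → AddSubgroup L} (hU : Act B H U U) (hI : Act B H I I) :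
    Act B H (bf B U I) (bf B U I) := by
  intro k j z hz y hy
  -- the set of z with the property is an additive subgroup
  let S : AddSubgroup L := (bf B U I (k + j)).comap (B.br.flip y)
  have : bf B U I k ≤ S := by
    apply iSup_le
    intro i
    apply bk_le
    intro u hu v hv
    rw [AddSubgroup.mem_comap]
    show B.br (B.br u v) y ∈ _
    rw [B.jac]
    apply AddSubgroup.add_mem
    · have h1 := act_bf B U I (i + j) (k - i) _ (hU i j u hu y hy) v hv
      have h2 : i + j + (k - i) = k + j := by ring
      rwa [h2] at h1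
    · have h1 := act_bf B U I i (k - i + j) u hu _ (hI (k - i) j v hv y hy)
      have h2 : i + (k - i + j) = k + j := by ring
      rwa [h2] at h1
  exact this hz

/-- derived family -/
def dF (H : ZMod r → AddSubgroup L) : ZMod r → AddSubgroup L := bf B H H

/-- iterated derived family -/
def dN (n : ℕ) (H : ZMod r → AddSubgroup L) : ZMod r → AddSubgroup L := (dF B)^[n] H

theorem dN_succ (n : ℕ) (H : ZMod r → AddSubgroup L) : dN B (n + 1) H = dF B (dN B n H) :=
  Function.iterate_succ_apply' _ _ _

theorem dN_add (m n : ℕ) (H : ZMod r → AddSubgroup L) : dN B (m + n) H = dN B m (dN B n H) :=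
  Function.iterate_add_apply _ _ _ _

theorem dN_ideal {H : ZMod r → AddSubgroup L} (hH : Act B H H H) (n : ℕ) :
    Act B H (dN B n H) (dN B n H) := by
  induction n with
  | zero => exact hH
  | succ n ih => rw [dN_succ]; exact act_bf_ideal B ih ih

theorem dN_le {H : ZMod r → AddSubgroup L} (hH : Act B H H H) (n : ℕ) (k : ZMod r) :
    dN B n H k ≤ H k := by
  induction n generalizing k with
  | zero => exact le_refl _
  | succ n ih =>
    rw [dN_succ]
    exact bf_le B (hH.mono B ih ih (fun i => le_refl _)) k

theorem dN_sub {H : ZMod r → AddSubgroup L} (hH : Act B H H H) (n : ℕ) :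
    Act B (dN B n H) (dN B n H) (dN B n H) :=
  (dN_ideal B hH n).mono B (dN_le B hH n) (fun i => le_refl _) (fun i => le_refl _)

/-- the subring generated by the components of degree `≥ k` -/
inductive Gen (H : ZMod r → AddSubgroup L) (k : ℕ) : ZMod r → L → Prop
  | base {d : ZMod r} {x : L} : k ≤ d.val → x ∈ H d → Gen H k d x
  | zero {d : ZMod r} : Gen H k d 0
  | add {d : ZMod r} {x y : L} : Gen H k d x → Gen H k d y → Gen H k d (x + y)
  | neg {d : ZMod r} {x : L} : Gen H k d x → Gen H k d (-x)
  | br {i j : ZMod r} {x y : L} : Gen H k i x → Gen H k j y → Gen H k (i + j) (B.br x y)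

/-- homogeneous components of the generated subring as additive subgroups -/
def genSub (H : ZMod r → AddSubgroup L) (k : ℕ) (d : ZMod r) : AddSubgroup L where
  carrier := {x | Gen B H k d x}
  add_mem' := Gen.add
  zero_mem' := Gen.zero
  neg_mem' := Gen.neg

theorem Gen.trans {H H' : ZMod r → AddSubgroup L} {k k' : ℕ}
    (h : ∀ d : ZMod r, k ≤ d.val → ∀ x ∈ H d, Gen B H' k' d x) {d : ZMod r} {x : L}
    (hx : Gen B H k d x) : Gen B H' k' d x := by
  induction hx with
  | base hd hx => exact h _ hd _ hx
  | zero => exact Gen.zero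
  | add _ _ h1 h2 => exact Gen.add h1 h2
  | neg _ h1 => exact Gen.neg h1
  | br _ _ h1 h2 => exact Gen.br h1 h2

theorem Gen.mem {H : ZMod r → AddSubgroup L} (hH : Act B H H H) {k : ℕ} {d : ZMod r} {x : L}
    (hx : Gen B H k d x) : x ∈ H d := by
  induction hx with
  | base hd hx => exact hx
  | zero => exact AddSubgroup.zero_mem _
  | add _ _ h1 h2 => exact AddSubgroup.add_mem _ h1 h2
  | neg _ h1 => exact AddSubgroup.neg_mem _ h1
  | br _ _ h1 h2 => exact hH _ _ _ h1 _ h2

/-- products ending with a generator -/
def endS (H : ZMod r → AddSubgroup L) (k : ℕ) (l : ZMod r) : AddSubgroup L :=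
  ⨆ d : {d : ZMod r // k ≤ d.val}, bk B (H (l - d.1)) (H d.1)

theorem br_gen {H : ZMod r → AddSubgroup L} (hH : Act B H H H) {k : ℕ} {j : ZMod r} {u : L}
    (hu : Gen B H k j u) : ∀ (i : ZMod r), ∀ v ∈ H i, B.br v u ∈ endS B H k (i + j) := by
  induction hu with
  | @base d x hd hx =>
    intro i v hv
    have h1 : bk B (H (i + d - d)) (H d) ≤ endS B H k (i + d) :=
      le_iSup (fun d' : {d : ZMod r // k ≤ d.val} => bk B (H (i + d - d'.1)) (H d'.1)) ⟨d, hd⟩
    apply h1
    apply mem_bk B _ hx
    rwa [add_sub_cancel_right]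
  | zero => intro i v hv; rw [map_zero]; exact AddSubgroup.zero_mem _
  | add _ _ h1 h2 =>
    intro i v hv
    rw [map_add]
    exact AddSubgroup.add_mem _ (h1 i v hv) (h2 i v hv)
  | neg _ h1 =>
    intro i v hv
    rw [map_neg]
    exact AddSubgroup.neg_mem _ (h1 i v hv)
  | @br i1 i2 x y hx hy h1 h2 =>
    intro i v hv
    have e1 : B.br v (B.br x y) = B.br (B.br v x) y - B.br (B.br v y) x := by
      rw [B.jac v x y]; abel
    rw [e1]
    apply AddSubgroup.sub_mem
    · have := h2 (i + i1) _ (hH _ _ _ hv _ (hx.mem B hH))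
      rwa [add_assoc] at this
    · have := h1 (i + i2) _ (hH _ _ _ hv _ (hy.mem B hH))
      rwa [add_assoc, add_comm i2 i1] at this

variable [NeZero r]

theorem kreknin_claim : ∀ (k : ℕ) (H : ZMod r → AddSubgroup L), Act B H H H → H 0 = ⊥ → k < r →
    ∀ (j : ZMod r) (x : L), x ∈ dN B (2 ^ k - 1) H j → Gen B H (k + 1) j x := by
  intro k
  induction k with
  | zero =>
    intro H hH h0 _ j x hx
    have hx' : x ∈ H j := hx
    by_cases hj : j = 0
    · subst hj
      rw [h0, AddSubgroup.mem_bot] at hx'
      rw [hx']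
      exact Gen.zero
    · apply Gen.base _ hx'
      have : j.val ≠ 0 := fun h => hj ((ZMod.val_eq_zero j).mp h)
      omega
  | succ k ih =>
    intro H hH h0 hk j x hx
    set s := 2 ^ k - 1 with hs
    have hpow : 2 ^ (k + 1) - 1 = s + (s + 1) := by
      have : 1 ≤ 2 ^ k := Nat.one_le_two_pow
      rw [pow_succ]; omega
    rw [hpow, dN_add] at hx
    set E := dN B (s + 1) H with hE
    have hEle : ∀ i, E i ≤ H i := dN_le B hH (s + 1)
    have hE0 : E 0 = ⊥ := by
      rw [eq_bot_iff, ← h0]; exact hEle 0
    have h1 := ih E (dN_sub B hH (s + 1)) hE0 (by omega) j x hx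
    refine h1.trans B ?_
    intro d hd y hy
    by_cases hd2 : k + 1 + 1 ≤ d.val
    · exact Gen.base hd2 (hEle d hy)
    · have hdval : d.val = k + 1 := by omega
      -- E d is contained in endS
      have h2 : E d ≤ endS B H (k + 1) d := by
        rw [hE, dN_succ]
        refine bf_le B (W := endS B H (k + 1)) ?_ d
        intro i j' v hv u hu
        exact br_gen B hH (ih H hH h0 (by omega) j' u hu) i v (dN_le B hH s i hv)
      have h3 : endS B H (k + 1) d ≤ genSub B H (k + 1 + 1) d := by
        apply iSup_le
        rintro ⟨d', hd'⟩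
        apply bk_le
        intro a ha b hb
        by_cases he : d' = d
        · subst he
          have ha' : a ∈ H (d' - d') := ha
          rw [sub_self, h0, AddSubgroup.mem_bot] at ha'
          rw [ha', map_zero]
          exact Gen.zero
        · have hlt : k + 1 < d'.val := by
            refine lt_of_le_of_ne hd' ?_
            intro h
            apply he
            apply ZMod.val_injective r
            rw [hdval, h]
          have hval : k + 1 + 1 ≤ (d - d').val := by
            have e1 : d.val = ((d - d').val + d'.val) % r := by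
              rw [← ZMod.val_add, sub_add_cancel]
            have e2 := ZMod.val_lt (d - d')
            have e3 := ZMod.val_lt d'
            by_contra hcon
            push Not at hcon
            by_cases hsum : (d - d').val + d'.val < r
            · rw [Nat.mod_eq_of_lt hsum] at e1
              omega
            · rw [Nat.mod_eq_sub_mod (by omega), Nat.mod_eq_of_lt (by omega)] at e1
              omega
          have hlt' : k + 1 + 1 ≤ d'.val := by omega
          have h4 := Gen.br (B := B) (Gen.base (B := B) (H := H) hval ha)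
            (Gen.base (B := B) (H := H) (k := k + 1 + 1) hlt' hb)
          rwa [sub_add_cancel] at h4
      exact h3 (h2 hy)

/-- **Kreknin's theorem.** -/
theorem kreknin (H : ZMod r → AddSubgroup L) (hH : Act B H H H) (h0 : H 0 = ⊥) (j : ZMod r) :
    dN B (2 ^ (r - 1) - 1) H j = ⊥ := by
  rw [eq_bot_iff]
  intro x hx
  have hr : 0 < r := Nat.pos_of_ne_zero (NeZero.ne r)
  have h1 := kreknin_claim B (r - 1) H hH h0 (by omega) j x hx
  rw [Nat.sub_add_cancel hr] at h1
  have h2 : ∀ (d : ZMod r) (y : L), Gen B H r d y → y = 0 := by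
    intro d y hy
    induction hy with
    | base hd hx => exact absurd (ZMod.val_lt _) (not_lt.mpr hd)
    | zero => rfl
    | add _ _ h1 h2 => rw [h1, h2, add_zero]
    | neg _ h1 => rw [h1, neg_zero]
    | br _ _ h1 h2 => rw [h1, map_zero]; rfl
  exact AddSubgroup.mem_bot.mpr (h2 j x h1)

end fam

section nilp

variable {L : Type} [AddCommGroup L] (B : LieBr L) {r : ℕ}

/-- iterated product with `H` on the right -/
def pw (H : ZMod r → AddSubgroup L) : ℕ → (ZMod r → AddSubgroup L) → (ZMod r → AddSubgroup L)
  | 0, U => U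
  | n + 1, U => bf B (pw H n U) H

theorem pw_add (H : ZMod r → AddSubgroup L) (m n : ℕ) (U : ZMod r → AddSubgroup L) :
    pw B H (m + n) U = pw B H n (pw B H m U) := by
  induction n with
  | zero => rfl
  | succ n ih => show bf B (pw B H (m + n) U) H = bf B (pw B H n (pw B H m U)) H; rw [ih]

theorem pw_mono (H : ZMod r → AddSubgroup L) (n : ℕ) {U U' : ZMod r → AddSubgroup L}
    (h : ∀ k, U k ≤ U' k) : ∀ k, pw B H n U k ≤ pw B H n U' k := by
  induction n with
  | zero => exact h
  | succ n ih =>
    intro k
    exact bf_le B ((act_bf B (pw B H n U') H).mono B (fun i => le_refl _) ih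
      (fun i => le_refl _)) k

theorem pw_ideal {H U : ZMod r → AddSubgroup L} (hH : Act B H H H) (hU : Act B H U U) (n : ℕ) :
    Act B H (pw B H n U) (pw B H n U) := by
  induction n with
  | zero => exact hU
  | succ n ih => exact act_bf_ideal B ih hH

theorem pw_le {H U : ZMod r → AddSubgroup L} (hH : Act B H H H) (hU : Act B H U U) (n : ℕ)
    (k : ZMod r) : pw B H n U k ≤ U k := by
  induction n generalizing k with
  | zero => exact le_refl _
  | succ n ih => exact bf_le B (hU.mono B (fun i => le_refl _) ih (fun i => le_refl _)) k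

/-- the property: any ideal section on which `I` acts trivially is killed by `n` steps -/
def QP (H I : ZMod r → AddSubgroup L) (n : ℕ) : Prop :=
  ∀ U W : ZMod r → AddSubgroup L, Act B H U U → Act B H W W → (∀ k, W k ≤ U k) →
    (∀ k, U k ≤ H k) → Act B I U W → ∀ k, pw B H n U k ≤ W k

theorem qp_one (H : ZMod r → AddSubgroup L) : QP B H H 1 :=
  fun U W _ _ _ _ h k => bf_le B h k

/-- auxiliary chain -/
def chainV (a : ZMod r) (C : AddSubgroup L) (U W : ZMod r → AddSubgroup L) :
    ℕ → (ZMod r → AddSubgroup L)
  | 0 => U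
  | t + 1 => fun k => bk B (chainV a C U W t (k - a)) C ⊔ W k

variable [Fact r.Prime]

theorem qp_step {H I J : ZMod r → AddSubgroup L} (hH : Act B H H H) (h0 : H 0 = ⊥)
    (a : ZMod r) (ha : a ≠ 0) (C : AddSubgroup L) (hC : C ≤ H a)
    (hCI : ∀ j, ∀ c ∈ C, ∀ x ∈ H j, B.br c x ∈ I (a + j))
    (hJ1 : ∀ j, j ≠ a → J j ≤ I j) (hJ2 : J a ≤ I a ⊔ C) {n : ℕ} (hQ : QP B H J n) :
    QP B H I ((r - 1) * n) := by
  classical
  intro U W hU hW hWU hUH hI
  -- the chain
  obtain ⟨V, hV0, hVs⟩ : ∃ V : ℕ → ZMod r → AddSubgroup L, V 0 = U ∧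
      ∀ t k, V (t + 1) k = bk B (V t (k - a)) C ⊔ W k :=
    ⟨chainV B a C U W, rfl, fun _ _ => rfl⟩
  have hmemC : ∀ t k, ∀ x ∈ V t k, ∀ c ∈ C, B.br x c ∈ V (t + 1) (k + a) := by
    intro t k x hx c hc
    rw [hVs]
    apply AddSubgroup.mem_sup_left
    apply mem_bk B _ hc
    rwa [add_sub_cancel_right]
  have hWV : ∀ t k, W k ≤ V t k := by
    intro t
    cases t with
    | zero => rw [hV0]; exact hWU
    | succ t => intro k; rw [hVs]; exact le_sup_right
  have hVU : ∀ t k, V t k ≤ U k := by
    intro t
    induction t with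
    | zero => intro k; rw [hV0]
    | succ t ih =>
      intro k
      rw [hVs]
      apply sup_le
      · apply bk_le
        intro x hx c hc
        have := hU (k - a) a x (ih _ hx) c (hC hc)
        rwa [sub_add_cancel] at this
      · exact hWU k
  have hVid : ∀ t, Act B H (V t) (V t) := by
    intro t
    induction t with
    | zero => rw [hV0]; exact hU
    | succ t ih =>
      intro k j z hz y hy
      let S : AddSubgroup L := (V (t + 1) (k + j)).comap (B.br.flip y)
      have : V (t + 1) k ≤ S := by
        rw [hVs]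
        apply sup_le
        · apply bk_le
          intro u hu c hc
          rw [AddSubgroup.mem_comap]
          show B.br (B.br u c) y ∈ _
          rw [B.jac]
          apply AddSubgroup.add_mem
          · have h1 := hmemC t _ _ (ih (k - a) j u hu y hy) c hc
            have h2 : k - a + j + a = k + j := by ring
            rwa [h2] at h1
          · apply hWV
            have h1 := hI (k - a) (a + j) u (hVU t _ hu) _ (hCI j c hc y hy)
            have h2 : k - a + (a + j) = k + j := by ring
            rwa [h2] at h1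
        · intro w hw
          exact hWV _ _ (hW k j w hw y hy)
      exact this hz
  have hVdec : ∀ t k, V (t + 1) k ≤ V t k := by
    intro t k
    rw [hVs]
    apply sup_le
    · apply bk_le
      intro x hx c hc
      have := hVid t (k - a) a x hx c (hC hc)
      rwa [sub_add_cancel] at this
    · exact hWV t k
  have hVJ : ∀ t, Act B J (V t) (V (t + 1)) := by
    intro t i j x hx y hy
    by_cases hj : j = a
    · subst hj
      have h1 := hJ2 hy
      rw [AddSubgroup.mem_sup] at h1
      obtain ⟨y1, hy1, c, hc, rfl⟩ := h1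
      rw [map_add]
      apply AddSubgroup.add_mem
      · exact hWV _ _ (hI i j x (hVU t _ hx) y1 hy1)
      · exact hmemC t i x hx c hc
    · exact hWV _ _ (hI i j x (hVU t _ hx) y (hJ1 j hj hy))
  have hVn : ∀ t k, pw B H n (V t) k ≤ V (t + 1) k := by
    intro t
    exact hQ (V t) (V (t + 1)) (hVid t) (hVid (t + 1)) (hVdec t)
      (fun k => le_trans (hVU t k) (hUH k)) (hVJ t)
  have hVtn : ∀ t k, pw B H (t * n) U k ≤ V t k := by
    intro t
    induction t with
    | zero => intro k; rw [zero_mul, hV0]; exact le_refl _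
    | succ t ih =>
      intro k
      rw [add_mul, one_mul, pw_add]
      exact le_trans (pw_mono B H n ih k) (hVn t k)
  -- the end of the chain
  have hV00 : ∀ t, V t 0 = ⊥ := by
    intro t
    rw [eq_bot_iff, ← h0]
    exact le_trans (hVU t 0) (hUH 0)
  have hend : ∀ (t : ℕ) (k : ZMod r), (∃ t' : ℕ, t' ≤ t ∧ k = (t' : ZMod r) * a) →
      V t k ≤ W k := by
    intro t
    induction t with
    | zero =>
      rintro k ⟨t', ht', rfl⟩
      have : t' = 0 := by omega
      subst this
      rw [Nat.cast_zero, zero_mul, hV00]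
      exact bot_le
    | succ t ih =>
      rintro k ⟨t', ht', hk⟩
      rcases Nat.eq_zero_or_pos t' with h | h
      · subst h
        rw [Nat.cast_zero, zero_mul] at hk
        subst hk
        rw [hV00]
        exact bot_le
      · have h1 : V t (k - a) ≤ W (k - a) := by
          apply ih
          refine ⟨t' - 1, by omega, ?_⟩
          rw [Nat.cast_sub h, hk]
          push_cast
          ring
        rw [hVs]
        apply sup_le
        · apply bk_le
          intro x hx c hc
          have := hW (k - a) a x (h1 hx) c (hC hc)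
          rwa [sub_add_cancel] at this
        · exact le_refl _
  intro k
  refine le_trans (hVtn (r - 1) k) (hend (r - 1) k ?_)
  refine ⟨(k * a⁻¹).val, ?_, ?_⟩
  · have := ZMod.val_lt (k * a⁻¹)
    omega
  · rw [ZMod.natCast_zmod_val, mul_assoc, inv_mul_cancel₀ ha, mul_one]

/-- descend from one term of the lower central series to the next -/
theorem qp_lower {H : ZMod r → AddSubgroup L} (hH : Act B H H H) (h0 : H 0 = ⊥) (c n : ℕ)
    (hQ : QP B H (pw B H c H) n) : QP B H (pw B H (c + 1) H) ((r - 1) ^ (r - 1) * n) := by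
  classical
  have hr := (Fact.out : r.Prime).two_le
  -- intermediate families
  let I : ℕ → ZMod r → AddSubgroup L := fun t j =>
    if j.val ≤ t then pw B H c H j else pw B H (c + 1) H j
  have hle : ∀ j, pw B H (c + 1) H j ≤ pw B H c H j := by
    intro j
    have h1 : pw B H (c + 1) H = bf B (pw B H c H) H := rfl
    rw [h1]
    exact bf_le B (pw_ideal B hH hH c) j
  have hIge : ∀ t j, pw B H (c + 1) H j ≤ I t j := by
    intro t j
    simp only [I]
    split_ifs
    · exact hle j
    · exact le_refl _
  have hbot : pw B H c H 0 = ⊥ := by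
    rw [eq_bot_iff, ← h0]; exact pw_le B hH hH c 0
  have main : ∀ t, t ≤ r - 1 → QP B H (I (r - 1 - t)) ((r - 1) ^ t * n) := by
    intro t
    induction t with
    | zero =>
      intro _
      rw [Nat.sub_zero, pow_zero, one_mul]
      have : I (r - 1) = pw B H c H := by
        funext j
        simp only [I]
        rw [if_pos]
        have := ZMod.val_lt j
        omega
      rw [this]
      exact hQ
    | succ t ih =>
      intro ht
      have h1 := ih (by omega)
      have e : r - 1 - t = (r - 1 - (t + 1)) + 1 := by omega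
      rw [e] at h1
      set s := r - 1 - (t + 1) with hs
      have hs1 : s + 1 < r := by omega
      have hval : ((s + 1 : ℕ) : ZMod r).val = s + 1 := ZMod.val_natCast_of_lt hs1
      have ha : ((s + 1 : ℕ) : ZMod r) ≠ 0 := by
        intro h
        rw [h, ZMod.val_zero] at hval
        omega
      have h2 := qp_step B (I := I s) (J := I (s + 1)) hH h0 ((s + 1 : ℕ) : ZMod r) ha
        (pw B H c H ((s + 1 : ℕ) : ZMod r)) (pw_le B hH hH c _) (by
          intro j x hx y hy
          apply hIge
          exact act_bf B (pw B H c H) H _ _ x hx y hy) (by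
          intro j hj
          simp only [I]
          by_cases h3 : j.val ≤ s
          · rw [if_pos h3, if_pos (by omega)]
          · rw [if_neg h3, if_neg]
            intro h4
            apply hj
            have h5 : j.val = s + 1 := by omega
            apply ZMod.val_injective r
            rw [h5, hval]) (by
          simp only [I]
          rw [if_pos (by rw [hval])]
          exact le_sup_right) h1
      rw [← mul_assoc, ← pow_succ'] at h2
      exact h2
  have h3 := main (r - 1) (le_refl _)
  rw [Nat.sub_self] at h3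
  intro U W hU hW hWU hUH hI
  apply h3 U W hU hW hWU hUH
  intro i j x hx y hy
  simp only [I] at hy
  by_cases hj : j.val ≤ 0
  · have : j = 0 := (ZMod.val_eq_zero j).mp (by omega)
    subst this
    rw [if_pos hj, hbot, AddSubgroup.mem_bot] at hy
    rw [hy, map_zero]
    exact AddSubgroup.zero_mem _
  · rw [if_neg hj] at hy
    exact hI i j x hx y hy

theorem qp_all {H : ZMod r → AddSubgroup L} (hH : Act B H H H) (h0 : H 0 = ⊥) (c : ℕ) :
    QP B H (pw B H c H) (((r - 1) ^ (r - 1)) ^ c) := by
  induction c with
  | zero => rw [pow_zero]; exact qp_one B H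
  | succ c ih =>
    rw [pow_succ']
    exact qp_lower B hH h0 c _ ih

/-- the bound for the nilpotency class -/
def cc (r : ℕ) : ℕ → ℕ
  | 0 => 0
  | t + 1 => cc r t + ((r - 1) ^ (r - 1)) ^ (cc r t)

theorem pw_cc_le {H : ZMod r → AddSubgroup L} (hH : Act B H H H) (h0 : H 0 = ⊥) (t : ℕ) :
    ∀ k, pw B H (cc r t) H k ≤ dN B t H k := by
  induction t with
  | zero => intro k; exact le_refl _
  | succ t ih =>
    intro k
    rw [cc, pw_add]
    refine le_trans (pw_mono B H _ ih k) ?_
    refine qp_all B hH h0 (cc r t) (dN B t H) (dN B (t + 1) H) (dN_ideal B hH t)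
      (dN_ideal B hH (t + 1)) ?_ (dN_le B hH t) ?_ k
    · intro k
      rw [dN_succ]
      exact bf_le B (dN_sub B hH t) k
    · rw [dN_succ]
      exact (act_bf B (dN B t H) (dN B t H)).mono B ih (fun i => le_refl _) (fun i => le_refl _)

/-- **Higman's theorem** for graded Lie rings. -/
theorem higman_graded {H : ZMod r → AddSubgroup L} (hH : Act B H H H) (h0 : H 0 = ⊥)
    (k : ZMod r) : pw B H (cc r (2 ^ (r - 1) - 1)) H k = ⊥ := by
  rw [eq_bot_iff]
  refine le_trans (pw_cc_le B hH h0 _ k) ?_
  rw [kreknin B H hH h0]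

end nilp

end Pool.Agent.Lib.MP_29fe3f_al
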