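import Pool.Agent.Lib.MP_29fe3f_al.Rep

/-!
A nilpotency criterion and the existence of linear characters with small stabiliser.
-/

set_option autoImplicit false
set_option linter.all false

namespace Pool.Agent.Lib.MP_29fe3f_al

open Subgroup
open scoped commutatorElement

section crit

/-- a nontrivial normal subgroup of a nilpotent group meets the centre -/
theorem exists_central {L : Type} [Group L] (hL : Group.IsNilpotent L) (K : Subgroup L)
    [hKn : K.Normal] (hK : K ≠ ⊥) : ∃ z ∈ K, z ∈ center L ∧ z ≠ 1 := by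
  classical
  obtain ⟨n, hn⟩ := hL.nilpotent'
  have hex : ∃ n, K ⊓ Subgroup.upperCentralSeries L n ≠ ⊥ := ⟨n, by rw [hn, inf_top_eq]; exact hK⟩
  have hmin := Nat.find_spec hex
  have hlt := fun m => Nat.find_min hex (m := m)
  generalize Nat.find hex = k at hmin hlt
  cases k with
  | zero => simp at hmin
  | succ k =>
    have h1 := hlt k (Nat.lt_succ_self k)
    push Not at h1
    obtain ⟨x, hx, hx1⟩ := (Subgroup.ne_bot_iff_exists_ne_one).mp hmin |> fun ⟨x, hx⟩ =>
      (⟨x.1, x.2, fun h => hx (Subtype.ext h)⟩ : ∃ x : L, x ∈ K ⊓ Subgroup.upperCentralSeries L (k+1) ∧ x ≠ 1)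
    refine ⟨x, hx.1, ?_, hx1⟩
    rw [Subgroup.mem_center_iff]
    intro g
    have h2 : ⁅x, g⁆ ∈ K ⊓ Subgroup.upperCentralSeries L k := by
      refine ⟨?_, Subgroup.mem_upperCentralSeries_succ_iff.mp hx.2 g⟩
      rw [commutatorElement_def]
      have : x * g * x⁻¹ * g⁻¹ = x * (g * x⁻¹ * g⁻¹) := by group
      rw [this]
      exact K.mul_mem hx.1 (hKn.conj_mem _ (K.inv_mem hx.1) g)
    rw [h1, Subgroup.mem_bot, commutatorElement_eq_one_iff_mul_comm] at h2
    exact h2.symm

/-- characters separate the points of `N/I` when it is abelian -/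
theorem exists_sep {N : Type} [Group N] [Finite N] (I : Subgroup N) [I.Normal]
    (hI : ∀ a b : N, a * b * a⁻¹ * b⁻¹ ∈ I) (x : N) (hx : x ∉ I) :
    ∃ χ : N →* ℂˣ, (∀ i ∈ I, χ i = 1) ∧ χ x ≠ 1 := by
  letI : CommGroup (N ⧸ I) :=
    { (inferInstance : Group (N ⧸ I)) with
      mul_comm := by
        intro a b
        induction a using QuotientGroup.induction_on with
        | H a =>
        induction b using QuotientGroup.induction_on with
        | H b =>
        rw [← QuotientGroup.mk_mul, ← QuotientGroup.mk_mul, QuotientGroup.eq]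
        have := hI b⁻¹ a⁻¹
        convert this using 1
        group }
  have hx' : (x : N ⧸ I) ≠ 1 := by
    rw [Ne, QuotientGroup.eq_one_iff]; exact hx
  haveI : NeZero (Monoid.exponent (N ⧸ I)) := inferInstance
  obtain ⟨φ, hφ⟩ := CommGroup.exists_apply_ne_one_of_hasEnoughRootsOfUnity (N ⧸ I) ℂ hx'
  refine ⟨φ.comp (QuotientGroup.mk' I), ?_, hφ⟩
  intro i hi
  have : QuotientGroup.mk' I i = 1 := by
    rw [QuotientGroup.mk'_apply, QuotientGroup.eq_one_iff]; exact hi
  rw [MonoidHom.comp_apply, this, map_one]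

variable {E : Type} [Group E] [Finite E]

theorem normal_of_coatom_of_quot (K : Subgroup E) [K.Normal] (hq : Group.IsNilpotent (E ⧸ K))
    (M : Subgroup E) (hM : IsCoatom M) (hKM : K ≤ M) : M.Normal := by
  have hsur : Function.Surjective (QuotientGroup.mk' K) := QuotientGroup.mk'_surjective K
  have hker : (QuotientGroup.mk' K).ker ≤ M := by simpa using hKM
  have hnc := Group.normalizerCondition_of_isNilpotent (G := E ⧸ K)
  have h1 : M.map (QuotientGroup.mk' K) < ⊤ := by
    rw [lt_top_iff_ne_top]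
    intro h
    have := congrArg (Subgroup.comap (QuotientGroup.mk' K)) h
    rw [Subgroup.comap_map_eq_self hker, Subgroup.comap_top] at this
    exact hM.1 this
  have h2 := hnc _ h1
  have h3 : M < normalizer (M : Set E) := by
    have := (Subgroup.comap_lt_comap_of_surjective hsur).mpr h2
    rw [Subgroup.comap_normalizer_eq_of_surjective _ hsur, Subgroup.comap_map_eq_self hker] at this
    exact this
  exact Subgroup.normalizer_eq_top_iff.mp (hM.2 _ h3)

/-- **Nilpotency criterion.** -/
theorem nilp_crit (N : Subgroup E) [hNn : N.Normal] (hN : Group.IsNilpotent N) (p : ℕ)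
    [hpp : Fact p.Prime] (hp : ∀ g : E, g ^ p ∈ N)
    (hinv : ∀ (χ : N →* ℂˣ) (m : ℕ), Nat.Coprime m p → (∀ x, χ x ^ m = 1) →
      ∀ g : E, conjChar χ g = χ) :
    Group.IsNilpotent E := by
  classical
  refine ((Group.isNilpotent_of_finite_tfae (G := E)).out 0 2 rfl rfl).mpr ?_
  intro M hM
  by_cases hNM : N ≤ M
  · refine normal_of_coatom_of_quot N ?_ M hM hNM
    have : IsPGroup p (E ⧸ N) := by
      intro q
      obtain ⟨g, rfl⟩ := QuotientGroup.mk'_surjective N q
      refine ⟨1, ?_⟩
      rw [pow_one, ← map_pow, QuotientGroup.mk'_apply, QuotientGroup.eq_one_iff]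
      exact hp g
    exact this.isNilpotent
  -- second case
  set I : Subgroup E := N ⊓ M with hIdef
  have hIN : I ≤ N := inf_le_left
  have hIM : I ≤ M := inf_le_right
  -- I is normal
  have hMnorm : M ≤ normalizer (I : Set E) := by
    intro m hm
    rw [Subgroup.mem_normalizer_iff]
    intro x
    constructor
    · intro hx
      exact ⟨hNn.conj_mem x hx.1 m, M.mul_mem (M.mul_mem hm hx.2) (M.inv_mem hm)⟩
    · intro hx
      refine ⟨?_, ?_⟩
      · have := hNn.conj_mem _ hx.1 m⁻¹
        simpa [mul_assoc] using this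
      · have := M.mul_mem (M.mul_mem (M.inv_mem hm) hx.2) hm
        simpa [mul_assoc] using this
  have hIlt : (I.subgroupOf N) < ⊤ := by
    rw [lt_top_iff_ne_top]
    intro h
    rw [Subgroup.subgroupOf_eq_top] at h
    exact hNM (le_trans h hIM)
  have hnc := Group.normalizerCondition_of_isNilpotent (G := N)
  have hlt := hnc _ hIlt
  obtain ⟨y, hy, hyI⟩ := SetLike.exists_of_lt hlt
  have hyM : (y : E) ∉ M := by
    intro h
    exact hyI (Subgroup.mem_subgroupOf.mpr ⟨y.2, h⟩)
  have hyn : (y : E) ∈ normalizer (I : Set E) := by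
    rw [Subgroup.mem_normalizer_iff] at hy ⊢
    intro x
    constructor
    · intro hx
      have := (hy ⟨x, hIN hx⟩).mp (Subgroup.mem_subgroupOf.mpr hx)
      exact Subgroup.mem_subgroupOf.mp this
    · intro hx
      have hxN : x ∈ N := by
        have := N.mul_mem (N.mul_mem (N.inv_mem y.2) (hIN hx)) y.2
        convert this using 1
        group
      have := (hy ⟨x, hxN⟩).mpr (Subgroup.mem_subgroupOf.mpr hx)
      exact Subgroup.mem_subgroupOf.mp this
  have hInorm : normalizer (I : Set E) = ⊤ := by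
    apply hM.2
    refine lt_of_le_of_ne hMnorm ?_
    intro h
    apply hyM
    rw [h]
    exact hyn
  haveI hIn : I.Normal := Subgroup.normalizer_eq_top_iff.mp hInorm
  -- minimality
  have hchief : ∀ J : Subgroup E, J.Normal → I ≤ J → J ≤ N → J ≠ I → J = N := by
    intro J hJ hIJ hJN hne
    have hJM : ¬ J ≤ M := fun h => hne (le_antisymm (le_inf hJN h) hIJ)
    have htop : J ⊔ M = ⊤ := by
      apply hM.2
      refine lt_of_le_of_ne le_sup_right ?_
      intro h
      apply hJM
      rw [h]
      exact le_sup_left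
    refine le_antisymm hJN ?_
    intro n hn
    have : n ∈ J ⊔ M := by rw [htop]; trivial
    rw [Subgroup.mem_sup_of_normal_left] at this
    obtain ⟨j, hj, m, hm, rfl⟩ := this
    have : m ∈ N := by
      have := N.mul_mem (N.inv_mem (hJN hj)) hn
      convert this using 1
      group
    exact J.mul_mem hj (hIJ ⟨this, hm⟩)
  -- N / I is abelian
  haveI hI'n : (I.subgroupOf N).Normal := inferInstance
  have hab : ∀ a ∈ N, ∀ b ∈ N, a * b * a⁻¹ * b⁻¹ ∈ I := by
    let Z : Subgroup E :=
      { carrier := {x | x ∈ N ∧ ∀ b ∈ N, x * b * x⁻¹ * b⁻¹ ∈ I}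
        mul_mem' := by
          rintro x y ⟨hx, hx'⟩ ⟨hy, hy'⟩
          refine ⟨N.mul_mem hx hy, fun b hb => ?_⟩
          have h1 := hIn.conj_mem _ (hy' b hb) x
          have h2 := I.mul_mem h1 (hx' b hb)
          simpa [mul_assoc] using h2
        one_mem' := ⟨N.one_mem, fun b hb => by simp [I.one_mem]⟩
        inv_mem' := by
          rintro x ⟨hx, hx'⟩
          refine ⟨N.inv_mem hx, fun b hb => ?_⟩
          have h1 := hx' (x⁻¹ * b * x) (N.mul_mem (N.mul_mem (N.inv_mem hx) hb) hx)
          have h2 := I.inv_mem h1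
          simpa [mul_assoc] using h2 }
    have hZn : Z.Normal := by
      refine ⟨?_⟩
      rintro x ⟨hx, hx'⟩ g
      refine ⟨hNn.conj_mem x hx g, fun b hb => ?_⟩
      have hb' : g⁻¹ * b * g ∈ N := by
        have := hNn.conj_mem b hb g⁻¹
        simpa using this
      have := hIn.conj_mem _ (hx' _ hb') g
      simpa [mul_assoc] using this
    have hIZ : I ≤ Z := by
      intro x hx
      refine ⟨hIN hx, fun b hb => ?_⟩
      have h1 := hIn.conj_mem _ (I.inv_mem hx) b
      have h2 := I.mul_mem hx h1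
      simpa [mul_assoc] using h2
    have hZN : Z ≤ N := fun x hx => hx.1
    have hne : Z ≠ I := by
      intro hZI
      haveI : Group.IsNilpotent (N ⧸ I.subgroupOf N) := inferInstance
      have hnt : (⊤ : Subgroup (N ⧸ I.subgroupOf N)) ≠ ⊥ := by
        intro h
        apply hyM
        have : (QuotientGroup.mk' (I.subgroupOf N) y) ∈ (⊤ : Subgroup (N ⧸ I.subgroupOf N)) := trivial
        rw [h, Subgroup.mem_bot, QuotientGroup.mk'_apply, QuotientGroup.eq_one_iff] at this
        exact (Subgroup.mem_subgroupOf.mp this).2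
      obtain ⟨z, _, hz, hz1⟩ := exists_central this ⊤ hnt
      obtain ⟨x, rfl⟩ := QuotientGroup.mk'_surjective _ z
      apply hz1
      rw [QuotientGroup.mk'_apply, QuotientGroup.eq_one_iff, Subgroup.mem_subgroupOf, ← hZI]
      refine ⟨x.2, fun b hb => ?_⟩
      have h1 := Subgroup.mem_center_iff.mp hz (QuotientGroup.mk' _ ⟨b, hb⟩)
      rw [← map_mul, ← map_mul] at h1
      have h2 := QuotientGroup.eq.mp h1
      have h3 := Subgroup.mem_subgroupOf.mp h2
      have h4 := hIn.conj_mem _ h3 (x * b)
      simpa [mul_assoc] using h4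
    have hZ : Z = N := hchief Z hZn hIZ hZN hne
    intro a ha b hb
    rw [← hZ] at ha
    exact ha.2 b hb
  have hcomm : ∀ a ∈ N, ∀ b ∈ N, Commute (QuotientGroup.mk' I a) (QuotientGroup.mk' I b) := by
    intro a ha b hb
    show _ * _ = _ * _
    rw [← map_mul, ← map_mul]
    apply Eq.symm
    apply QuotientGroup.eq.mpr
    have := hIn.conj_mem _ (hab a ha b hb) (b * a)⁻¹
    simpa [mul_assoc] using this
  let P : Subgroup E :=
    { carrier := {x | x ∈ N ∧ x ^ p ∈ I}
      mul_mem' := by
        rintro x y ⟨hx, hx'⟩ ⟨hy, hy'⟩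
        refine ⟨N.mul_mem hx hy, ?_⟩
        have h1 : (QuotientGroup.mk' I (x * y)) ^ p = 1 := by
          have e1 : QuotientGroup.mk' I (x ^ p) = 1 := (QuotientGroup.eq_one_iff _).mpr hx'
          have e2 : QuotientGroup.mk' I (y ^ p) = 1 := (QuotientGroup.eq_one_iff _).mpr hy'
          rw [map_mul, (hcomm x hx y hy).mul_pow, ← map_pow, ← map_pow, e1, e2, one_mul]
        rw [← map_pow] at h1
        exact (QuotientGroup.eq_one_iff _).mp h1
      one_mem' := ⟨N.one_mem, by simp [I.one_mem]⟩
      inv_mem' := by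
        rintro x ⟨hx, hx'⟩
        exact ⟨N.inv_mem hx, by rw [inv_pow]; exact I.inv_mem hx'⟩ }
  have hPn : P.Normal := by
    refine ⟨?_⟩
    rintro x ⟨hx, hx'⟩ g
    exact ⟨hNn.conj_mem x hx g, by rw [conj_pow]; exact hIn.conj_mem _ hx' g⟩
  have hIP : I ≤ P := fun x hx => ⟨hIN hx, I.pow_mem hx p⟩
  have hPN : P ≤ N := fun x hx => hx.1
  by_cases hPI : P = I
  · -- the p'-case
    set V := N ⧸ (I.subgroupOf N) with hV
    set m := Nat.card V with hm
    have hpow : ∀ x : N, (x ^ m : N) ∈ I.subgroupOf N := by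
      intro x
      rw [← QuotientGroup.eq_one_iff, QuotientGroup.mk_pow]
      exact pow_card_eq_one'
    have hcop : Nat.Coprime m p := by
      rw [Nat.coprime_comm, Nat.Prime.coprime_iff_not_dvd hpp.out]
      intro hdvd
      obtain ⟨v, hv⟩ := exists_prime_orderOf_dvd_card' p hdvd
      obtain ⟨x, rfl⟩ := QuotientGroup.mk'_surjective _ v
      have h1 : (QuotientGroup.mk' (I.subgroupOf N) x) ^ p = 1 := by
        rw [← hv]; exact pow_orderOf_eq_one _
      rw [← map_pow] at h1
      have h2 := Subgroup.mem_subgroupOf.mp ((QuotientGroup.eq_one_iff _).mp h1)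
      have h3 : (x : E) ∈ P := ⟨x.2, by simpa using h2⟩
      rw [hPI] at h3
      have h4 : (QuotientGroup.mk' (I.subgroupOf N) x) = 1 :=
        (QuotientGroup.eq_one_iff _).mpr (Subgroup.mem_subgroupOf.mpr h3)
      rw [h4, orderOf_one] at hv
      exact hpp.out.one_lt.ne hv
    have hfix : ∀ g : E, ∀ x ∈ N, g * x * g⁻¹ * x⁻¹ ∈ I := by
      intro g x hx
      by_contra hcon
      let x' : N := ⟨x, hx⟩
      have hmem : (MulAut.conjNormal g x' * x'⁻¹ : N) ∉ I.subgroupOf N := by
        intro h
        exact hcon (by simpa using Subgroup.mem_subgroupOf.mp h)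
      have hab' : ∀ a b : N, a * b * a⁻¹ * b⁻¹ ∈ I.subgroupOf N := fun a b =>
        Subgroup.mem_subgroupOf.mpr (hab a a.2 b b.2)
      obtain ⟨χ, hχ1, hχ2⟩ := exists_sep (I.subgroupOf N) hab' _ hmem
      apply hχ2
      have hχm : ∀ a, χ a ^ m = 1 := by
        intro a
        rw [← map_pow, hχ1 _ (hpow a)]
      have := DFunLike.congr_fun (hinv χ m hcop hχm g) x'
      rw [conjChar_apply] at this
      rw [map_mul, this, ← map_mul, mul_inv_cancel, map_one]
    apply Subgroup.normalizer_eq_top_iff.mp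
    apply hM.2
    refine lt_of_le_of_ne Subgroup.le_normalizer ?_
    intro h
    apply hNM
    rw [h]
    intro x hx
    rw [Subgroup.mem_normalizer_iff]
    have key : ∀ x ∈ N, ∀ g ∈ M, x * g * x⁻¹ ∈ M := by
      intro x hx g hg
      have h1 := hIM (I.inv_mem (hfix g x hx))
      have h2 := M.mul_mem h1 hg
      simpa [mul_assoc] using h2
    intro g
    constructor
    · exact key x hx g
    · intro hg
      have := key x⁻¹ (N.inv_mem hx) _ hg
      simpa [mul_assoc] using this
  · have hPeq : P = N := hchief P hPn hIP hPN hPI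
    refine normal_of_coatom_of_quot I ?_ M hM hIM
    have : IsPGroup p (E ⧸ I) := by
      intro q
      obtain ⟨g, rfl⟩ := QuotientGroup.mk'_surjective I q
      refine ⟨2, ?_⟩
      rw [← map_pow, QuotientGroup.mk'_apply, QuotientGroup.eq_one_iff]
      have h1 : g ^ p ∈ P := by rw [hPeq]; exact hp g
      have := h1.2
      rw [← pow_mul, ← pow_two] at this
      exact this
    exact this.isNilpotent

end crit

end Pool.Agent.Lib.MP_29fe3f_al
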