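import Pool.Agent.Lib.MP_29fe3f_al.Chain

/-!
Nilpotent groups: the class is bounded in terms of the number of zeros.
-/

set_option autoImplicit false
set_option linter.all false

namespace Pool.Agent.Lib.MP_29fe3f_al

open Subgroup
open scoped commutatorElement

section general

variable {G : Type} [Group G] [Finite G]

/-- Landau's bound for general invariant sets -/
theorem landau_general (X : Set G) (hXconj : ∀ y ∈ X, ∀ g : G, g * y * g⁻¹ ∈ X)
    {m n : ℕ} (hk : kcl X ≤ m) (a n' : ℕ) (hn' : 0 < n') (hn : n' ≤ n)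
    (hcard : X.ncard * n' = a * Nat.card G) (x : G) (hx : x ∈ X) :
    Nat.card (Subgroup.centralizer ({x} : Set G)) ≤ lan m n := by
  classical
  cases nonempty_fintype G
  haveI : Fintype (ConjClasses G) := Fintype.ofFinite _
  let s : Finset (ConjClasses G) := (ConjClasses.mk '' X).toFinset
  have hscard : s.card = kcl X := by
    rw [kcl, Set.ncard_eq_toFinset_card']
  let c : ConjClasses G → ℕ := fun q =>
    Nat.card (Subgroup.centralizer ({Quotient.out q} : Set G))
  have hcval : ∀ y : G, c (ConjClasses.mk y) * (cls y).ncard = Nat.card G := by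
    intro y
    have h1 : cls y = cls (Quotient.out (ConjClasses.mk y)) := by
      rw [cls_eq_carrier, cls_eq_carrier]
      have : ConjClasses.mk (Quotient.out (ConjClasses.mk y)) = ConjClasses.mk y :=
        Quotient.out_eq _
      rw [this]
    rw [h1, mul_comm]
    exact ncard_cls_mul _
  have hGpos : 0 < Nat.card G := Nat.card_pos
  have hcpos : ∀ q, 0 < c q := fun q => Nat.card_pos
  have hmem : ConjClasses.mk x ∈ s := by
    rw [Set.mem_toFinset]; exact ⟨x, hx, rfl⟩
  have hsum1 : (X.ncard : ℚ) = ∑ q ∈ s, ((Nat.card G : ℚ) * (1 / (c q : ℚ))) := by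
    rw [Set.ncard_eq_toFinset_card' X,
      Finset.card_eq_sum_card_fiberwise (f := ConjClasses.mk) (t := s)]
    · push_cast
      refine Finset.sum_congr rfl (fun q hq => ?_)
      rw [Set.mem_toFinset] at hq
      obtain ⟨y, hy, rfl⟩ := hq
      have h1 : (X.toFinset.filter (fun z => ConjClasses.mk z = ConjClasses.mk y)).card =
          (cls y).ncard := by
        rw [Set.ncard_eq_toFinset_card']
        congr 1
        ext z
        rw [Finset.mem_filter, Set.mem_toFinset, Set.mem_toFinset, cls_eq_carrier]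
        constructor
        · exact fun h => h.2
        · intro h
          refine ⟨?_, h⟩
          rw [← cls_eq_carrier] at h
          obtain ⟨g, rfl⟩ := h
          exact hXconj y hy g
      rw [h1, ← hcval y]
      have : (c (ConjClasses.mk y) : ℚ) ≠ 0 := by exact_mod_cast (hcpos _).ne'
      push_cast
      field_simp
    · intro z hz
      rw [Set.coe_toFinset]
      rw [Finset.mem_coe, Set.mem_toFinset] at hz
      exact ⟨z, hz, rfl⟩
  have hsum : ∑ q ∈ s, (1 / (c q : ℚ)) = (a : ℚ) / n' := by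
    rw [← Finset.mul_sum] at hsum1
    have hG0 : (Nat.card G : ℚ) ≠ 0 := by exact_mod_cast hGpos.ne'
    have hi0 : (n' : ℚ) ≠ 0 := by exact_mod_cast hn'.ne'
    have h2 : (X.ncard : ℚ) * n' = a * Nat.card G := by exact_mod_cast hcard
    rw [hsum1] at h2
    rw [eq_div_iff hi0]
    apply mul_left_cancel₀ hG0
    rw [← mul_assoc, h2]; ring
  have hl := landau s.card n s c (fun i _ => hcpos i) rfl ⟨a, n', hn', hn, hsum⟩ _ hmem
  have hn1 : 1 ≤ n := le_trans hn' hn
  have hfin : c (ConjClasses.mk x) ≤ lan m n :=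
    le_trans hl (lan_mono_left hn1 (by rw [hscard]; exact hk))
  have h5 : c (ConjClasses.mk x) = Nat.card (Subgroup.centralizer ({x} : Set G)) := by
    have h6 := hcval x
    have h7 := ncard_cls_mul x
    rw [mul_comm] at h7
    exact Nat.eq_of_mul_eq_mul_right (ncard_cls_pos x) (h6.trans h7.symm)
  rw [← h5]
  exact hfin

/-- Landau's bound for invariant unions of cosets -/
theorem landau_cosets (K : Subgroup G) [K.Normal] (X : Set G)
    (hXconj : ∀ y ∈ X, ∀ g : G, g * y * g⁻¹ ∈ X) (hXK : ∀ y ∈ X, ∀ k ∈ K, y * k ∈ X)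
    {m n : ℕ} (hk : kcl X ≤ m) (hn : K.index ≤ n) (x : G) (hx : x ∈ X) :
    Nat.card (Subgroup.centralizer ({x} : Set G)) ≤ lan m n := by
  have h1 : X = (QuotientGroup.mk : G → G ⧸ K) ⁻¹' ((QuotientGroup.mk : G → G ⧸ K) '' X) := by
    apply Set.Subset.antisymm
    · exact Set.subset_preimage_image _ _
    · rintro y ⟨z, hz, hzy⟩
      have := hXK z hz _ (QuotientGroup.eq.mp hzy)
      simpa using this
  have h2 : X.ncard = Nat.card K * Nat.card ((QuotientGroup.mk : G → G ⧸ K) '' X) := by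
    conv_lhs => rw [h1]
    rw [← Nat.card_coe_set_eq, QuotientGroup.card_preimage_mk]
  have hidx : 0 < K.index := Nat.pos_of_ne_zero Subgroup.index_ne_zero_of_finite
  refine landau_general X hXconj hk (Nat.card ((QuotientGroup.mk : G → G ⧸ K) '' X)) K.index
    hidx hn ?_ x hx
  rw [h2, ← Subgroup.card_mul_index K]
  ring

end general

section dead2

variable {T : Type} [Group T] [Finite T]

/-- the elements `y` with `y M` inside `y^T K` -/
def deadSet (K M : Subgroup T) : Set T := {y | ∀ r ∈ M, ∃ g : T, ∃ k ∈ K, y * r = g * y * g⁻¹ * k}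

omit [Finite T] in
theorem deadSet_conj (K M : Subgroup T) [hK : K.Normal] [hM : M.Normal] :
    ∀ y ∈ deadSet K M, ∀ h : T, h * y * h⁻¹ ∈ deadSet K M := by
  intro y hy h r hr
  obtain ⟨g, k, hk, e⟩ := hy (h⁻¹ * r * h) (by simpa using hM.conj_mem r hr h⁻¹)
  refine ⟨h * g * h⁻¹, h * k * h⁻¹, hK.conj_mem k hk h, ?_⟩
  calc h * y * h⁻¹ * r = h * (y * (h⁻¹ * r * h)) * h⁻¹ := by group
    _ = h * (g * y * g⁻¹ * k) * h⁻¹ := by rw [e]
    _ = h * g * h⁻¹ * (h * y * h⁻¹) * (h * g * h⁻¹)⁻¹ * (h * k * h⁻¹) := by group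

omit [Finite T] in
theorem deadSet_mul (K M : Subgroup T) [hK : K.Normal] :
    ∀ y ∈ deadSet K M, ∀ k ∈ K, y * k ∈ deadSet K M := by
  intro y hy k0 hk0 r hr
  obtain ⟨g, k, hk, e⟩ := hy r hr
  refine ⟨g, g * k0⁻¹ * g⁻¹ * k * (r⁻¹ * k0 * r), ?_, ?_⟩
  · apply K.mul_mem
    · exact K.mul_mem (hK.conj_mem _ (K.inv_mem hk0) g) hk
    · simpa using hK.conj_mem _ hk0 r⁻¹
  · calc y * k0 * r = y * r * (r⁻¹ * k0 * r) := by group
      _ = g * y * g⁻¹ * k * (r⁻¹ * k0 * r) := by rw [e]
      _ = g * (y * k0) * g⁻¹ * (g * k0⁻¹ * g⁻¹ * k * (r⁻¹ * k0 * r)) := by group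

theorem van_deadSet (K M : Subgroup T) [hK : K.Normal] [hM : M.Normal] (hKM : K < M) :
    Van T (deadSet K M) := by
  obtain ⟨W, i1, i2, i3, ρ, hρ, h⟩ := exists_dead K M hKM.le (SetLike.exists_of_lt hKM)
  exact ⟨W, i1, i2, i3, ρ, hρ, h⟩

/-- a minimal normal subgroup over `K` in a nilpotent group is central modulo `K` -/
theorem exists_min_over (hT : Group.IsNilpotent T) (K : Subgroup T) [hK : K.Normal] (hne : K ≠ ⊤) :
    ∃ M : Subgroup T, M.Normal ∧ K < M ∧ (∀ z ∈ M, ∀ g : T, ⁅z, g⁆ ∈ K) ∧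
      ∀ M' : Subgroup T, M'.Normal → K < M' → M' ≤ M → M' = M := by
  obtain ⟨M, hM⟩ := (Set.toFinite {M : Subgroup T | M.Normal ∧ K < M}).exists_minimal
    ⟨⊤, inferInstance, lt_top_iff_ne_top.mpr hne⟩
  obtain ⟨⟨hMn, hKM⟩, hmin⟩ := hM
  have hmin' : ∀ M' : Subgroup T, M'.Normal → K < M' → M' ≤ M → M' = M :=
    fun M' h1 h2 h3 => le_antisymm h3 (hmin ⟨h1, h2⟩ h3)
  refine ⟨M, hMn, hKM, ?_, hmin'⟩
  haveI := hMn
  haveI := hT
  obtain ⟨a, haM, haK, hac⟩ := exists_central_rel (⊤ : Subgroup T) K M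
    (inferInstance) hKM.le le_top hKM.ne
  have hKR : K < relCenter (⊤ : Subgroup T) K M := by
    refine lt_of_le_of_ne ?_ ?_
    · intro x hx
      refine ⟨hKM.le hx, fun l _ => ?_⟩
      have := K.mul_mem hx (hK.conj_mem _ (K.inv_mem hx) l)
      simpa [mul_assoc] using this
    · intro h
      apply haK
      rw [h]
      exact ⟨haM, hac⟩
  have heq := hmin' (relCenter (⊤ : Subgroup T) K M) inferInstance hKR (fun x hx => hx.1)
  intro z hz g
  rw [← heq] at hz
  exact hz.2 g (Subgroup.mem_top g)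

/-- if `y` is central modulo `M` but not modulo `K` then it is dead -/
theorem mem_deadSet (K M : Subgroup T) [hK : K.Normal] [hM : M.Normal] (hKM : K < M)
    (hc : ∀ z ∈ M, ∀ g : T, ⁅z, g⁆ ∈ K)
    (hmin : ∀ M' : Subgroup T, M'.Normal → K < M' → M' ≤ M → M' = M)
    (y : T) (hyM : ∀ t : T, ⁅y, t⁆ ∈ M) (hyK : ∃ t : T, ⁅y, t⁆ ∉ K) : y ∈ deadSet K M := by
  have hyM' : ∀ t : T, ⁅y⁻¹, t⁆ ∈ M := by
    intro t
    have := hM.conj_mem _ (M.inv_mem (hyM t)) y⁻¹
    rw [commutatorElement_def] at this ⊢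
    simpa [mul_assoc] using this
  -- conjugation is trivial on M modulo K
  have hconj : ∀ z ∈ M, ∀ g : T, z⁻¹ * (g * z * g⁻¹) ∈ K := by
    intro z hz g
    have := hc z⁻¹ (M.inv_mem hz) g
    rw [commutatorElement_def] at this
    simpa [mul_assoc] using this
  let Q : Subgroup T :=
    { carrier := {z | z ∈ M ∧ ∃ g : T, z⁻¹ * ⁅y⁻¹, g⁆ ∈ K}
      mul_mem' := by
        rintro z w ⟨hz, g, hg⟩ ⟨hw, h, hh⟩
        refine ⟨M.mul_mem hz hw, g * h, ?_⟩
        -- ⁅y⁻¹, g h⁆ = ⁅y⁻¹,g⁆ * g ⁅y⁻¹,h⁆ g⁻¹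
        have e1 : ⁅y⁻¹, g * h⁆ = ⁅y⁻¹, g⁆ * (g * ⁅y⁻¹, h⁆ * g⁻¹) := by
          simp only [commutatorElement_def]; group
        have m1 := hconj _ (hyM' h) g
        set u := ⁅y⁻¹, g⁆ with hu
        set v := ⁅y⁻¹, h⁆ with hv
        rw [e1]
        -- (z w)⁻¹ u (g v g⁻¹) = w⁻¹ (z⁻¹ u) w * w⁻¹ v * v⁻¹ (g v g⁻¹)
        have m2 : w⁻¹ * (z⁻¹ * u) * w ∈ K := by simpa using hK.conj_mem _ hg w⁻¹
        have m3 := K.mul_mem (K.mul_mem m2 hh) m1
        have e2 : w⁻¹ * (z⁻¹ * u) * w * (w⁻¹ * v) * (v⁻¹ * (g * v * g⁻¹)) =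
            (z * w)⁻¹ * (u * (g * v * g⁻¹)) := by group
        rwa [e2] at m3
      one_mem' := ⟨M.one_mem, 1, by simp [K.one_mem]⟩
      inv_mem' := by
        rintro z ⟨hz, g, hg⟩
        refine ⟨M.inv_mem hz, g⁻¹, ?_⟩
        have e1 : ⁅y⁻¹, g⁻¹⁆ = g⁻¹ * (⁅y⁻¹, g⁆)⁻¹ * g := by
          simp only [commutatorElement_def]; group
        have m1 := hconj _ (M.inv_mem (hyM' g)) g⁻¹
        rw [inv_inv] at m1
        rw [e1]
        set u := ⁅y⁻¹, g⁆ with hu
        -- z * (g⁻¹ u⁻¹ g) = z * u⁻¹ * u * g⁻¹ u⁻¹ g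
        have m2 : z * u⁻¹ ∈ K := by
          have h1 := hK.conj_mem _ (K.inv_mem hg) z
          have e3 : z * (z⁻¹ * u)⁻¹ * z⁻¹ = z * u⁻¹ := by group
          rwa [e3] at h1
        have m3 := K.mul_mem m2 m1
        have e2 : z * u⁻¹ * (u⁻¹⁻¹ * (g⁻¹ * u⁻¹ * g)) = z⁻¹⁻¹ * (g⁻¹ * u⁻¹ * g) := by group
        rw [inv_inv] at e2
        rw [inv_inv] at m3
        rw [inv_inv]
        rw [inv_inv] at e2
        rw [e2] at m3
        exact m3 }
  have hKQ : K ≤ Q := by
    intro z hz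
    exact ⟨hKM.le hz, 1, by simpa using hz⟩
  have hQM : Q ≤ M := fun z hz => hz.1
  have hQn : Q.Normal := by
    refine ⟨?_⟩
    intro z hz g
    have h1 := hKQ (hconj z hz.1 g)
    have h2 := Q.mul_mem hz h1
    simpa [mul_assoc] using h2
  have hQK : K < Q := by
    refine lt_of_le_of_ne hKQ ?_
    intro h
    obtain ⟨t, ht⟩ := hyK
    have h1 : ⁅y⁻¹, t⁆ ∈ Q := ⟨hyM' t, t, by rw [inv_mul_cancel]; exact K.one_mem⟩
    rw [← h] at h1
    apply ht
    have h2 := hK.conj_mem _ (K.inv_mem h1) y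
    have e : y * (⁅y⁻¹, t⁆)⁻¹ * y⁻¹ = ⁅y, t⁆ := by
      simp only [commutatorElement_def]; group
    rwa [e] at h2
  have hQ := hmin Q hQn hQK hQM
  intro r hr
  rw [← hQ] at hr
  obtain ⟨_, g, hg⟩ := hr
  refine ⟨g, (r⁻¹ * ⁅y⁻¹, g⁆)⁻¹, K.inv_mem hg, ?_⟩
  simp only [commutatorElement_def]
  group

/-- noncentral elements modulo `K` have bounded centralisers -/
theorem card_centralizer_nilp {m n : ℕ} (hT : Group.IsNilpotent T) (hG : ZeroBound T m)
    (K : Subgroup T) [hK : K.Normal] (hn : K.index ≤ n) (y : T) (hy : ∃ t : T, ⁅y, t⁆ ∉ K) :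
    Nat.card (Subgroup.centralizer ({y} : Set T)) ≤ lan m n := by
  obtain ⟨K', hK'⟩ := (Set.toFinite {K' : Subgroup T | K'.Normal ∧ K ≤ K' ∧
    ∃ t : T, ⁅y, t⁆ ∉ K'}).exists_maximal ⟨K, hK, le_refl _, hy⟩
  obtain ⟨⟨hK'n, hKK', t, ht⟩, hmax⟩ := hK'
  have hne : K' ≠ ⊤ := by
    intro h
    apply ht
    rw [h]
    exact Subgroup.mem_top _
  haveI := hK'n
  obtain ⟨M, hMn, hKM, hc, hmin⟩ := exists_min_over hT K' hne
  haveI := hMn
  have hyM : ∀ t : T, ⁅y, t⁆ ∈ M := by
    by_contra hcon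
    push Not at hcon
    have := hmax ⟨hMn, le_trans hKK' hKM.le, hcon⟩ hKM.le
    exact absurd this (not_le_of_gt hKM)
  have hmem := mem_deadSet K' M hKM hc hmin y hyM ⟨t, ht⟩
  exact landau_cosets K' (deadSet K' M) (deadSet_conj K' M) (deadSet_mul K' M)
    ((van_deadSet K' M hKM).kcl_le hG)
    (le_trans (Nat.le_of_dvd (Nat.pos_of_ne_zero Subgroup.index_ne_zero_of_finite)
      (Subgroup.index_dvd_of_le hKK')) hn) y hmem

/-- some element has a bounded centraliser -/
theorem exists_small_centralizer {m : ℕ} (hT : Group.IsNilpotent T) (hG : ZeroBound T m)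
    (hna : ∃ x y : T, ⁅x, y⁆ ≠ 1) :
    ∃ x : T, Nat.card (Subgroup.centralizer ({x} : Set T)) ≤ lan m (m + 1) := by
  classical
  obtain ⟨x0, y0, hxy⟩ := hna
  obtain ⟨K, hK⟩ := (Set.toFinite {K : Subgroup T | K.Normal ∧
    ∃ x y : T, ⁅x, y⁆ ∉ K}).exists_maximal ⟨⊥, inferInstance, x0, y0, by
      rw [Subgroup.mem_bot]; exact hxy⟩
  obtain ⟨⟨hKn, a, b, hab⟩, hmax⟩ := hK
  have hne : K ≠ ⊤ := by
    intro h
    apply hab
    rw [h]
    exact Subgroup.mem_top _
  haveI := hKn
  obtain ⟨M, hMn, hKM, hc, hmin⟩ := exists_min_over hT K hne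
  haveI := hMn
  have hTM : ∀ x t : T, ⁅x, t⁆ ∈ M := by
    by_contra hcon
    push Not at hcon
    have := hmax ⟨hMn, hcon⟩ hKM.le
    exact absurd this (not_le_of_gt hKM)
  set Z : Subgroup T := relCenter (⊤ : Subgroup T) K ⊤ with hZ
  have hMZ : M ≤ Z := fun z hz => ⟨Subgroup.mem_top _, fun g _ => hc z hz g⟩
  have hsub : ((⊤ : Subgroup T) : Set T) \ Z ⊆ deadSet K M := by
    rintro y ⟨_, hy⟩
    apply mem_deadSet K M hKM hc hmin y (hTM y)
    by_contra hcon
    push Not at hcon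
    exact hy ⟨Subgroup.mem_top _, fun g _ => hcon g⟩
  have hk : kcl (((⊤ : Subgroup T) : Set T) \ Z) ≤ m :=
    le_trans (kcl_mono hsub) ((van_deadSet K M hKM).kcl_le hG)
  -- the index of Z
  have hidx : Z.index ≤ m + 1 := by
    have h1 := kcl_image_le (QuotientGroup.mk' Z) (((⊤ : Subgroup T) : Set T) \ Z)
    have h2 : kcl ({q : T ⧸ Z | q ≠ 1}) ≤ m := by
      refine le_trans (kcl_mono ?_) (le_trans h1 hk)
      intro q hq
      obtain ⟨x, rfl⟩ := QuotientGroup.mk'_surjective Z q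
      refine ⟨x, ⟨Subgroup.mem_top x, ?_⟩, rfl⟩
      intro hx
      exact hq ((QuotientGroup.eq_one_iff x).mpr hx)
    have hcomm : ∀ q r : T ⧸ Z, q * r = r * q := by
      intro q r
      obtain ⟨x, rfl⟩ := QuotientGroup.mk'_surjective Z q
      obtain ⟨y, rfl⟩ := QuotientGroup.mk'_surjective Z r
      rw [← map_mul, ← map_mul]
      apply QuotientGroup.eq.mpr
      have := hMZ (hTM y⁻¹ x⁻¹)
      rw [commutatorElement_def] at this
      simpa [mul_assoc] using this
    have hinj : Set.InjOn (ConjClasses.mk : T ⧸ Z → ConjClasses (T ⧸ Z)) {q | q ≠ 1} := by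
      intro q _ r _ hqr
      rw [ConjClasses.mk_eq_mk_iff_isConj, isConj_iff] at hqr
      obtain ⟨c, hc⟩ := hqr
      rw [hcomm c q, mul_inv_cancel_right] at hc
      exact hc
    have h3 : kcl ({q : T ⧸ Z | q ≠ 1}) = ({q : T ⧸ Z | q ≠ 1}).ncard := by
      rw [kcl, Set.ncard_image_of_injOn hinj]
    have h4 : ({q : T ⧸ Z | q ≠ 1}).ncard = Z.index - 1 := by
      have h5 : {q : T ⧸ Z | q ≠ 1} = ({1} : Set (T ⧸ Z))ᶜ := by ext q; simp
      rw [h5, Set.ncard_compl, Set.ncard_singleton]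
      rfl
    omega
  -- an element outside Z
  obtain ⟨x, hx⟩ : ∃ x : T, x ∉ Z := ⟨a, fun h => hab (h.2 b (Subgroup.mem_top b))⟩
  exact ⟨x, card_centralizer_le Z ⊤ le_top hk hidx x (Subgroup.mem_top x) hx⟩

theorem lcs_index_le {B : ℕ} (x : T)
    (hx : Nat.card (Subgroup.centralizer ({x} : Set T)) ≤ B) (i : ℕ) :
    ((⊤ : Subgroup T).lowerCentralSeries i).index ≤ B ^ i := by
  induction i with
  | zero => rw [Subgroup.lowerCentralSeries_zero, Subgroup.index_top, pow_zero]
  | succ i ih =>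
    set K := (⊤ : Subgroup T).lowerCentralSeries (i + 1) with hK
    set A := (⊤ : Subgroup T).lowerCentralSeries i with hA
    have hKA : K ≤ A := Subgroup.lowerCentralSeries_antitone _ (Nat.le_succ i)
    have h1 := Subgroup.card_mul_index (A.map (QuotientGroup.mk' K))
    have h2 : (A.map (QuotientGroup.mk' K)).index = A.index :=
      Subgroup.index_map_eq A (QuotientGroup.mk'_surjective K) (by
        rw [QuotientGroup.ker_mk']; exact hKA)
    have h3 : Nat.card (T ⧸ K) = K.index := rfl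
    have h4 : Nat.card (A.map (QuotientGroup.mk' K)) ≤ B := by
      refine le_trans ?_ (le_trans (qc_le K x) hx)
      rw [qc]
      apply Nat.card_le_card_of_injective (fun q : A.map (QuotientGroup.mk' K) =>
        (⟨q.1, ?_⟩ : Subgroup.centralizer ({QuotientGroup.mk' K x} : Set (T ⧸ K))))
      · intro q r h
        have := congrArg (fun z : Subgroup.centralizer ({QuotientGroup.mk' K x} : Set (T ⧸ K)) =>
          (z : T ⧸ K)) h
        exact Subtype.ext this
      · obtain ⟨q, a, ha, rfl⟩ := q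
        rw [Subgroup.mem_centralizer_singleton_iff]
        show QuotientGroup.mk' K a * QuotientGroup.mk' K x =
          QuotientGroup.mk' K x * QuotientGroup.mk' K a
        rw [← map_mul, ← map_mul]
        apply QuotientGroup.eq.mpr
        have h5 : ⁅a⁻¹, x⁻¹⁆ ∈ K :=
          Subgroup.commutator_mem_commutator (A.inv_mem ha) (Subgroup.mem_top _)
        have h6 := K.inv_mem h5
        rw [commutatorElement_def] at h6
        simpa [mul_assoc] using h6
    rw [h2, h3] at h1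
    rw [← h1, pow_succ, mul_comm (B ^ i)]
    exact Nat.mul_le_mul h4 ih

/-- bound for the class of a nilpotent group -/
def nilpBound (m : ℕ) : ℕ :=
  max (m + 1) ((m + 1) * lan m ((lan m (m + 1)) ^ (m + 2)))

theorem nilp_class_le {m : ℕ} (hT : Group.IsNilpotent T) (hG : ZeroBound T m) :
    (⊤ : Subgroup T).lowerCentralSeries (nilpBound m) = ⊥ := by
  classical
  by_contra hcon
  set h := nilpBound m with hh
  have hm1 : m + 1 ≤ h := le_max_left _ _
  have hm2 : (m + 1) * lan m ((lan m (m + 1)) ^ (m + 2)) ≤ h := le_max_right _ _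
  -- strictness
  have hne : ∀ i ≤ h, (⊤ : Subgroup T).lowerCentralSeries i ≠ ⊥ := by
    intro i hi h0
    apply hcon
    rw [eq_bot_iff, ← h0]
    exact Subgroup.lowerCentralSeries_antitone _ hi
  have hlt : ∀ i ≤ h, (⊤ : Subgroup T).lowerCentralSeries (i + 1) <
      (⊤ : Subgroup T).lowerCentralSeries i := by
    intro i hi
    refine lt_of_le_of_ne (Subgroup.lowerCentralSeries_antitone _ (Nat.le_succ i)) ?_
    intro heq
    apply hne i hi
    have hall : ∀ k, (⊤ : Subgroup T).lowerCentralSeries (i + k) =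
        (⊤ : Subgroup T).lowerCentralSeries i := by
      intro k
      induction k with
      | zero => rfl
      | succ k ih =>
        have : (⊤ : Subgroup T).lowerCentralSeries (i + (k + 1)) =
          ⁅(⊤ : Subgroup T).lowerCentralSeries (i + k), ⊤⁆ := rfl
        rw [this, ih]
        exact heq
    obtain ⟨n, hn⟩ := Subgroup.nilpotent_iff_lowerCentralSeries.mp hT
    rw [eq_bot_iff, ← hn, ← hall n]
    exact Subgroup.lowerCentralSeries_antitone _ (Nat.le_add_left n i)
  -- non-abelian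
  have hna : ∃ x y : T, ⁅x, y⁆ ≠ 1 := by
    by_contra hab
    push Not at hab
    apply hne 1 (by omega)
    rw [eq_bot_iff, Subgroup.lowerCentralSeries_succ, Subgroup.commutator_le]
    intro a _ b _
    rw [hab]
    exact Subgroup.one_mem _
  obtain ⟨x, hx⟩ := exists_small_centralizer hT hG hna
  set B := lan m (m + 1) with hB
  have hidx := lcs_index_le x hx (m + 2)
  -- the elements
  have hex : ∀ j : Fin (m + 1), ∃ z : T, z ∈ (⊤ : Subgroup T).lowerCentralSeries j ∧
      z ∉ (⊤ : Subgroup T).lowerCentralSeries (j + 1) ∧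
      Nat.card (Subgroup.centralizer ({z} : Set T)) ≤ lan m (B ^ (m + 2)) := by
    intro j
    have hj := j.2
    set K := (⊤ : Subgroup T).lowerCentralSeries (m + 2) with hK
    set C := relCenter (⊤ : Subgroup T) K ((⊤ : Subgroup T).lowerCentralSeries j) with hC
    obtain ⟨a, ha, ha'⟩ := SetLike.exists_of_lt (hlt j (by omega))
    obtain ⟨b, hb, hb'⟩ : ∃ b ∈ (⊤ : Subgroup T).lowerCentralSeries j, b ∉ C := by
      by_contra hcon2
      push Not at hcon2
      have h1 : (⊤ : Subgroup T).lowerCentralSeries (j + 1) ≤ K := by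
        rw [Subgroup.lowerCentralSeries_succ, Subgroup.commutator_le]
        intro p hp q hq
        exact (hcon2 p hp).2 q hq
      have h2 : (⊤ : Subgroup T).lowerCentralSeries (m + 1) ≤
          (⊤ : Subgroup T).lowerCentralSeries (j + 1) :=
        Subgroup.lowerCentralSeries_antitone _ (by omega)
      exact absurd (le_trans h2 h1) (not_le_of_gt (hlt (m + 1) (by omega)))
    obtain ⟨z, hz1, hz2, hz3⟩ : ∃ z ∈ (⊤ : Subgroup T).lowerCentralSeries j,
        z ∉ (⊤ : Subgroup T).lowerCentralSeries (j + 1) ∧ z ∉ C := by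
      by_cases h1 : a ∈ C
      · by_cases h2 : b ∈ (⊤ : Subgroup T).lowerCentralSeries (j + 1)
        · refine ⟨a * b, Subgroup.mul_mem _ ha hb, ?_, ?_⟩
          · intro h3
            apply ha'
            have := Subgroup.mul_mem _ h3 (Subgroup.inv_mem _ h2)
            simpa using this
          · intro h3
            apply hb'
            have := Subgroup.mul_mem _ (Subgroup.inv_mem _ h1) h3
            simpa using this
        · exact ⟨b, hb, h2, hb'⟩
      · exact ⟨a, ha, ha', h1⟩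
    refine ⟨z, hz1, hz2, ?_⟩
    apply card_centralizer_nilp hT hG K hidx z
    by_contra hcon3
    push Not at hcon3
    exact hz3 ⟨hz1, fun g _ => hcon3 g⟩
  choose z hz1 hz2 hz3 using hex
  have hfin := dead_step m (lan m (B ^ (m + 2))) (h + 1) hG
    (fun i => (⊤ : Subgroup T).lowerCentralSeries (h + 1 - i)) (fun i => inferInstance) (by
      intro i hi
      have e : h + 1 - i = (h + 1 - (i + 1)) + 1 := by omega
      show (⊤ : Subgroup T).lowerCentralSeries (h + 1 - i) <
        (⊤ : Subgroup T).lowerCentralSeries (h + 1 - (i + 1))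
      rw [e]
      exact hlt _ (by omega)) z (by
      have key : ∀ i j : Fin (m + 1), i < j → ¬ IsConj (z i) (z j) := by
        intro i j hij hc
        rw [isConj_comm, isConj_iff] at hc
        obtain ⟨c, hc⟩ := hc
        have hij' : (i : ℕ) < j := hij
        have h1 : z j ∈ (⊤ : Subgroup T).lowerCentralSeries (i + 1) :=
          Subgroup.lowerCentralSeries_antitone _ (by omega) (hz1 j)
        apply hz2 i
        rw [← hc]
        have hnorm : ((⊤ : Subgroup T).lowerCentralSeries (i + 1)).Normal := inferInstance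
        exact hnorm.conj_mem _ h1 c
      intro i j hij
      rcases lt_or_gt_of_ne hij with h1 | h1
      · exact key i j h1
      · intro hc
        exact key j i h1 (isConj_comm.mpr hc)) hz3
  omega

end dead2

end Pool.Agent.Lib.MP_29fe3f_al
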