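import Pool.Agent.Lib.MP_29fe3f_al.Kreknin

/-!
Higman's theorem for Lie rings with a fixed-point-free automorphism of prime order.
-/

set_option autoImplicit false
set_option linter.all false

namespace Pool.Agent.Lib.MP_29fe3f_al

section conv

variable {V : Type} [AddCommGroup V] (B : LieBr V) (r : ℕ) [NeZero r]

/-- convolution product on functions -/
def convF (f g : ZMod r → V) : ZMod r → V := fun k => ∑ i, B.br (f i) (g (k - i))

/-- the convolution product as a biadditive map -/
def convH : (ZMod r → V) →+ (ZMod r → V) →+ (ZMod r → V) :=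
  AddMonoidHom.mk' (fun f => AddMonoidHom.mk' (fun g => convF B r f g) (by
      intro g g'
      funext k
      show ∑ i, B.br (f i) (g (k - i) + g' (k - i)) = _
      simp only [map_add, Finset.sum_add_distrib]
      rfl)) (by
    intro f f'
    apply AddMonoidHom.ext
    intro g
    funext k
    show ∑ i, B.br (f i + f' i) (g (k - i)) = _
    simp only [map_add, AddMonoidHom.add_apply, Finset.sum_add_distrib]
    rfl)

theorem convH_apply (f g : ZMod r → V) (k : ZMod r) :
    convH B r f g k = ∑ i, B.br (f i) (g (k - i)) := rfl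

/-- the Lie ring of functions with convolution -/
def convB : LieBr (ZMod r → V) where
  br := convH B r
  anti := by
    intro f g
    funext k
    rw [Pi.neg_apply, convH_apply, convH_apply, ← Finset.sum_neg_distrib]
    rw [← Equiv.sum_comp (Equiv.subLeft k)]
    refine Finset.sum_congr rfl (fun i _ => ?_)
    rw [Equiv.subLeft_apply, sub_sub_cancel, B.anti]
  jac := by
    intro f g h
    funext k
    rw [Pi.add_apply, convH_apply, convH_apply, convH_apply]
    have e1 : ∀ i : ZMod r, B.br (convH B r f g i) (h (k - i)) =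
        ∑ j, (B.br (B.br (f j) (h (k - i))) (g (i - j)) +
          B.br (f j) (B.br (g (i - j)) (h (k - i)))) := by
      intro i
      rw [convH_apply, map_sum, AddMonoidHom.finsetSum_apply]
      exact Finset.sum_congr rfl (fun j _ => B.jac _ _ _)
    rw [Finset.sum_congr rfl (fun i _ => e1 i)]
    have e2 : ∀ i : ZMod r, B.br (convH B r f h i) (g (k - i)) =
        ∑ j, B.br (B.br (f j) (h (i - j))) (g (k - i)) := by
      intro i
      rw [convH_apply, map_sum, AddMonoidHom.finsetSum_apply]
    rw [Finset.sum_congr rfl (fun i _ => e2 i)]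
    have e3 : ∀ i : ZMod r, B.br (f i) (convH B r g h (k - i)) =
        ∑ j, B.br (f i) (B.br (g j) (h (k - i - j))) := by
      intro i
      rw [convH_apply, map_sum]
    rw [Finset.sum_congr rfl (fun i _ => e3 i)]
    rw [Finset.sum_comm, Finset.sum_comm (s := Finset.univ) (t := Finset.univ)
      (f := fun i j => B.br (B.br (f j) (h (i - j))) (g (k - i))), ← Finset.sum_add_distrib]
    refine Finset.sum_congr rfl (fun j _ => ?_)
    rw [Finset.sum_add_distrib]
    congr 1
    · rw [← Equiv.sum_comp (Equiv.subLeft (k + j))]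
      refine Finset.sum_congr rfl (fun i _ => ?_)
      rw [Equiv.subLeft_apply]
      have h1 : k - (k + j - i) = i - j := by ring
      have h2 : k + j - i - j = k - i := by ring
      rw [h1, h2]
    · rw [← Equiv.sum_comp (Equiv.addRight j)]
      refine Finset.sum_congr rfl (fun i _ => ?_)
      rw [Equiv.coe_addRight]
      have h1 : i + j - j = i := by ring
      have h2 : k - (i + j) = k - j - i := by ring
      rw [h1, h2]

end conv

section reg

variable {V : Type} [AddCommGroup V] (B : LieBr V) {r : ℕ} [hr : Fact r.Prime]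

/-- lower central series -/
def ln : ℕ → AddSubgroup V
  | 0 => ⊤
  | n + 1 => bk B (ln n) ⊤

/-- eigenspaces -/
def eigS (φ : V →+ V) (i : ZMod r) : AddSubgroup (ZMod r → V) where
  carrier := {f | ∀ k, φ (f k) = f (k - i)}
  add_mem' := by
    intro f g hf hg k
    rw [Pi.add_apply, map_add, hf, hg]; rfl
  zero_mem' := by intro k; simp
  neg_mem' := by
    intro f hf k
    rw [Pi.neg_apply, map_neg, hf]; rfl

/-- `r δ_0 a - const a` -/
def bigF (r : ℕ) : V →+ (ZMod r → V) :=
  AddMonoidHom.mk' (fun a k => (if k = 0 then r • a else 0) - a) (by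
    intro a b
    funext k
    rw [Pi.add_apply]
    split_ifs
    · rw [smul_add]; abel
    · abel)

theorem bigF_apply (a : V) (k : ZMod r) :
    bigF r a k = (if k = 0 then r • a else 0) - a := rfl

theorem act_eigS (φ : V →+ V) (hφ : ∀ x y, φ (B.br x y) = B.br (φ x) (φ y)) :
    Act (convB B r) (eigS φ) (eigS φ) (eigS (r := r) φ) := by
  intro i j f hf g hg k
  show φ (convH B r f g k) = convH B r f g (k - (i + j))
  rw [convH_apply, convH_apply, map_sum]
  rw [← Equiv.sum_comp (Equiv.addRight i)]
  refine Finset.sum_congr rfl (fun l _ => ?_)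
  rw [hφ, hf, hg, Equiv.coe_addRight]
  have h1 : l + i - i = l := by ring
  have h2 : k - (l + i) - j = k - (i + j) - l := by ring
  rw [h1, h2]

theorem bigF_mul (a b : V) : convH B r (bigF r a) (bigF r b) = r • bigF r (B.br a b) := by
  funext k
  rw [convH_apply, Pi.smul_apply, bigF_apply]
  have e : ∀ i : ZMod r, B.br (bigF r a i) (bigF r b (k - i)) =
      (if i = 0 then (if k = 0 then (r * r) • B.br a b else 0) else 0) -
      (if i = 0 then r • B.br a b else 0) - (if i = k then r • B.br a b else 0) + B.br a b := by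
    intro i
    rw [bigF_apply, bigF_apply]
    by_cases h1 : i = 0
    · subst h1
      simp only [sub_zero, if_true]
      by_cases h2 : k = 0
      · subst h2
        simp only [if_true, map_sub, AddMonoidHom.sub_apply, map_nsmul, AddMonoidHom.nsmul_apply,
          mul_smul, smul_sub]
        abel
      · rw [if_neg h2, if_neg h2, if_neg (fun h => h2 h.symm)]
        simp only [map_sub, AddMonoidHom.sub_apply, map_nsmul, AddMonoidHom.nsmul_apply, map_zero]
        abel
    · rw [if_neg h1, if_neg h1, if_neg h1]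
      by_cases h2 : i = k
      · subst h2
        rw [sub_self, if_pos rfl, if_pos rfl]
        simp only [map_sub, AddMonoidHom.sub_apply, map_nsmul, map_zero, zero_sub, map_neg,
          AddMonoidHom.neg_apply, smul_neg, AddMonoidHom.zero_apply]
        abel
      · rw [if_neg h2, if_neg (fun h => h2 (sub_eq_zero.mp h).symm)]
        simp only [map_sub, AddMonoidHom.sub_apply, map_zero, AddMonoidHom.zero_apply]
        abel
  rw [Finset.sum_congr rfl (fun i _ => e i), Finset.sum_add_distrib, Finset.sum_sub_distrib,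
    Finset.sum_sub_distrib, Finset.sum_ite_eq', Finset.sum_ite_eq', Finset.sum_ite_eq',
    Finset.sum_const, Finset.card_univ, ZMod.card]
  simp only [Finset.mem_univ, if_true]
  by_cases h : k = 0
  · rw [if_pos h, if_pos h, smul_sub, smul_smul]
    abel
  · rw [if_neg h, if_neg h, smul_sub, smul_zero]
    abel

theorem iter_mod (φ : V →+ V) (hr' : ∀ x, φ^[r] x = x) (n : ℕ) (x : V) :
    φ^[n] x = φ^[n % r] x := by
  conv_lhs => rw [← Nat.mod_add_div n r]
  rw [Function.iterate_add_apply]
  have : ∀ q : ℕ, φ^[r * q] x = x := by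
    intro q
    induction q with
    | zero => rfl
    | succ q ih => rw [Nat.mul_succ, Function.iterate_add_apply, hr', ih]
  rw [this]

theorem iter_val_add_one (φ : V →+ V) (hr' : ∀ x, φ^[r] x = x) (z : ZMod r) (x : V) :
    φ^[(z + 1).val] x = φ (φ^[z.val] x) := by
  have h1 : (z + 1).val = (z.val + 1) % r := by
    rw [ZMod.val_add, ZMod.val_one_eq_one_mod, Nat.add_mod_mod]
  rw [h1, ← iter_mod φ hr', Function.iterate_succ_apply']

theorem sum_iter_eq_zero (φ : V →+ V) (hr' : ∀ x, φ^[r] x = x) (hfix : ∀ x, φ x = x → x = 0)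
    (x : V) : ∑ j : ZMod r, φ^[j.val] x = 0 := by
  apply hfix
  have h1 : ∑ j : ZMod r, φ^[j.val] x = ∑ j : ZMod r, φ^[(j + 1).val] x :=
    (Equiv.sum_comp (Equiv.addRight (1 : ZMod r)) (fun j => φ^[j.val] x)).symm
  conv_rhs => rw [h1]
  rw [map_sum]
  exact Finset.sum_congr rfl (fun j _ => (iter_val_add_one φ hr' j x).symm)

/-- the eigencomponents -/
def eComp (φ : V →+ V) (i : ZMod r) (a : V) : ZMod r → V := fun k => φ^[(-k * i⁻¹).val] a

theorem eComp_mem (φ : V →+ V) (hr' : ∀ x, φ^[r] x = x) (i : ZMod r) (hi : i ≠ 0) (a : V) :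
    eComp φ i a ∈ eigS φ i := by
  intro k
  show φ (φ^[(-k * i⁻¹).val] a) = φ^[(-(k - i) * i⁻¹).val] a
  have : -(k - i) * i⁻¹ = -k * i⁻¹ + 1 := by
    rw [neg_sub, sub_mul, mul_inv_cancel₀ hi]; ring
  rw [this, iter_val_add_one φ hr']

theorem bigF_eq_sum (φ : V →+ V) (hr' : ∀ x, φ^[r] x = x) (hfix : ∀ x, φ x = x → x = 0)
    (a : V) : bigF r a = ∑ i ∈ Finset.univ.erase (0 : ZMod r), eComp φ i a := by
  funext k
  rw [bigF_apply, Finset.sum_apply]
  by_cases hk : k = 0
  · subst hk
    rw [if_pos rfl]
    have : ∀ i ∈ Finset.univ.erase (0 : ZMod r), eComp φ i a 0 = a := by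
      intro i _
      show φ^[(-0 * i⁻¹).val] a = a
      rw [neg_zero, zero_mul, ZMod.val_zero]; rfl
    rw [Finset.sum_congr rfl this, Finset.sum_const, Finset.card_erase_of_mem (Finset.mem_univ _),
      Finset.card_univ, ZMod.card]
    have h1 : r = (r - 1) + 1 := (Nat.sub_add_cancel hr.out.one_lt.le).symm
    conv_lhs => rw [h1, add_smul, one_smul]
    abel
  · rw [if_neg hk, zero_sub]
    have h1 := sum_iter_eq_zero φ hr' hfix a
    rw [← Finset.add_sum_erase Finset.univ _ (Finset.mem_univ (0 : ZMod r)), ZMod.val_zero] at h1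
    have h2 : ∑ i ∈ Finset.univ.erase (0 : ZMod r), eComp φ i a k =
        ∑ j ∈ Finset.univ.erase (0 : ZMod r), φ^[j.val] a := by
      refine Finset.sum_bij (fun i _ => -k * i⁻¹) ?_ ?_ ?_ ?_
      · intro i hi
        rw [Finset.mem_erase] at hi ⊢
        exact ⟨mul_ne_zero (neg_ne_zero.mpr hk) (inv_ne_zero hi.1), Finset.mem_univ _⟩
      · intro i hi j hj hij
        exact inv_injective (mul_left_cancel₀ (neg_ne_zero.mpr hk) hij)
      · intro j hj
        rw [Finset.mem_erase] at hj
        refine ⟨-k * j⁻¹, ?_, ?_⟩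
        · rw [Finset.mem_erase]
          exact ⟨mul_ne_zero (neg_ne_zero.mpr hk) (inv_ne_zero hj.1), Finset.mem_univ _⟩
        · have hk' : -k ≠ 0 := neg_ne_zero.mpr hk
          rw [mul_inv, inv_inv, ← mul_assoc, mul_inv_cancel₀ hk', one_mul]
      · intro i hi
        rfl
    rw [h2]
    exact (neg_eq_of_add_eq_zero_right h1)

theorem mem_iSup_br {L : Type} [AddCommGroup L] (C : LieBr L) (X Y : ZMod r → AddSubgroup L)
    {x y : L} (hx : x ∈ ⨆ k, X k) (hy : y ∈ ⨆ k, Y k) : C.br x y ∈ ⨆ k, bf C X Y k := by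
  refine AddSubgroup.iSup_induction X (C := fun x => C.br x y ∈ ⨆ k, bf C X Y k) hx ?_ ?_ ?_
  · intro i x hx
    refine AddSubgroup.iSup_induction Y (C := fun y => C.br x y ∈ ⨆ k, bf C X Y k) hy ?_ ?_ ?_
    · intro j y hy
      exact AddSubgroup.mem_iSup_of_mem (i + j) (act_bf C X Y i j x hx y hy)
    · rw [map_zero]; exact AddSubgroup.zero_mem _
    · intro y y' h1 h2
      rw [map_add]; exact AddSubgroup.add_mem _ h1 h2
  · rw [map_zero]; exact AddSubgroup.zero_mem _
  · intro x x' h1 h2
    rw [map_add, AddMonoidHom.add_apply]; exact AddSubgroup.add_mem _ h1 h2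

/-- **Higman's theorem** for a Lie ring with a fixed-point-free automorphism of prime order `r`
on which multiplication by `r` is injective. -/
theorem higman_lie (φ : V →+ V) (hφ : ∀ x y, φ (B.br x y) = B.br (φ x) (φ y))
    (hr' : ∀ x, φ^[r] x = x) (hfix : ∀ x, φ x = x → x = 0) (hinj : ∀ x : V, r • x = 0 → x = 0) :
    ln B (cc r (2 ^ (r - 1) - 1)) = ⊥ := by
  classical
  have hr1 := hr.out.one_lt
  haveI : Fact (1 < r) := ⟨hr1⟩
  have hH : Act (convB B r) (eigS φ) (eigS φ) (eigS (r := r) φ) := act_eigS B φ hφ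
  have h0 : eigS (r := r) φ 0 = ⊥ := by
    rw [eq_bot_iff]
    intro f hf
    rw [AddSubgroup.mem_bot]
    funext k
    have := hf k
    rw [sub_zero] at this
    exact hfix _ this
  have hF : ∀ a, bigF r a ∈ ⨆ k, eigS (r := r) φ k := by
    intro a
    rw [bigF_eq_sum φ hr' hfix a]
    apply AddSubgroup.sum_mem
    intro i hi
    rw [Finset.mem_erase] at hi
    exact AddSubgroup.mem_iSup_of_mem i (eComp_mem φ hr' i hi.1 a)
  have key : ∀ n, ∀ a ∈ ln B n, (r ^ n) • bigF r a ∈
      ⨆ k, pw (convB B r) (eigS φ) n (eigS (r := r) φ) k := by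
    intro n
    induction n with
    | zero =>
      intro a _
      rw [pow_zero, one_smul]
      exact hF a
    | succ n ih =>
      intro a ha
      have ha' : a ∈ AddSubgroup.closure {z | ∃ x ∈ ln B n, ∃ y ∈ (⊤ : AddSubgroup V),
        z = B.br x y} := ha
      refine AddSubgroup.closure_induction (p := fun a _ => (r ^ (n + 1)) • bigF r a ∈
        ⨆ k, pw (convB B r) (eigS φ) (n + 1) (eigS (r := r) φ) k) ?_ ?_ ?_ ?_ ha'
      · rintro _ ⟨x, hx, y, _, rfl⟩
        have h1 := mem_iSup_br (convB B r) (pw (convB B r) (eigS φ) n (eigS (r := r) φ))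
          (eigS φ) (ih x hx) (hF y)
        have h2 : (convB B r).br ((r ^ n) • bigF r x) (bigF r y) =
            (r ^ (n + 1)) • bigF r (B.br x y) := by
          rw [map_nsmul, AddMonoidHom.nsmul_apply]
          show (r ^ n) • convH B r (bigF r x) (bigF r y) = _
          rw [bigF_mul, smul_smul, pow_succ]
        rw [h2] at h1
        exact h1
      · rw [map_zero, smul_zero]; exact AddSubgroup.zero_mem _
      · intro x y _ _ h1 h2
        rw [map_add, smul_add]; exact AddSubgroup.add_mem _ h1 h2
      · intro x _ h1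
        rw [map_neg, smul_neg]; exact AddSubgroup.neg_mem _ h1
  rw [eq_bot_iff]
  intro a ha
  have h1 := key _ a ha
  have h2 : (⨆ k, pw (convB B r) (eigS φ) (cc r (2 ^ (r - 1) - 1)) (eigS (r := r) φ) k) = ⊥ := by
    rw [iSup_eq_bot]
    intro k
    exact higman_graded (convB B r) hH h0 k
  rw [h2, AddSubgroup.mem_bot] at h1
  have h3 := congrFun h1 1
  rw [Pi.smul_apply, bigF_apply, if_neg one_ne_zero, zero_sub, smul_neg, Pi.zero_apply,
    neg_eq_zero] at h3
  have h4 : ∀ n : ℕ, ∀ x : V, (r ^ n) • x = 0 → x = 0 := by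
    intro n
    induction n with
    | zero => intro x hx; rwa [pow_zero, one_smul] at hx
    | succ n ih =>
      intro x hx
      rw [pow_succ, mul_smul] at hx
      exact hinj x (ih _ hx)
  exact AddSubgroup.mem_bot.mpr (h4 _ a h3)

end reg

end Pool.Agent.Lib.MP_29fe3f_al
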