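import Mathlib

/-!
Representation-theoretic part: irreducible representations with many zeros.
-/

set_option autoImplicit false
set_option linter.all false

namespace Pool.Agent.Lib.MP_29fe3f_al

open Representation CategoryTheory

/-- Every irreducible character of `G` vanishes on at most `n` conjugacy classes. -/
def ZeroBound (G : Type) [Group G] (n : ℕ) : Prop :=
  ∀ V : FDRep ℂ G, CategoryTheory.Simple V →
    Nat.card {c : ConjClasses G // ∃ g : G, ConjClasses.mk g = c ∧ V.character g = 0} ≤ n

section Atoms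

variable {G : Type} [Group G] [Finite G] {W : Type} [AddCommGroup W] [Module ℂ W]
  [FiniteDimensional ℂ W]

theorem wf_subrep (ρ : Representation ℂ G W) : WellFoundedLT (Subrepresentation ρ) := by
  have h : StrictMono (Subrepresentation.toSubmodule : Subrepresentation ρ → Submodule ℂ W) := by
    intro a b hab
    refine lt_of_le_of_ne hab.le ?_
    intro he
    exact hab.ne (Subrepresentation.toSubmodule_injective he)
  exact h.wellFoundedLT

theorem exists_atom_disjoint (ρ : Representation ℂ G W) (W₀ : Subrepresentation ρ)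
    (h : W₀ ≠ ⊤) : ∃ U : Subrepresentation ρ, IsAtom U ∧ Disjoint U W₀ := by
  haveI := wf_subrep ρ
  haveI : IsAtomic (Subrepresentation ρ) :=
    isAtomic_of_orderBot_wellFounded_lt (wellFounded_lt)
  haveI : IsSemisimpleRepresentation ρ := inferInstance
  obtain ⟨C, hC⟩ := exists_isCompl W₀
  have hC0 : C ≠ ⊥ := by
    rintro rfl
    exact h (by simpa using hC.sup_eq_top)
  obtain ⟨U, hU, hUC⟩ := (eq_bot_or_exists_atom_le C).resolve_left hC0
  exact ⟨U, hU, (hC.disjoint.mono_right hUC).symm⟩

/-- push forward a subrepresentation of a subrepresentation -/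
def pushSub (ρ : Representation ℂ G W) (U : Subrepresentation ρ)
    (T : Subrepresentation U.toRepresentation) : Subrepresentation ρ where
  toSubmodule := T.toSubmodule.map U.toSubmodule.subtype
  apply_mem_toSubmodule := by
    intro g v hv
    obtain ⟨w, hw, rfl⟩ := hv
    exact ⟨U.toRepresentation g w, T.apply_mem_toSubmodule g hw, rfl⟩

theorem isIrreducible_of_isAtom (ρ : Representation ℂ G W) (U : Subrepresentation ρ)
    (hU : IsAtom U) : IsIrreducible U.toRepresentation := by
  haveI : Nontrivial (Subrepresentation U.toRepresentation) := by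
    refine ⟨⊥, ⊤, ?_⟩
    intro he
    apply hU.1
    have h2 : (⊥ : Submodule ℂ U.toSubmodule) = ⊤ := congrArg Subrepresentation.toSubmodule he
    have : U.toSubmodule = ⊥ := by
      rw [Submodule.eq_bot_iff]
      intro x hx
      have : (⟨x, hx⟩ : U.toSubmodule) ∈ (⊥ : Submodule ℂ U.toSubmodule) := by
        rw [h2]; trivial
      simpa using this
    exact Subrepresentation.toSubmodule_injective this
  refine IsSimpleOrder.mk (fun T => ?_)
  have hle : pushSub ρ U T ≤ U := by
    intro x hx
    obtain ⟨w, hw, rfl⟩ := hx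
    exact w.2
  rcases hU.le_iff.mp hle with h | h
  · left
    apply Subrepresentation.toSubmodule_injective
    change T.toSubmodule = ⊥
    have h' : T.toSubmodule.map U.toSubmodule.subtype = ⊥ :=
      congrArg Subrepresentation.toSubmodule h
    rw [Submodule.eq_bot_iff]
    intro x hx
    have hx' : (x : W) ∈ T.toSubmodule.map U.toSubmodule.subtype := ⟨x, hx, rfl⟩
    rw [h', Submodule.mem_bot] at hx'
    exact Subtype.ext hx'
  · right
    apply Subrepresentation.toSubmodule_injective
    change T.toSubmodule = ⊤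
    have h' : T.toSubmodule.map U.toSubmodule.subtype = U.toSubmodule :=
      congrArg Subrepresentation.toSubmodule h
    rw [eq_top_iff]
    intro x _
    have hx : (x : W) ∈ T.toSubmodule.map U.toSubmodule.subtype := by rw [h']; exact x.2
    obtain ⟨y, hy, hyx⟩ := hx
    have : y = x := Subtype.ext hyx
    rwa [this] at hy

end Atoms

section ToFD

variable {G : Type} [Group G] [Finite G] {W : Type} [AddCommGroup W] [Module ℂ W]
  [FiniteDimensional ℂ W]

theorem simple_of_irreducible (ρ : Representation ℂ G W) (h : IsIrreducible ρ) :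
    CategoryTheory.Simple (FDRep.of ρ) := by
  classical
  cases nonempty_fintype G
  haveI : NeZero (Nat.card G : ℂ) := ⟨by simp [Nat.card_pos.ne']⟩
  haveI : Invertible (Nat.card G : ℂ) := invertibleOfNonzero (NeZero.ne _)
  rw [FDRep.simple_iff_char_is_norm_one]
  have := Representation.char_orthonormal ρ ρ
  rw [if_pos ⟨Representation.Equiv.refl ρ⟩] at this
  have h2 : ∑ g : G, ρ.character g * ρ.character g⁻¹ = (Nat.card G : ℂ) := by
    have h0 : (Nat.card G : ℂ) ≠ 0 := NeZero.ne _
    field_simp at this
    simpa using this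
  exact h2

theorem zeroBound_irreducible {n : ℕ} (hG : ZeroBound G n) (ρ : Representation ℂ G W)
    (h : IsIrreducible ρ) :
    Nat.card {c : ConjClasses G // ∃ g : G, ConjClasses.mk g = c ∧ ρ.character g = 0} ≤ n :=
  hG (FDRep.of ρ) (simple_of_irreducible ρ h)

end ToFD

section Regular

variable {G : Type} [Group G]

/-- right regular representation on functions -/
def regRep (G : Type) [Group G] : Representation ℂ G (G → ℂ) where
  toFun g := LinearMap.funLeft ℂ ℂ (fun x => x * g)
  map_one' := by ext f x; simp [LinearMap.funLeft]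
  map_mul' g h := by
    ext f x
    simp [LinearMap.funLeft, mul_assoc]

theorem regRep_apply (g : G) (f : G → ℂ) (x : G) : regRep G g f x = f (x * g) := rfl

/-- the vectors fixed by a normal subgroup -/
def fixSub {W : Type} [AddCommGroup W] [Module ℂ W] (ρ : Representation ℂ G W)
    (R : Subgroup G) [R.Normal] : Subrepresentation ρ where
  toSubmodule :=
    { carrier := {w | ∀ r ∈ R, ρ r w = w}
      add_mem' := by
        intro a b ha hb r hr
        rw [map_add, ha r hr, hb r hr]
      zero_mem' := by intro r _; simp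
      smul_mem' := by
        intro c x hx r hr
        rw [map_smul, hx r hr] }
  apply_mem_toSubmodule := by
    intro g v hv r hr
    have h1 : g⁻¹ * r * g ∈ R := by
      simpa using Subgroup.Normal.conj_mem ‹R.Normal› r hr g⁻¹
    have h2 : ρ r (ρ g v) = ρ g (ρ (g⁻¹ * r * g) v) := by
      rw [← Module.End.mul_apply, ← Module.End.mul_apply, ← map_mul, ← map_mul]
      congr 2; group
    rw [h2, hv _ h1]

theorem mem_fixSub {W : Type} [AddCommGroup W] [Module ℂ W] (ρ : Representation ℂ G W)
    (R : Subgroup G) [R.Normal] (w : W) : w ∈ (fixSub ρ R).toSubmodule ↔ ∀ r ∈ R, ρ r w = w :=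
  Iff.rfl

variable [Finite G]

/-- If `K < R` are normal, there is an irreducible representation which is trivial on `K`, and
whose character vanishes at every `y` for which `y R` is contained in one class modulo `K`. -/
theorem exists_dead (K R : Subgroup G) [K.Normal] [R.Normal] (hKR : K ≤ R)
    (hne : ∃ r ∈ R, r ∉ K) :
    ∃ (W : Type) (_ : AddCommGroup W) (_ : Module ℂ W) (_ : FiniteDimensional ℂ W)
      (ρ : Representation ℂ G W), IsIrreducible ρ ∧
      ∀ y : G, (∀ r ∈ R, ∃ g : G, ∃ k ∈ K, y * r = g * y * g⁻¹ * k) → ρ.character y = 0 := by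
  classical
  cases nonempty_fintype G
  let ρ₀ : Representation ℂ G ((G ⧸ K) → ℂ) := (regRep (G ⧸ K)).comp (QuotientGroup.mk' K)
  have hK : ∀ k ∈ K, ρ₀ k = 1 := by
    intro k hk
    have : (QuotientGroup.mk' K) k = 1 := by simpa using hk
    simp only [ρ₀, MonoidHom.comp_apply, this, map_one]
  have htop : fixSub ρ₀ R ≠ ⊤ := by
    intro htop
    obtain ⟨r, hr, hrK⟩ := hne
    have hmem : (Pi.single 1 1 : (G ⧸ K) → ℂ) ∈ (fixSub ρ₀ R).toSubmodule := by
      rw [htop]; exact Submodule.mem_top
    have h1 := congrFun (hmem r hr) 1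
    have h2 : (Pi.single 1 1 : (G ⧸ K) → ℂ) (1 * (QuotientGroup.mk' K) r) =
        (Pi.single 1 1 : (G ⧸ K) → ℂ) 1 := h1
    rw [one_mul, Pi.single_eq_same, Pi.single_eq_of_ne] at h2
    · exact zero_ne_one h2
    · intro h3
      exact hrK (by simpa using h3)
  obtain ⟨U, hU, hdis⟩ := exists_atom_disjoint ρ₀ _ htop
  refine ⟨U.toSubmodule, inferInstance, inferInstance, inferInstance, U.toRepresentation,
    isIrreducible_of_isAtom ρ₀ U hU, ?_⟩
  intro y hy
  set σ := U.toRepresentation with hσ
  have hKσ : ∀ k ∈ K, σ k = 1 := by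
    intro k hk
    apply LinearMap.ext
    intro u
    apply Subtype.ext
    change ρ₀ k (u : (G ⧸ K) → ℂ) = u
    rw [hK k hk]; rfl
  have hchar : ∀ r ∈ R, σ.character (y * r) = σ.character y := by
    intro r hr
    obtain ⟨g, k, hk, hgk⟩ := hy r hr
    rw [hgk]
    have : σ.character (g * y * g⁻¹ * k) = σ.character (g * y * g⁻¹) := by
      simp only [Representation.character, map_mul, hKσ k hk, mul_one]
    rw [this, Representation.char_conj]
  -- the averaging operator is zero
  have hsum : (∑ r : R, σ (r : G)) = 0 := by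
    apply LinearMap.ext
    intro u
    apply Subtype.ext
    have hmem : ((∑ r : R, σ (r : G)) u : (G ⧸ K) → ℂ) ∈ (fixSub ρ₀ R).toSubmodule := by
      rw [mem_fixSub]
      intro s hs
      have e1 : ((∑ r : R, σ (r : G)) u : (G ⧸ K) → ℂ) = ∑ r : R, ρ₀ (r : G) u := by
        rw [LinearMap.sum_apply, Submodule.coe_sum]
        rfl
      rw [e1, map_sum]
      refine Fintype.sum_equiv (Equiv.mulLeft (⟨s, hs⟩ : R)) _ _ ?_
      intro r
      rw [← Module.End.mul_apply, ← map_mul]
      rfl
    have hmemU : ((∑ r : R, σ (r : G)) u : (G ⧸ K) → ℂ) ∈ U.toSubmodule := Subtype.coe_prop _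
    have hinf : ((∑ r : R, σ (r : G)) u : (G ⧸ K) → ℂ) ∈ (U ⊓ fixSub ρ₀ R).toSubmodule :=
      ⟨hmemU, hmem⟩
    rw [disjoint_iff.mp hdis] at hinf
    have : ((∑ r : R, σ (r : G)) u : (G ⧸ K) → ℂ) = 0 := by
      have h3 : ((∑ r : R, σ (r : G)) u : (G ⧸ K) → ℂ) ∈ (⊥ : Submodule ℂ ((G ⧸ K) → ℂ)) := hinf
      simpa using h3
    rw [this]; rfl
  have h4 : ∑ r : R, σ.character (y * (r : G)) = 0 := by
    simp only [Representation.character, map_mul]
    rw [← map_sum, ← Finset.mul_sum, hsum, mul_zero, map_zero]
  have h5 : ∑ r : R, σ.character (y * (r : G)) = (Fintype.card R : ℂ) * σ.character y := by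
    rw [Finset.sum_congr rfl (fun (r : R) _ => hchar (r : G) r.2)]
    simp
  rw [h5] at h4
  rcases mul_eq_zero.mp h4 with h | h
  · exfalso
    have : Fintype.card R ≠ 0 := Fintype.card_ne_zero
    exact this (by exact_mod_cast h)
  · exact h

/-- the stabiliser of a linear character of a normal subgroup -/
def charStab {N : Subgroup G} [N.Normal] (lam : N →* ℂˣ) : Subgroup G where
  carrier := {s | ∀ n : N, lam (MulAut.conjNormal s n) = lam n}
  mul_mem' := by
    intro a b ha hb n
    rw [map_mul, MulAut.mul_apply, ha, hb]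
  one_mem' := by intro n; simp
  inv_mem' := by
    intro a ha n
    have := ha (MulAut.conjNormal a⁻¹ n)
    rw [← MulAut.mul_apply, ← map_mul] at this
    simpa using this.symm

omit [Finite G] in
theorem mem_charStab {N : Subgroup G} [N.Normal] (lam : N →* ℂˣ) (s : G) :
    s ∈ charStab lam ↔ ∀ n : N, lam (MulAut.conjNormal s n) = lam n := Iff.rfl

omit [Finite G] in
theorem le_charStab {N : Subgroup G} [N.Normal] (lam : N →* ℂˣ) : N ≤ charStab lam := by
  intro s hs n
  have : MulAut.conjNormal s n = (⟨s, hs⟩ : N) * n * (⟨s, hs⟩ : N)⁻¹ := by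
    apply Subtype.ext; simp
  rw [this, map_mul, map_mul, map_inv, mul_comm (lam ⟨s, hs⟩), mul_inv_cancel_right]

end Regular

section Eigen

variable {G : Type} [Group G] [Finite G]

open scoped Classical in
/-- the (unnormalised) projection to the `μ`-eigenspace of `N` -/
noncomputable def eproj {W : Type} [AddCommGroup W] [Module ℂ W] (ρ : Representation ℂ G W)
    (N : Subgroup G) (μ : N →* ℂˣ) : W →ₗ[ℂ] W :=
  letI := Fintype.ofFinite N
  ∑ n : N, ((μ n)⁻¹ : ℂˣ).1 • ρ (n : G)

open scoped Classical in
theorem eproj_eigen {W : Type} [AddCommGroup W] [Module ℂ W] (ρ : Representation ℂ G W)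
    (N : Subgroup G) (μ ν : N →* ℂˣ) (w : W) (hw : ∀ n : N, ρ (n : G) w = (ν n).1 • w) :
    eproj ρ N μ w = if μ = ν then (Nat.card N : ℂ) • w else 0 := by
  classical
  letI := Fintype.ofFinite N
  have h1 : eproj ρ N μ w = (∑ n : N, ((Units.coeHom ℂ).comp (μ⁻¹ * ν)) n) • w := by
    rw [eproj, LinearMap.sum_apply, Finset.sum_smul]
    refine Finset.sum_congr rfl (fun n _ => ?_)
    rw [LinearMap.smul_apply, hw, smul_smul]
    simp
  rw [h1]
  split_ifs with h
  · subst h
    congr 1
    simp [Nat.card_eq_fintype_card]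
  · rw [sum_hom_units_eq_zero, zero_smul]
    intro he
    apply h
    ext n
    have := DFunLike.congr_fun he n
    simp only [MonoidHom.comp_apply, Units.coeHom_apply, MonoidHom.one_apply,
      MonoidHom.mul_apply, MonoidHom.inv_apply] at this
    have h2 : (μ n)⁻¹ * ν n = 1 := Units.ext (by simpa using this)
    have h3 : ν n = μ n := by
      rw [inv_mul_eq_one] at h2; exact h2.symm
    rw [h3]

/-- conjugate of a linear character -/
def conjChar {N : Subgroup G} [N.Normal] (lam : N →* ℂˣ) (g : G) : N →* ℂˣ :=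
  lam.comp (MulAut.conjNormal g).toMonoidHom

omit [Finite G] in
theorem conjChar_apply {N : Subgroup G} [N.Normal] (lam : N →* ℂˣ) (g : G) (n : N) :
    conjChar lam g n = lam (MulAut.conjNormal g n) := rfl

omit [Finite G] in
theorem conjChar_mul {N : Subgroup G} [N.Normal] (lam : N →* ℂˣ) (g h : G) :
    conjChar lam (g * h) = conjChar (conjChar lam g) h := by
  ext n
  simp [conjChar_apply, map_mul, MulAut.mul_apply]

omit [Finite G] in
theorem mem_charStab' {N : Subgroup G} [N.Normal] (lam : N →* ℂˣ) (s : G) :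
    s ∈ charStab lam ↔ conjChar lam s = lam := by
  rw [mem_charStab]
  constructor
  · intro h; ext n; rw [conjChar_apply, h]
  · intro h n; rw [← conjChar_apply, h]

theorem exists_over (N : Subgroup G) [N.Normal] (lam : N →* ℂˣ) :
    ∃ (W : Type) (_ : AddCommGroup W) (_ : Module ℂ W) (_ : FiniteDimensional ℂ W)
      (ρ : Representation ℂ G W), IsIrreducible ρ ∧
      ∃ w : W, w ≠ 0 ∧ ∀ n : N, ρ (n : G) w = (lam n).1 • w := by
  classical
  cases nonempty_fintype G
  let ρ₀ : Representation ℂ G (G → ℂ) := regRep G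
  let v : G → ℂ := fun x => if hx : x ∈ N then (lam ⟨x, hx⟩).1 else 0
  have hv : ∀ n : N, ρ₀ (n : G) v = (lam n).1 • v := by
    intro n
    funext x
    change v (x * n) = (lam n).1 • v x
    by_cases hx : x ∈ N
    · have hxn : x * (n : G) ∈ N := N.mul_mem hx n.2
      simp only [v, dif_pos hx, dif_pos hxn]
      have : (⟨x * n, hxn⟩ : N) = ⟨x, hx⟩ * n := rfl
      rw [this, map_mul, Units.val_mul, smul_eq_mul, mul_comm]
    · have hxn : x * (n : G) ∉ N := by
        intro h
        exact hx ((Subgroup.mul_mem_cancel_right N n.2).mp h)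
      simp only [v, dif_neg hx, dif_neg hxn, smul_zero]
  have hv0 : v ≠ 0 := by
    intro h
    have := congrFun h 1
    simp only [v, dif_pos N.one_mem, Pi.zero_apply] at this
    exact (lam ⟨1, N.one_mem⟩).ne_zero this
  -- eigen property of the projection
  have hproj : ∀ (w : G → ℂ) (n : N), ρ₀ (n : G) (eproj ρ₀ N lam w) =
      (lam n).1 • eproj ρ₀ N lam w := by
    intro w n
    letI := Fintype.ofFinite N
    rw [eproj, LinearMap.sum_apply, map_sum, Finset.smul_sum]
    refine Fintype.sum_equiv (Equiv.mulLeft n) _ _ ?_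
    intro m
    simp only [LinearMap.smul_apply, map_smul, Equiv.coe_mulLeft, Subgroup.coe_mul]
    rw [← Module.End.mul_apply, ← map_mul, smul_smul]
    congr 1
    rw [map_mul, mul_inv_rev, Units.val_mul, mul_comm (lam n).1, mul_assoc]
    simp
  let W₀ : Subrepresentation ρ₀ :=
    { toSubmodule :=
        { carrier := {w | ∀ g : G, eproj ρ₀ N lam (ρ₀ g w) = 0}
          add_mem' := by
            intro a b ha hb g
            rw [map_add, map_add, ha g, hb g, add_zero]
          zero_mem' := by intro g; simp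
          smul_mem' := by
            intro c x hx g
            rw [map_smul, map_smul, hx g, smul_zero] }
      apply_mem_toSubmodule := by
        intro g w hw h
        have h1 : ρ₀ h (ρ₀ g w) = ρ₀ (h * g) w := by rw [map_mul]; rfl
        rw [h1]
        exact hw (h * g) }
  have hW₀ : W₀ ≠ ⊤ := by
    intro htop
    have hmem : v ∈ W₀.toSubmodule := by rw [htop]; exact Submodule.mem_top
    have h1 := hmem 1
    rw [map_one, Module.End.one_apply, eproj_eigen ρ₀ N lam lam v hv, if_pos rfl] at h1
    rcases smul_eq_zero.mp h1 with h | h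
    · exact Nat.card_pos.ne' (by exact_mod_cast h)
    · exact hv0 h
  obtain ⟨U, hU, hdis⟩ := exists_atom_disjoint ρ₀ _ hW₀
  refine ⟨U.toSubmodule, inferInstance, inferInstance, inferInstance, U.toRepresentation,
    isIrreducible_of_isAtom ρ₀ U hU, ?_⟩
  obtain ⟨u, hu, hu0⟩ : ∃ u ∈ U.toSubmodule, u ≠ 0 := by
    apply Submodule.exists_mem_ne_zero_of_ne_bot
    intro h
    exact hU.1 (Subrepresentation.toSubmodule_injective h)
  have hnot : u ∉ W₀.toSubmodule := by
    intro h
    have h2 : u ∈ (U ⊓ W₀).toSubmodule := ⟨hu, h⟩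
    rw [disjoint_iff.mp hdis] at h2
    exact hu0 (by simpa using (show u ∈ (⊥ : Submodule ℂ (G → ℂ)) from h2))
  have hnot' : ∃ g : G, eproj ρ₀ N lam (ρ₀ g u) ≠ 0 := by
    by_contra hcon
    push Not at hcon
    exact hnot hcon
  obtain ⟨g, hg⟩ := hnot'
  have hmemU : eproj ρ₀ N lam (ρ₀ g u) ∈ U.toSubmodule := by
    rw [eproj, LinearMap.sum_apply]
    refine Submodule.sum_mem _ (fun n _ => ?_)
    rw [LinearMap.smul_apply]
    exact Submodule.smul_mem _ _ (U.apply_mem_toSubmodule _ (U.apply_mem_toSubmodule _ hu))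
  refine ⟨⟨_, hmemU⟩, ?_, ?_⟩
  · intro h
    exact hg (congrArg Subtype.val h)
  · intro n
    apply Subtype.ext
    exact hproj _ n

/-- The basic vanishing statement (Clifford theory for linear characters). -/
theorem char_eq_zero_of_not_fixed {W : Type} [AddCommGroup W] [Module ℂ W]
    [FiniteDimensional ℂ W] (ρ : Representation ℂ G W) (hρ : IsIrreducible ρ)
    (N : Subgroup G) [N.Normal] (lam : N →* ℂˣ) (w : W) (hw0 : w ≠ 0)
    (hw : ∀ n : N, ρ (n : G) w = (lam n).1 • w) (y : G)
    (hy : ∀ g : G, g * y * g⁻¹ ∉ charStab lam) : ρ.character y = 0 := by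
  classical
  cases nonempty_fintype G
  -- the orbit spans
  have hspan : Submodule.span ℂ (Set.range (fun g : G => ρ g w)) = ⊤ := by
    let S : Subrepresentation ρ :=
      { toSubmodule := Submodule.span ℂ (Set.range (fun g : G => ρ g w))
        apply_mem_toSubmodule := by
          intro g v hv
          refine Submodule.span_induction ?_ ?_ ?_ ?_ hv
          · rintro x ⟨h, rfl⟩
            apply Submodule.subset_span
            refine ⟨g * h, ?_⟩
            simp only [map_mul, Module.End.mul_apply]
          · rw [map_zero]; exact Submodule.zero_mem _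
          · intro a b _ _ ha hb
            rw [map_add]; exact Submodule.add_mem _ ha hb
          · intro c a _ ha
            rw [map_smul]; exact Submodule.smul_mem _ _ ha }
    haveI := hρ
    rcases eq_bot_or_eq_top S with h | h
    · exfalso
      have h1 : w ∈ S.toSubmodule := Submodule.subset_span ⟨1, by simp⟩
      rw [h] at h1
      exact hw0 (by simpa using (show w ∈ (⊥ : Submodule ℂ W) from h1))
    · exact congrArg Subrepresentation.toSubmodule h
  -- eigenvectors
  have heig : ∀ (g : G) (n : N), ρ (n : G) (ρ g w) = (conjChar lam g⁻¹ n).1 • ρ g w := by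
    intro g n
    have h1 : ρ (n : G) (ρ g w) = ρ g (ρ ((MulAut.conjNormal g⁻¹ n : N) : G) w) := by
      rw [← Module.End.mul_apply, ← Module.End.mul_apply, ← map_mul, ← map_mul]
      congr 2
      simp [mul_assoc]
    rw [h1, hw, map_smul]
    rfl
  -- the finite set of characters
  let L : Finset (N →* ℂˣ) := Finset.univ.image (fun g : G => conjChar lam g⁻¹)
  have hE : ∀ (μ : N →* ℂˣ) (g : G), eproj ρ N μ (ρ g w) =
      if μ = conjChar lam g⁻¹ then (Nat.card N : ℂ) • ρ g w else 0 :=
    fun μ g => by convert eproj_eigen ρ N μ _ _ (heig g)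
  have hext : ∀ (A B : W →ₗ[ℂ] W), (∀ g : G, A (ρ g w) = B (ρ g w)) → A = B := by
    intro A B hAB
    apply LinearMap.ext_on_range hspan
    exact hAB
  have hsum : ∑ μ ∈ L, eproj ρ N μ = (Nat.card N : ℂ) • (1 : W →ₗ[ℂ] W) := by
    apply hext
    intro g
    rw [LinearMap.sum_apply, LinearMap.smul_apply, Module.End.one_apply]
    simp only [hE]
    rw [Finset.sum_ite_eq' , if_pos]
    exact Finset.mem_image_of_mem _ (Finset.mem_univ g)
  have hsq : ∀ μ ∈ L, eproj ρ N μ * eproj ρ N μ = (Nat.card N : ℂ) • eproj ρ N μ := by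
    intro μ _
    apply hext
    intro g
    rw [Module.End.mul_apply, LinearMap.smul_apply, hE]
    split_ifs with h
    · rw [map_smul, hE, if_pos h]
    · simp
  have horth : ∀ μ ν : N →* ℂˣ, μ ≠ ν → eproj ρ N μ * eproj ρ N ν = 0 := by
    intro μ ν hμν
    apply hext
    intro g
    rw [Module.End.mul_apply, hE]
    split_ifs with h
    · rw [map_smul, hE, if_neg, smul_zero, LinearMap.zero_apply]
      rw [← h]; exact hμν
    · simp
  -- commutation
  have hcomm : ∀ μ : N →* ℂˣ, eproj ρ N μ * ρ y = ρ y * eproj ρ N (conjChar μ y) := by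
    intro μ
    apply hext
    intro g
    rw [Module.End.mul_apply, Module.End.mul_apply, ← Module.End.mul_apply (ρ y) (ρ g),
      ← map_mul, hE, hE]
    have hiff : (μ = conjChar lam (y * g)⁻¹) ↔ (conjChar μ y = conjChar lam g⁻¹) := by
      constructor
      · rintro rfl
        rw [← conjChar_mul]
        congr 1; group
      · intro h
        have : conjChar (conjChar μ y) y⁻¹ = conjChar (conjChar lam g⁻¹) y⁻¹ := by rw [h]
        rw [← conjChar_mul, ← conjChar_mul] at this
        rw [mul_inv_cancel] at this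
        rw [mul_inv_rev, ← this]
        ext n; simp [conjChar_apply]
    by_cases h : μ = conjChar lam (y * g)⁻¹
    · rw [if_pos h, if_pos (hiff.mp h), map_smul, map_mul, Module.End.mul_apply]
    · rw [if_neg h, if_neg (fun h' => h (hiff.mpr h')), map_zero]
  have hne : ∀ μ ∈ L, conjChar μ y ≠ μ := by
    intro μ hμ he
    obtain ⟨g, _, rfl⟩ := Finset.mem_image.mp hμ
    apply hy g⁻¹
    rw [mem_charStab']
    have : conjChar (conjChar lam (g⁻¹ * y)) g = conjChar (conjChar lam g⁻¹) g := by
      rw [conjChar_mul lam g⁻¹ y, he]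
    rw [← conjChar_mul, ← conjChar_mul, inv_mul_cancel] at this
    rw [inv_inv, this]
    ext n; simp [conjChar_apply]
  have hNC : (Nat.card N : ℂ) ≠ 0 := by exact_mod_cast Nat.card_pos.ne'
  have h1 : (Nat.card N : ℂ) * ((Nat.card N : ℂ) * LinearMap.trace ℂ W (ρ y)) = 0 := by
    have e1 : (Nat.card N : ℂ) * LinearMap.trace ℂ W (ρ y) =
        ∑ μ ∈ L, LinearMap.trace ℂ W (ρ y * eproj ρ N μ) := by
      rw [← map_sum, ← Finset.mul_sum, hsum, mul_smul_comm, mul_one, map_smul, smul_eq_mul]
    rw [e1, Finset.mul_sum]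
    refine Finset.sum_eq_zero (fun μ hμ => ?_)
    have e2 : (Nat.card N : ℂ) * LinearMap.trace ℂ W (ρ y * eproj ρ N μ) =
        LinearMap.trace ℂ W (ρ y * eproj ρ N μ * eproj ρ N μ) := by
      rw [mul_assoc, hsq μ hμ, mul_smul_comm, map_smul, smul_eq_mul]
    rw [e2, LinearMap.trace_mul_comm, ← mul_assoc, hcomm, mul_assoc, horth _ _ (hne μ hμ),
      mul_zero, map_zero]
  rcases mul_eq_zero.mp h1 with h | h
  · exact absurd h hNC
  · rcases mul_eq_zero.mp h with h | h
    · exact absurd h hNC
    · exact h

end Eigen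

end Pool.Agent.Lib.MP_29fe3f_al
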