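import Pool.Agent.Lib.MP_29fe3f_al.Classes

/-!
The step-down lemma: bounding a nilpotent normal subgroup of bounded index.
-/

set_option autoImplicit false
set_option linter.all false

namespace Pool.Agent.Lib.MP_29fe3f_al

open Subgroup

section rel

variable {G : Type} [Group G]

theorem exists_central_rel (L K A : Subgroup G) [hK : K.Normal] [hA : A.Normal]
    (hL : Group.IsNilpotent L) (hKA : K ≤ A) (hAL : A ≤ L) (hne : K ≠ A) :
    ∃ a ∈ A, a ∉ K ∧ ∀ l ∈ L, a * l * a⁻¹ * l⁻¹ ∈ K := by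
  haveI : Group.IsNilpotent (L ⧸ K.subgroupOf L) := inferInstance
  have hsur := QuotientGroup.mk'_surjective (K.subgroupOf L)
  haveI : ((A.subgroupOf L).map (QuotientGroup.mk' (K.subgroupOf L))).Normal :=
    Subgroup.Normal.map inferInstance _ hsur
  have hnb : (A.subgroupOf L).map (QuotientGroup.mk' (K.subgroupOf L)) ≠ ⊥ := by
    intro h
    apply hne
    refine le_antisymm hKA ?_
    intro a ha
    have h1 : QuotientGroup.mk' (K.subgroupOf L) ⟨a, hAL ha⟩ ∈
        (A.subgroupOf L).map (QuotientGroup.mk' (K.subgroupOf L)) :=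
      ⟨⟨a, hAL ha⟩, Subgroup.mem_subgroupOf.mpr ha, rfl⟩
    rw [h, Subgroup.mem_bot, QuotientGroup.mk'_apply, QuotientGroup.eq_one_iff] at h1
    exact Subgroup.mem_subgroupOf.mp h1
  obtain ⟨z, hz, hzc, hz1⟩ := exists_central (L := L ⧸ K.subgroupOf L) ‹_› _ hnb
  obtain ⟨a, ha, rfl⟩ := hz
  refine ⟨a, Subgroup.mem_subgroupOf.mp ha, ?_, ?_⟩
  · intro h
    apply hz1
    rw [QuotientGroup.mk'_apply, QuotientGroup.eq_one_iff]
    exact Subgroup.mem_subgroupOf.mpr h
  · intro l hl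
    have h1 := Subgroup.mem_center_iff.mp hzc (QuotientGroup.mk' _ ⟨l, hl⟩)
    rw [← map_mul, ← map_mul] at h1
    have h2 := QuotientGroup.eq.mp h1
    have h3 := Subgroup.mem_subgroupOf.mp h2
    have h4 := hK.conj_mem _ h3 (a * l)
    simpa [mul_assoc] using h4

theorem one_add_mul_le_pow' (b : ℕ) : ∀ n : ℕ, 1 + b * n ≤ (1 + b) ^ n
  | 0 => by simp
  | n + 1 => by
    have ih := one_add_mul_le_pow' b n
    rw [pow_succ]
    have h1 : 1 ≤ (1 + b) ^ n := Nat.one_le_pow _ _ (by omega)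
    nlinarith

variable [Finite G]

theorem kcl_add_le (X Y Z : Set G) (hX : X ⊆ Z) (hY : Y ⊆ Z)
    (hXY : ∀ x ∈ X, ∀ g : G, g * x * g⁻¹ ∉ Y) : kcl X + kcl Y ≤ kcl Z := by
  rw [kcl, kcl, ← Set.ncard_union_eq _ (Set.toFinite _) (Set.toFinite _)]
  · apply Set.ncard_le_ncard _ (Set.toFinite _)
    rw [← Set.image_union]
    exact Set.image_mono (Set.union_subset hX hY)
  · rw [Set.disjoint_left]
    rintro _ ⟨x, hx, rfl⟩ ⟨y, hy, hxy⟩
    rw [ConjClasses.mk_eq_mk_iff_isConj, isConj_comm, isConj_iff] at hxy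
    obtain ⟨g, rfl⟩ := hxy
    exact hXY x hx g hy

theorem kcl_pos {X : Set G} (h : X.Nonempty) : 0 < kcl X := by
  rw [kcl, Set.ncard_pos (Set.toFinite _)]
  exact h.image _

/-- the relative centre -/
def relCenter (L K A : Subgroup G) [hK : K.Normal] : Subgroup G where
  carrier := {x | x ∈ A ∧ ∀ l ∈ L, x * l * x⁻¹ * l⁻¹ ∈ K}
  mul_mem' := by
    rintro x y ⟨hx, hx'⟩ ⟨hy, hy'⟩
    refine ⟨A.mul_mem hx hy, fun b hb => ?_⟩
    have h1 := hK.conj_mem _ (hy' b hb) x
    have h2 := K.mul_mem h1 (hx' b hb)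
    simpa [mul_assoc] using h2
  one_mem' := ⟨A.one_mem, fun b hb => by simp [K.one_mem]⟩
  inv_mem' := by
    rintro x ⟨hx, hx'⟩
    refine ⟨A.inv_mem hx, fun b hb => ?_⟩
    have h1 := hK.conj_mem _ (K.inv_mem (hx' b hb)) x⁻¹
    have h2 := hK.conj_mem _ (hx' b hb) x⁻¹
    have h3 := K.inv_mem h2
    simp only [mul_inv_rev, inv_inv] at h3
    have h4 : x⁻¹ * b * x⁻¹⁻¹ * b⁻¹ = x⁻¹ * (b * (x * (b⁻¹ * (x⁻¹ * x)))) := by group
    rw [h4]
    simpa [mul_assoc] using h3

theorem mem_relCenter (L K A : Subgroup G) [hK : K.Normal] (x : G) :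
    x ∈ relCenter L K A ↔ x ∈ A ∧ ∀ l ∈ L, x * l * x⁻¹ * l⁻¹ ∈ K := Iff.rfl

instance relCenter_normal (L K A : Subgroup G) [hK : K.Normal] [hL : L.Normal] [hA : A.Normal] :
    (relCenter L K A).Normal := by
  refine ⟨?_⟩
  rintro x ⟨hx, hx'⟩ g
  refine ⟨hA.conj_mem x hx g, fun b hb => ?_⟩
  have hb' : g⁻¹ * b * g ∈ L := by
    have := hL.conj_mem b hb g⁻¹
    simpa using this
  have := hK.conj_mem _ (hx' _ hb') g
  simpa [mul_assoc] using this

theorem card_le_of_kcl (b : ℕ) (L : Subgroup G) [hLn : L.Normal] (hL : Group.IsNilpotent L)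
    (hidx : L.index ≤ b) (A : Subgroup G) [hAn : A.Normal] (hAL : A ≤ L) : ∀ (m : ℕ)
    (K : Subgroup G), K.Normal → K ≤ A → kcl ((A : Set G) \ K) ≤ m →
    Nat.card A ≤ Nat.card K * (1 + b) ^ m := by
  intro m
  induction m using Nat.strong_induction_on with
  | _ m ih =>
  intro K hK hKA hk
  by_cases hne : K = A
  · subst hne
    exact Nat.le_mul_of_pos_right _ (Nat.pow_pos (by omega))
  · obtain ⟨a, haA, haK, hac⟩ := exists_central_rel L K A hL hKA hAL hne
    set K' := relCenter L K A with hK'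
    have haK' : a ∈ K' := ⟨haA, hac⟩
    have hKK' : K ≤ K' := by
      intro x hx
      refine ⟨hKA hx, fun l hl => ?_⟩
      have := K.mul_mem hx (hK.conj_mem _ (K.inv_mem hx) l)
      simpa [mul_assoc] using this
    have hK'A : K' ≤ A := fun x hx => hx.1
    haveI hK'n : K'.Normal := relCenter_normal L K A
    set m₁ := kcl ((K' : Set G) \ K) with hm₁
    set m₂ := kcl ((A : Set G) \ K') with hm₂
    have hadd : m₁ + m₂ ≤ m := by
      refine le_trans (kcl_add_le _ _ _ ?_ ?_ ?_) hk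
      · exact Set.diff_subset_diff_left hK'A
      · exact Set.diff_subset_diff_right hKK'
      · rintro x ⟨hx, _⟩ g ⟨_, h⟩
        exact h (hK'n.conj_mem x hx g)
    have hm₁pos : 0 < m₁ := kcl_pos ⟨a, haK', haK⟩
    have h1 := ih m₂ (by omega) K' hK'n hK'A le_rfl
    have h2 : ((K' : Set G) \ K).ncard ≤ (b * Nat.card K) * m₁ := by
      apply ncard_le_kcl_mul
      rintro y ⟨hy, _⟩
      refine le_trans (ncard_cls_le L K y ?_) (Nat.mul_le_mul_right _ hidx)
      intro l hl
      have := (K'.inv_mem hy).2 l hl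
      simpa [mul_assoc] using this
    have h3 : Nat.card K' = Nat.card K + ((K' : Set G) \ K).ncard := by
      have h4 := Set.ncard_sdiff_add_ncard_of_subset (s := (K : Set G)) (t := (K' : Set G)) hKK'
        (Set.toFinite _)
      have h5 : Nat.card K = (K : Set G).ncard := rfl
      have h6 : Nat.card K' = (K' : Set G).ncard := rfl
      omega
    have h4 : Nat.card K' ≤ Nat.card K * (1 + b * m₁) := by
      rw [h3]
      calc Nat.card K + ((K' : Set G) \ K).ncard ≤ Nat.card K + (b * Nat.card K) * m₁ :=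
            Nat.add_le_add_left h2 _
        _ = Nat.card K * (1 + b * m₁) := by ring
    calc Nat.card A ≤ Nat.card K' * (1 + b) ^ m₂ := h1
      _ ≤ (Nat.card K * (1 + b * m₁)) * (1 + b) ^ m₂ := Nat.mul_le_mul_right _ h4
      _ ≤ (Nat.card K * (1 + b) ^ m₁) * (1 + b) ^ m₂ :=
        Nat.mul_le_mul_right _ (Nat.mul_le_mul_left _ (one_add_mul_le_pow' b m₁))
      _ = Nat.card K * (1 + b) ^ (m₁ + m₂) := by rw [pow_add, mul_assoc]
      _ ≤ Nat.card K * (1 + b) ^ m :=
        Nat.mul_le_mul_left _ (Nat.pow_le_pow_right (by omega) hadd)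

/-- counting through fibres -/
theorem card_le_of_fiber (D A : Subgroup G) {β : Type} [Finite β] (F : D → β)
    (hF : ∀ d d' : D, F d = F d' → (d : G)⁻¹ * d' ∈ A) :
    Nat.card D ≤ Nat.card A * Nat.card β := by
  classical
  rw [← Nat.card_prod]
  let r : β → D := Function.invFun F
  have hr : ∀ d, F (r (F d)) = F d := fun d => Function.invFun_eq ⟨d, rfl⟩
  let f : D → A × β := fun d => (⟨((r (F d) : D) : G)⁻¹ * d, hF _ _ (hr d)⟩, F d)
  apply Nat.card_le_card_of_injective f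
  intro d d' hdd'
  have h1 : F d = F d' := congrArg Prod.snd hdd'
  have h2 : ((r (F d) : D) : G)⁻¹ * d = ((r (F d') : D) : G)⁻¹ * d' :=
    congrArg (fun q => (q.1 : G)) hdd'
  rw [h1] at h2
  exact Subtype.ext (mul_left_cancel h2)

end rel

section step

/-- every abelian normal subgroup `A` is avoided by a subgroup `S` such that only few classes
avoid all conjugates of `S` -/
def Pinch (H : Type) [Group H] (m : ℕ) : Prop :=
  ∀ A : Subgroup H, A.Normal → (∀ a ∈ A, ∀ b ∈ A, a * b = b * a) →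
    ∃ S : Subgroup H, (∀ a ∈ A, a ∈ S → a = 1) ∧ kcl {y : H | ∀ g : H, g * y * g⁻¹ ∉ S} ≤ m

/-- bound for the second term -/
def gam (b m : ℕ) : ℕ := 2 * b * (m + 1) * ((1 + b) ^ m) ^ (2 * b + 1)

/-- bound for the step-down lemma -/
def Psi (b m : ℕ) : ℕ := (1 + b) ^ m * (gam b m) ^ (gam b m)

variable {H : Type} [Group H] [Finite H]

theorem stepdown (b m : ℕ) (hb : 1 ≤ b) (hP : Pinch H m) (L : Subgroup H) [hLn : L.Normal]
    (hL : Group.IsNilpotent L) (hidx : L.index ≤ b) : Nat.card L ≤ Psi b m := by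
  classical
  -- a maximal abelian normal subgroup inside L
  obtain ⟨A, ⟨hAn, hAab, hAL⟩, hAmax⟩ : ∃ A : Subgroup H,
      (A.Normal ∧ (∀ a ∈ A, ∀ b ∈ A, a * b = b * a) ∧ A ≤ L) ∧
      ∀ B : Subgroup H, B.Normal → (∀ a ∈ B, ∀ b ∈ B, a * b = b * a) → B ≤ L → A ≤ B → B ≤ A := by
    obtain ⟨A, hA⟩ := (Set.toFinite {A : Subgroup H | A.Normal ∧
      (∀ a ∈ A, ∀ b ∈ A, a * b = b * a) ∧ A ≤ L}).exists_maximal ⟨⊥, inferInstance, by
        intro a ha b hb
        rw [Subgroup.mem_bot] at ha hb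
        rw [ha, hb], bot_le⟩
    exact ⟨A, hA.1, fun B h1 h2 h3 h4 => hA.2 ⟨h1, h2, h3⟩ h4⟩
  obtain ⟨S, hSA, hk⟩ := hP A hAn hAab
  -- the order of A
  have hAcard : Nat.card A ≤ (1 + b) ^ m := by
    have h1 := card_le_of_kcl b L hL hidx A hAL m ⊥ inferInstance bot_le (by
      refine le_trans (kcl_mono ?_) hk
      rintro a ⟨ha, ha1⟩ g hg
      have h2 := hSA _ (hAn.conj_mem a ha g) hg
      apply ha1
      rw [conj_eq_one_iff] at h2
      rw [h2]
      exact Subgroup.one_mem _)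
    rw [Subgroup.card_bot, one_mul] at h1
    exact h1
  have hApos : 0 < Nat.card A := Nat.card_pos
  -- the second centre type subgroup
  let Cs : Subgroup H :=
    { carrier := {c | c ∈ relCenter L A L ∧ ∀ a ∈ A, c * a = a * c}
      mul_mem' := by
        rintro x y ⟨hx, hx'⟩ ⟨hy, hy'⟩
        refine ⟨Subgroup.mul_mem _ hx hy, fun a ha => ?_⟩
        rw [mul_assoc, hy' a ha, ← mul_assoc, hx' a ha, mul_assoc]
      one_mem' := ⟨Subgroup.one_mem _, fun a _ => by simp⟩
      inv_mem' := by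
        rintro x ⟨hx, hx'⟩
        refine ⟨Subgroup.inv_mem _ hx, fun a ha => ?_⟩
        have := hx' a ha
        calc x⁻¹ * a = x⁻¹ * (a * x) * x⁻¹ := by group
          _ = x⁻¹ * (x * a) * x⁻¹ := by rw [this]
          _ = a * x⁻¹ := by group }
  have hCsn : Cs.Normal := by
    refine ⟨?_⟩
    rintro x ⟨hx, hx'⟩ g
    refine ⟨(relCenter_normal L A L).conj_mem x hx g, fun a ha => ?_⟩
    have h1 := hx' (g⁻¹ * a * g) (by simpa using hAn.conj_mem a ha g⁻¹)
    calc g * x * g⁻¹ * a = g * (x * (g⁻¹ * a * g)) * g⁻¹ := by group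
      _ = g * ((g⁻¹ * a * g) * x) * g⁻¹ := by rw [h1]
      _ = a * (g * x * g⁻¹) := by group
  have hACs : A ≤ Cs := by
    intro a ha
    refine ⟨⟨hAL ha, fun l hl => ?_⟩, fun a' ha' => hAab a ha a' ha'⟩
    have := A.mul_mem ha (hAn.conj_mem _ (A.inv_mem ha) l)
    simpa [mul_assoc] using this
  have hCsL : Cs ≤ L := fun x hx => hx.1.1
  have hCscomm : ∀ c ∈ Cs, ∀ l ∈ L, c * l * c⁻¹ * l⁻¹ ∈ A := fun c hc l hl => hc.1.2 l hl
  -- centralisers
  have hCent : ∀ B : Subgroup H, B.Normal → B ≤ L → (∀ a ∈ A, a ∈ B) →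
      (∀ z ∈ B, ∀ c ∈ B, z * c = c * z) → B ≤ A := fun B h1 h2 h3 h4 => hAmax B h1 h4 h2 h3
  have fact1 : ∀ z ∈ Cs, (∀ c ∈ Cs, z * c = c * z) → z ∈ A := by
    let Z : Subgroup H :=
      { carrier := {z | z ∈ Cs ∧ ∀ c ∈ Cs, z * c = c * z}
        mul_mem' := by
          rintro x y ⟨hx, hx'⟩ ⟨hy, hy'⟩
          refine ⟨Subgroup.mul_mem _ hx hy, fun a ha => ?_⟩
          rw [mul_assoc, hy' a ha, ← mul_assoc, hx' a ha, mul_assoc]
        one_mem' := ⟨Subgroup.one_mem _, fun a _ => by simp⟩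
        inv_mem' := by
          rintro x ⟨hx, hx'⟩
          refine ⟨Subgroup.inv_mem _ hx, fun a ha => ?_⟩
          have := hx' a ha
          calc x⁻¹ * a = x⁻¹ * (a * x) * x⁻¹ := by group
            _ = x⁻¹ * (x * a) * x⁻¹ := by rw [this]
            _ = a * x⁻¹ := by group }
    have hZn : Z.Normal := by
      refine ⟨?_⟩
      rintro x ⟨hx, hx'⟩ g
      refine ⟨hCsn.conj_mem x hx g, fun a ha => ?_⟩
      have h1 := hx' (g⁻¹ * a * g) (by simpa using hCsn.conj_mem a ha g⁻¹)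
      calc g * x * g⁻¹ * a = g * (x * (g⁻¹ * a * g)) * g⁻¹ := by group
        _ = g * ((g⁻¹ * a * g) * x) * g⁻¹ := by rw [h1]
        _ = a * (g * x * g⁻¹) := by group
    intro z hz hz'
    refine hCent Z hZn (fun x hx => hCsL hx.1) ?_ ?_ ⟨hz, hz'⟩
    · intro a ha
      exact ⟨hACs ha, fun c hc => (hc.2 a ha).symm⟩
    · intro x hx y hy
      exact hx.2 y hy.1
  have fact2 : ∀ z ∈ L, (∀ c ∈ Cs, z * c = c * z) → z ∈ A := by
    let Z : Subgroup H :=
      { carrier := {z | z ∈ L ∧ ∀ c ∈ Cs, z * c = c * z}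
        mul_mem' := by
          rintro x y ⟨hx, hx'⟩ ⟨hy, hy'⟩
          refine ⟨Subgroup.mul_mem _ hx hy, fun a ha => ?_⟩
          rw [mul_assoc, hy' a ha, ← mul_assoc, hx' a ha, mul_assoc]
        one_mem' := ⟨Subgroup.one_mem _, fun a _ => by simp⟩
        inv_mem' := by
          rintro x ⟨hx, hx'⟩
          refine ⟨Subgroup.inv_mem _ hx, fun a ha => ?_⟩
          have := hx' a ha
          calc x⁻¹ * a = x⁻¹ * (a * x) * x⁻¹ := by group
            _ = x⁻¹ * (x * a) * x⁻¹ := by rw [this]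
            _ = a * x⁻¹ := by group }
    have hZn : Z.Normal := by
      refine ⟨?_⟩
      rintro x ⟨hx, hx'⟩ g
      refine ⟨hLn.conj_mem x hx g, fun a ha => ?_⟩
      have h1 := hx' (g⁻¹ * a * g) (by simpa using hCsn.conj_mem a ha g⁻¹)
      calc g * x * g⁻¹ * a = g * (x * (g⁻¹ * a * g)) * g⁻¹ := by group
        _ = g * ((g⁻¹ * a * g) * x) * g⁻¹ := by rw [h1]
        _ = a * (g * x * g⁻¹) := by group
    have hAZ : A ≤ Z := by
      intro a ha
      exact ⟨hAL ha, fun c hc => (hc.2 a ha).symm⟩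
    have hZA : A = Z := by
      by_contra hne
      obtain ⟨d, hdZ, hdA, hdL⟩ := exists_central_rel L A Z hL hAZ (fun x hx => hx.1) hne
      apply hdA
      apply fact1 d
      · exact ⟨⟨hdZ.1, hdL⟩, fun a ha => hdZ.2 a (hACs ha)⟩
      · exact hdZ.2
    intro z hz hz'
    rw [hZA]
    exact ⟨hz, hz'⟩
  -- L in terms of Cs
  have hLcard : Nat.card L ≤ Nat.card A * Nat.card Cs ^ Nat.card Cs := by
    have h1 := card_le_of_fiber L A (β := Cs → Cs)
      (fun l c => ⟨(l : H) * c * (l : H)⁻¹, hCsn.conj_mem c c.2 l⟩) (by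
        intro l l' hll'
        apply fact2 _ (L.mul_mem (L.inv_mem l.2) l'.2)
        intro c hc
        have h2 := congrArg Subtype.val (congrFun hll' ⟨c, hc⟩)
        simp only at h2
        calc (l : H)⁻¹ * l' * c = (l : H)⁻¹ * (l' * c * (l' : H)⁻¹) * l' := by group
          _ = (l : H)⁻¹ * (l * c * (l : H)⁻¹) * l' := by rw [h2]
          _ = c * ((l : H)⁻¹ * l') := by group)
    have h2 : Nat.card (Cs → Cs) = Nat.card Cs ^ Nat.card Cs := Nat.card_fun
    rwa [h2] at h1
  -- the subgroup D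
  set T : Subgroup H := S ⊓ Cs with hT
  have hTab : ∀ x ∈ T, ∀ y ∈ T, x * y = y * x := by
    intro x hx y hy
    have h1 : x * y * x⁻¹ * y⁻¹ ∈ A := hCscomm x hx.2 y (hCsL hy.2)
    have h2 : x * y * x⁻¹ * y⁻¹ ∈ S :=
      S.mul_mem (S.mul_mem (S.mul_mem hx.1 hy.1) (S.inv_mem hx.1)) (S.inv_mem hy.1)
    have h3 := hSA _ h1 h2
    calc x * y = (x * y * x⁻¹ * y⁻¹) * (y * x) := by group
      _ = y * x := by rw [h3, one_mul]
  set D : Subgroup H := T ⊔ A with hD
  have hAD : A ≤ D := le_sup_right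
  have hTD : T ≤ D := le_sup_left
  have hDCs : D ≤ Cs := sup_le inf_le_right hACs
  have hDab : ∀ x ∈ D, ∀ y ∈ D, x * y = y * x := by
    intro x hx y hy
    rw [hD, Subgroup.mem_sup_of_normal_right] at hx hy
    obtain ⟨t, ht, a, ha, rfl⟩ := hx
    obtain ⟨u, hu, c, hc, rfl⟩ := hy
    have e1 := hu.2.2 a ha
    have e2 := ht.2.2 c hc
    have e3 := hTab t ht u hu
    have e4 := hAab a ha c hc
    calc t * a * (u * c) = t * (a * u) * c := by group
      _ = t * (u * a) * c := by rw [e1]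
      _ = (t * u) * (a * c) := by group
      _ = (u * t) * (c * a) := by rw [e3, e4]
      _ = u * (t * c) * a := by group
      _ = u * (c * t) * a := by rw [e2]
      _ = u * c * (t * a) := by group
  -- the union of the conjugates
  set U : Set H := {z | ∃ h : H, ∃ x ∈ (D : Set H), h * x * h⁻¹ = z} with hU
  have hUcard : U.ncard ≤ b * Nat.card D := by
    refine le_trans (ncard_conj_le L (D : Set H) ?_) (Nat.mul_le_mul_right _ hidx)
    intro l hl x hx
    have h1 := A.inv_mem (hCscomm x (hDCs hx) l hl)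
    have h2 := D.mul_mem (hAD h1) hx
    simpa [mul_assoc] using h2
  have hYcard : ((Cs : Set H) \ U).ncard ≤ (b * Nat.card A) * m := by
    refine le_trans (ncard_le_kcl_mul _ (b * Nat.card A) ?_) (Nat.mul_le_mul_left _ ?_)
    · rintro y ⟨hy, _⟩
      refine le_trans (ncard_cls_le L A y ?_) (Nat.mul_le_mul_right _ hidx)
      intro l hl
      have := hCscomm _ (Cs.inv_mem hy) l hl
      simpa [mul_assoc] using this
    · refine le_trans (kcl_mono ?_) hk
      rintro y ⟨hy, hyU⟩ g hg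
      apply hyU
      refine ⟨g⁻¹, g * y * g⁻¹, hTD ⟨hg, hCsn.conj_mem y hy g⟩, ?_⟩
      group
  have hCscard : Nat.card Cs ≤ b * Nat.card D + (b * Nat.card A) * m := by
    have h1 : (Cs : Set H) ⊆ U ∪ ((Cs : Set H) \ U) := by
      intro x hx
      by_cases h : x ∈ U
      · exact Or.inl h
      · exact Or.inr ⟨hx, h⟩
    have h2 : Nat.card Cs = (Cs : Set H).ncard := rfl
    rw [h2]
    refine le_trans (Set.ncard_le_ncard h1 (Set.toFinite _)) ?_
    refine le_trans (Set.ncard_union_le _ _) ?_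
    exact Nat.add_le_add hUcard hYcard
  -- index of D
  set k := (D.subgroupOf Cs).index with hkdef
  have hDk : Nat.card D * k = Nat.card Cs := by
    rw [← Subgroup.card_mul_index (D.subgroupOf Cs)]
    congr 1
    exact (Nat.card_congr (Subgroup.subgroupOfEquivOfLe hDCs).toEquiv).symm
  have hDcard : Nat.card D ≤ Nat.card A * Nat.card A ^ k := by
    have h1 := card_le_of_fiber D A (β := (Cs ⧸ D.subgroupOf Cs) → A)
      (fun d q => ⟨(d : H) * (q.out : Cs) * (d : H)⁻¹ * ((q.out : Cs) : H)⁻¹,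
        hCscomm d (hDCs d.2) _ (hCsL (q.out : Cs).2)⟩) (by
        intro d d' hdd'
        apply fact1 _ (Cs.mul_mem (Cs.inv_mem (hDCs d.2)) (hDCs d'.2))
        have key : ∀ q : Cs ⧸ D.subgroupOf Cs, (d : H)⁻¹ * d' * (q.out : Cs) =
            (q.out : Cs) * ((d : H)⁻¹ * d') := by
          intro q
          have h2 := congrArg Subtype.val (congrFun hdd' q)
          simp only at h2
          have h3 := mul_right_cancel h2
          calc (d : H)⁻¹ * d' * (q.out : Cs)
              = (d : H)⁻¹ * (d' * (q.out : Cs) * (d' : H)⁻¹) * d' := by group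
            _ = (d : H)⁻¹ * (d * (q.out : Cs) * (d : H)⁻¹) * d' := by rw [h3]
            _ = (q.out : Cs) * ((d : H)⁻¹ * d') := by group
        intro c hc
        obtain ⟨e, he⟩ := QuotientGroup.mk_out_eq_mul (D.subgroupOf Cs) (⟨c, hc⟩ : Cs)
        have he' : (((⟨c, hc⟩ : Cs) : Cs ⧸ D.subgroupOf Cs).out : H) = c * (e : Cs) :=
          congrArg Subtype.val he
        have h4 := key ((⟨c, hc⟩ : Cs) : Cs ⧸ D.subgroupOf Cs)
        rw [he'] at h4
        have heD : ((e : Cs) : H) ∈ D := Subgroup.mem_subgroupOf.mp e.2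
        have h5 := hDab _ (D.mul_mem (D.inv_mem d.2) d'.2) _ heD
        have h6 : (d : H)⁻¹ * d' * c * (e : Cs) = c * ((d : H)⁻¹ * d') * (e : Cs) := by
          calc (d : H)⁻¹ * d' * c * (e : Cs) = (d : H)⁻¹ * d' * (c * (e : Cs)) := by group
            _ = c * (e : Cs) * ((d : H)⁻¹ * d') := h4
            _ = c * ((e : Cs) * ((d : H)⁻¹ * d')) := by group
            _ = c * (((d : H)⁻¹ * d') * (e : Cs)) := by rw [h5]
            _ = c * ((d : H)⁻¹ * d') * (e : Cs) := by group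
        exact mul_right_cancel h6)
    rw [Nat.card_fun] at h1
    exact h1
  have hCsg : Nat.card Cs ≤ gam b m := by
    set α := (1 + b) ^ m with hα
    have hα1 : 1 ≤ α := Nat.one_le_pow _ _ (by omega)
    have hDpos : 0 < Nat.card D := Nat.card_pos
    by_cases hk2 : 2 * b ≤ k
    · have h1 : Nat.card D * (2 * b) ≤ b * Nat.card D + (b * Nat.card A) * m := by
        refine le_trans (Nat.mul_le_mul_left _ hk2) ?_
        rw [hDk]; exact hCscard
      have h2 : b * Nat.card D ≤ (b * Nat.card A) * m := by nlinarith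
      have h3 : Nat.card Cs ≤ 2 * ((b * Nat.card A) * m) := by omega
      refine le_trans h3 ?_
      calc 2 * ((b * Nat.card A) * m) = 2 * b * m * Nat.card A := by ring
        _ ≤ 2 * b * (m + 1) * α := by
          apply Nat.mul_le_mul _ hAcard
          apply Nat.mul_le_mul_left
          omega
        _ ≤ 2 * b * (m + 1) * α ^ (2 * b + 1) := by
          apply Nat.mul_le_mul_left
          exact Nat.le_self_pow (by omega) α
    · push Not at hk2
      have h1 : Nat.card Cs ≤ α ^ (k + 1) * k := by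
        rw [← hDk]
        apply Nat.mul_le_mul_right
        refine le_trans hDcard ?_
        calc Nat.card A * Nat.card A ^ k = Nat.card A ^ (k + 1) := by rw [pow_succ, mul_comm]
          _ ≤ α ^ (k + 1) := Nat.pow_le_pow_left hAcard _
      refine le_trans h1 ?_
      calc α ^ (k + 1) * k ≤ α ^ (2 * b + 1) * (2 * b * (m + 1)) := by
            apply Nat.mul_le_mul
            · exact Nat.pow_le_pow_right hα1 (by omega)
            · calc k ≤ 2 * b := by omega
                _ ≤ 2 * b * (m + 1) := Nat.le_mul_of_pos_right _ (by omega)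
        _ = gam b m := by rw [gam]; ring
  have hCspos : 0 < Nat.card Cs := Nat.card_pos
  refine le_trans hLcard ?_
  rw [Psi]
  apply Nat.mul_le_mul hAcard
  calc Nat.card Cs ^ Nat.card Cs ≤ (gam b m) ^ Nat.card Cs := Nat.pow_le_pow_left hCsg _
    _ ≤ (gam b m) ^ (gam b m) := Nat.pow_le_pow_right (by omega) hCsg

end step

end Pool.Agent.Lib.MP_29fe3f_al
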